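import Pool.Agent.H22.NS.Main

/-! # The converse: slowly decaying test functions (MP_a28cf0_nt) -/

set_option autoImplicit false
open MeasureTheory Filter Topology Metric Set
open scoped ContDiff ENNReal

namespace Pool.Agent.H22.NS

open Pool.Agent.X127.HY (HH HH_open ef ef_smooth ef_lp)

noncomputable section

/-- the bump -/
def eta : ContDiffBump (0 : ℝ) := ⟨1, 2, one_pos, one_lt_two⟩

lemma eta_zero {x : ℝ} (h : x ∉ Icc (-2 : ℝ) 2) : eta x = 0 := by
  refine eta.zero_of_le_dist ?_
  show 2 ≤ dist x 0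
  rw [Real.dist_eq, sub_zero]
  rw [mem_Icc, not_and_or, not_le, not_le] at h
  rcases h with h | h
  · rw [abs_of_neg (by linarith)]; linarith
  · rw [abs_of_pos (by linarith)]; linarith

lemma eta_sm : ContDiff ℝ ∞ (fun x => eta x) := eta.contDiff

lemma eta_c : Continuous (fun x => eta x) := eta_sm.continuous

/-- the correlation of the bump with itself -/
def kap (u : ℝ) : ℝ := ∫ x, eta x * eta (x + u)

lemma pair_zero {x u : ℝ} (h : (x, u) ∉ Icc (-2 : ℝ) 2 ×ˢ Icc (-4 : ℝ) 4) :
    eta x * eta (x + u) = 0 := by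
  by_cases h1 : x ∈ Icc (-2 : ℝ) 2
  · have h2 : u ∉ Icc (-4 : ℝ) 4 := fun h3 => h ⟨h1, h3⟩
    have h3 : x + u ∉ Icc (-2 : ℝ) 2 := fun h4 => h2 ⟨by linarith [h1.2, h4.1], by
      linarith [h1.1, h4.2]⟩
    rw [eta_zero h3, mul_zero]
  · rw [eta_zero h1, zero_mul]

lemma pair_int {P : ℝ → ℝ} (hP : Continuous P) :
    Integrable (fun p : ℝ × ℝ => eta p.1 * eta (p.1 + p.2) * P p.2)
      ((volume : Measure ℝ).prod (volume : Measure ℝ)) := by
  have hc : Continuous fun p : ℝ × ℝ => eta p.1 * eta (p.1 + p.2) * P p.2 :=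
    ((eta_c.comp continuous_fst).mul (eta_c.comp (continuous_fst.add continuous_snd))).mul
      (hP.comp continuous_snd)
  exact hc.integrable_of_hasCompactSupport (HasCompactSupport.intro
    (isCompact_Icc.prod isCompact_Icc) fun p hp => by rw [pair_zero hp, zero_mul])

lemma kap_mul (P : ℝ → ℝ) (u : ℝ) : kap u * P u = ∫ x, eta x * eta (x + u) * P u := by
  unfold kap
  rw [integral_mul_const]

lemma kap_int {P : ℝ → ℝ} (hP : Continuous P) : Integrable (fun u => kap u * P u) := by
  simp only [kap_mul]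
  exact (pair_int hP).integral_prod_right

/-- the functional -/
def Lk (P : ℝ → ℝ) : ℝ := ∫ u, kap u * P u

lemma Lk_swap {P : ℝ → ℝ} (hP : Continuous P) :
    Lk P = ∫ x, ∫ u, eta x * eta (x + u) * P u := by
  unfold Lk
  simp only [kap_mul]
  exact (integral_integral_swap (pair_int hP)).symm

lemma Lk_cos (l : ℝ) : Lk (fun u => Real.cos (l * u)) =
    (∫ v, eta v * Real.cos (l * v)) ^ 2 + (∫ v, eta v * Real.sin (l * v)) ^ 2 := by
  have hc : Continuous fun u => Real.cos (l * u) := by fun_prop
  have hs : Continuous fun u => Real.sin (l * u) := by fun_prop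
  rw [Lk_swap hc]
  have ic : Integrable fun v => eta v * Real.cos (l * v) :=
    (eta_c.mul hc).integrable_of_hasCompactSupport (HasCompactSupport.intro isCompact_Icc
      fun x hx => by
        show eta x * Real.cos (l * x) = 0
        rw [eta_zero hx, zero_mul])
  have is : Integrable fun v => eta v * Real.sin (l * v) :=
    (eta_c.mul hs).integrable_of_hasCompactSupport (HasCompactSupport.intro isCompact_Icc
      fun x hx => by
        show eta x * Real.sin (l * x) = 0
        rw [eta_zero hx, zero_mul])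
  have h1 : ∀ x : ℝ, ∫ u, eta x * eta (x + u) * Real.cos (l * u) =
      (eta x * Real.cos (l * x)) * (∫ v, eta v * Real.cos (l * v)) +
      (eta x * Real.sin (l * x)) * (∫ v, eta v * Real.sin (l * v)) := by
    intro x
    have h2 : ∫ u, eta x * eta (x + u) * Real.cos (l * u) =
        ∫ v, eta x * eta v * Real.cos (l * (v - x)) := by
      have := integral_add_left_eq_self (μ := (volume : Measure ℝ))
        (fun v => eta x * eta v * Real.cos (l * (v - x))) x
      rw [← this]
      refine integral_congr_ae (ae_of_all _ fun u => ?_)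
      simp only
      rw [add_sub_cancel_left]
    rw [h2, ← integral_const_mul, ← integral_const_mul, ← integral_add (ic.const_mul _)
      (is.const_mul _)]
    refine integral_congr_ae (ae_of_all _ fun v => ?_)
    simp only
    rw [mul_sub, Real.cos_sub]
    ring
  simp only [h1]
  rw [integral_add (ic.mul_const _) (is.mul_const _), integral_mul_const, integral_mul_const]
  ring

lemma Lk_cos_nonneg (l : ℝ) : 0 ≤ Lk (fun u => Real.cos (l * u)) := by
  rw [Lk_cos]
  positivity

lemma Lk_one : 0 < Lk (fun u => Real.cos (0 * u)) := by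
  rw [Lk_cos]
  simp only [zero_mul, Real.cos_zero, Real.sin_zero, mul_one, mul_zero, integral_zero]
  have := eta.integral_pos (μ := volume)
  positivity

lemma Lk_add {P Q : ℝ → ℝ} (hP : Continuous P) (hQ : Continuous Q) :
    Lk (fun u => P u + Q u) = Lk P + Lk Q := by
  unfold Lk
  rw [← integral_add (kap_int hP) (kap_int hQ)]
  refine integral_congr_ae (ae_of_all _ fun u => ?_)
  simp only
  ring

lemma Lk_mul (c : ℝ) (P : ℝ → ℝ) : Lk (fun u => c * P u) = c * Lk P := by
  unfold Lk
  rw [← integral_const_mul]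
  refine integral_congr_ae (ae_of_all _ fun u => ?_)
  simp only
  ring

/-- the product of the cosines -/
lemma prod_cos {p : ℝ → ℝ} (hp : Continuous p)
    (hpos : ∀ l, 0 ≤ Lk (fun u => p u * Real.cos (l * u))) (m : ℕ) (s : Fin m → ℝ) (t : ℝ) :
    (1 / 2) ^ m * Lk (fun u => p u * Real.cos ((t - ∑ j, s j) * u)) ≤
      Lk (fun u => p u * (Real.cos (t * u) * ∏ j, Real.cos (s j * u))) := by
  induction m generalizing t with
  | zero => simp
  | succ m ih =>
    have h1 := ih (fun j => s j.succ) (t - s 0)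
    have h2 := ih (fun j => s j.succ) (t + s 0)
    have h3 := hpos (t + s 0 - ∑ j : Fin m, s j.succ)
    have e1 : (fun u => p u * (Real.cos (t * u) * ∏ j, Real.cos (s j * u))) =
        fun u => (1 / 2) * (p u * (Real.cos ((t - s 0) * u) * ∏ j : Fin m,
          Real.cos (s j.succ * u))) + (1 / 2) * (p u * (Real.cos ((t + s 0) * u) *
            ∏ j : Fin m, Real.cos (s j.succ * u))) := by
      funext u
      rw [Fin.prod_univ_succ, sub_mul, add_mul, Real.cos_sub, Real.cos_add]
      ring
    have c1 : ∀ r : ℝ, Continuous fun u => (1 / 2 : ℝ) * (p u * (Real.cos (r * u) *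
        ∏ j : Fin m, Real.cos (s j.succ * u))) := fun r => by fun_prop
    rw [e1, Lk_add (c1 _) (c1 _), Lk_mul, Lk_mul, Fin.sum_univ_succ]
    have e2 : t - (s 0 + ∑ j : Fin m, s j.succ) = t - s 0 - ∑ j : Fin m, s j.succ := by ring
    rw [e2, pow_succ]
    have h4 : (0 : ℝ) ≤ (1 / 2) ^ m := by positivity
    have h5 := mul_nonneg h4 h3
    linarith

lemma abs_id_cos (k : ℕ) (x : ℝ) :
    |iteratedDeriv k Real.cos x| ≤ 1 ∧ |iteratedDeriv k Real.sin x| ≤ 1 := by
  induction k with
  | zero => exact ⟨by simpa using Real.abs_cos_le_one x, by simpa using Real.abs_sin_le_one x⟩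
  | succ k ih =>
    constructor
    · rw [iteratedDeriv_succ', Real.deriv_cos']
      have : iteratedDeriv k (fun x => -Real.sin x) x = -iteratedDeriv k Real.sin x :=
        iteratedDeriv_fun_neg k Real.sin x
      rw [this, abs_neg]
      exact ih.2
    · rw [iteratedDeriv_succ', Real.deriv_sin]
      exact ih.1

/-- the slowly decaying amplitude -/
def sp (c E : ℕ → ℝ) (u : ℝ) : ℝ := ∑' j, c j * Real.cos (E j * u)

lemma sp_smooth {c E : ℕ → ℝ} (hs : ∀ N : ℕ, Summable fun j => |c j| * |E j| ^ N) :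
    ContDiff ℝ ∞ (sp c E) := by
  unfold sp
  refine contDiff_tsum (v := fun k j => |c j| * |E j| ^ k) (fun j => ?_) (fun k _ => hs k)
    fun k j x _ => ?_
  · exact contDiff_const.mul (Real.contDiff_cos.comp (contDiff_const.mul contDiff_id))
  · rw [norm_iteratedFDeriv_eq_norm_iteratedDeriv, iteratedDeriv_const_mul_field,
      iteratedDeriv_comp_const_mul (Real.contDiff_cos), norm_mul, Real.norm_eq_abs,
      Real.norm_eq_abs, abs_mul, abs_pow]
    have := (abs_id_cos k (E j * x)).1
    refine mul_le_mul_of_nonneg_left ?_ (abs_nonneg _)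
    exact mul_le_of_le_one_right (by positivity) this

/-- the functional of the series -/
lemma Lk_sp {c E : ℕ → ℝ} (hc : ∀ j, 0 ≤ c j) (hs : Summable c) (l : ℝ) :
    HasSum (fun j => c j * (1 / 2 * (Lk (fun u => Real.cos ((E j - l) * u)) +
      Lk (fun u => Real.cos ((E j + l) * u))))) (Lk (fun u => sp c E u * Real.cos (l * u))) := by
  have ccont : ∀ r : ℝ, Continuous fun u => Real.cos (r * u) := fun r => by fun_prop
  have hi : ∀ j, Integrable fun u => kap u * (c j * Real.cos (E j * u) * Real.cos (l * u)) :=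
    fun j => kap_int (P := fun u => c j * Real.cos (E j * u) * Real.cos (l * u)) (by fun_prop)
  have k1 : Integrable kap := by
    have := kap_int (P := fun _ => 1) continuous_const
    simpa using this
  have hsum : Summable fun j => ∫ u, ‖kap u * (c j * Real.cos (E j * u) * Real.cos (l * u))‖ := by
    refine Summable.of_nonneg_of_le (fun j => integral_nonneg fun _ => norm_nonneg _)
      (fun j => ?_) (hs.mul_right (∫ u, ‖kap u‖))
    rw [← integral_const_mul]
    refine integral_mono (hi j).norm (k1.norm.const_mul _) fun u => ?_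
    simp only
    rw [norm_mul, norm_mul, norm_mul, Real.norm_eq_abs (c j), abs_of_nonneg (hc j),
      Real.norm_eq_abs (Real.cos _), Real.norm_eq_abs (Real.cos _)]
    have h1 := Real.abs_cos_le_one (E j * u)
    have h2 := Real.abs_cos_le_one (l * u)
    calc ‖kap u‖ * (c j * |Real.cos (E j * u)| * |Real.cos (l * u)|)
        ≤ ‖kap u‖ * (c j * 1 * 1) := by
          have := hc j
          gcongr
      _ = c j * ‖kap u‖ := by ring
  have h := hasSum_integral_of_summable_integral_norm hi hsum
  have e1 : ∀ j, ∫ u, kap u * (c j * Real.cos (E j * u) * Real.cos (l * u)) =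
      c j * (1 / 2 * (Lk (fun u => Real.cos ((E j - l) * u)) +
        Lk (fun u => Real.cos ((E j + l) * u)))) := by
    intro j
    rw [← Lk_add (ccont _) (ccont _), ← Lk_mul, ← Lk_mul]
    unfold Lk
    refine integral_congr_ae (ae_of_all _ fun u => ?_)
    simp only
    rw [sub_mul, add_mul, Real.cos_sub, Real.cos_add]
    ring
  have e2 : ∫ u, ∑' j, kap u * (c j * Real.cos (E j * u) * Real.cos (l * u)) =
      Lk (fun u => sp c E u * Real.cos (l * u)) := by
    unfold Lk sp
    refine integral_congr_ae (ae_of_all _ fun u => ?_)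
    simp only
    rw [tsum_mul_left, tsum_mul_right]
  rw [e2] at h
  simp only [e1] at h
  exact h

lemma Lk_sp_nonneg {c E : ℕ → ℝ} (hc : ∀ j, 0 ≤ c j) (hs : Summable c) (l : ℝ) :
    0 ≤ Lk (fun u => sp c E u * Real.cos (l * u)) :=
  (Lk_sp hc hs l).nonneg fun j => mul_nonneg (hc j) (mul_nonneg (by norm_num)
    (add_nonneg (Lk_cos_nonneg _) (Lk_cos_nonneg _)))

lemma Lk_sp_ge {c E : ℕ → ℝ} (hc : ∀ j, 0 ≤ c j) (hs : Summable c) (j : ℕ) :
    c j * (1 / 2 * Lk (fun u => Real.cos (0 * u))) ≤
      Lk (fun u => sp c E u * Real.cos (E j * u)) := by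
  have h := le_hasSum (Lk_sp (E := E) hc hs (E j)) j fun i _ => mul_nonneg (hc i)
    (mul_nonneg (by norm_num) (add_nonneg (Lk_cos_nonneg _) (Lk_cos_nonneg _)))
  refine le_trans ?_ h
  rw [sub_self]
  refine mul_le_mul_of_nonneg_left ?_ (hc j)
  have := Lk_cos_nonneg (E j + E j)
  linarith

/-- integration over the upper half plane in the logarithmic coordinate -/
lemma int_id {P : ℝ → ℝ} (hP : Continuous P) :
    ∫ z : ℂ, (if 0 < z.im then eta z.re * eta (z.re + Real.log z.im) * P (Real.log z.im) / z.im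
      else 0) = Lk P := by
  have h1 : ∫ z : ℂ, (if 0 < z.im then eta z.re * eta (z.re + Real.log z.im) *
      P (Real.log z.im) / z.im else 0) = ∫ p : ℝ × ℝ, (if 0 < p.2 then eta p.1 *
        eta (p.1 + Real.log p.2) * P (Real.log p.2) / p.2 else 0) := by
    rw [← Complex.volume_preserving_equiv_real_prod.integral_comp'
      (g := fun p : ℝ × ℝ => if 0 < p.2 then eta p.1 * eta (p.1 + Real.log p.2) *
        P (Real.log p.2) / p.2 else 0)]
    rfl
  have h2 : Continuous (fun p : ℝ × ℝ => if 0 < p.2 then eta p.1 *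
        eta (p.1 + Real.log p.2) * P (Real.log p.2) / p.2 else 0) := by
    rw [continuous_iff_continuousAt]
    intro p
    by_cases h : 0 < p.2
    · have e : (fun p : ℝ × ℝ => eta p.1 * eta (p.1 + Real.log p.2) * P (Real.log p.2) / p.2)
          =ᶠ[𝓝 p] (fun p : ℝ × ℝ => if 0 < p.2 then eta p.1 *
        eta (p.1 + Real.log p.2) * P (Real.log p.2) / p.2 else 0) := by
        filter_upwards [(isOpen_lt continuous_const continuous_snd).mem_nhds h] with q hq
        have : 0 < q.2 := hq
        rw [if_pos this]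
      refine ContinuousAt.congr ?_ e
      have l1 : ContinuousAt (fun p : ℝ × ℝ => Real.log p.2) p :=
        continuousAt_snd.log h.ne'
      exact (((eta_c.continuousAt.comp continuousAt_fst).mul
        (eta_c.continuousAt.comp (continuousAt_fst.add l1))).mul
          (hP.continuousAt.comp l1)).div continuousAt_snd h.ne'
    · have c0 : ContinuousAt (fun _ : ℝ × ℝ => (0 : ℝ)) p := continuousAt_const
      refine c0.congr ?_
      have h3 : p.2 < Real.exp (-4) := lt_of_le_of_lt (not_lt.1 h) (Real.exp_pos _)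
      filter_upwards [(isOpen_lt continuous_snd continuous_const).mem_nhds h3] with q hq
      have hq : q.2 < Real.exp (-4) := hq
      split_ifs with h4
      · have h5 : Real.log q.2 < -4 := by
          rw [Real.log_lt_iff_lt_exp h4]
          exact hq
        rw [pair_zero (fun h6 => by linarith [h6.2.1]), zero_mul, zero_div]
      · rfl
  have h3 : Integrable (fun p : ℝ × ℝ => if 0 < p.2 then eta p.1 *
        eta (p.1 + Real.log p.2) * P (Real.log p.2) / p.2 else 0)
        ((volume : Measure ℝ).prod (volume : Measure ℝ)) := by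
    refine h2.integrable_of_hasCompactSupport (HasCompactSupport.intro
      ((isCompact_Icc (a := (-2 : ℝ)) (b := 2)).prod
        (isCompact_Icc (a := (0 : ℝ)) (b := Real.exp 4))) fun p hp => ?_)
    split_ifs with h4
    · have h7 : (p.1, Real.log p.2) ∉ Icc (-2 : ℝ) 2 ×ˢ Icc (-4 : ℝ) 4 := fun h6 =>
        hp ⟨h6.1, h4.le, by
          rw [← Real.exp_log h4]
          exact Real.exp_le_exp.2 h6.2.2⟩
      rw [pair_zero h7, zero_mul, zero_div]
    · rfl
  rw [h1, Measure.volume_eq_prod, integral_prod_symm _ h3]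
  have h4 : ∀ y : ℝ, ∫ x : ℝ, (if 0 < y then eta x * eta (x + Real.log y) * P (Real.log y) / y
      else 0) = (Ioi (0 : ℝ)).indicator (fun y => kap (Real.log y) * P (Real.log y) / y) y := by
    intro y
    by_cases h : 0 < y
    · rw [indicator_of_mem (show y ∈ Ioi (0 : ℝ) from h)]
      simp only [h, if_true]
      rw [integral_div, ← kap_mul]
    · rw [indicator_of_notMem (show y ∉ Ioi (0 : ℝ) from h)]
      simp only [h, if_false, integral_zero]
  simp only [h4]
  rw [integral_indicator measurableSet_Ioi]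
  have h5 := integral_image_eq_integral_abs_deriv_smul (s := univ) MeasurableSet.univ
    (f := Real.exp) (f' := Real.exp) (fun x _ => (Real.hasDerivAt_exp x).hasDerivWithinAt)
    Real.exp_injective.injOn (fun y => kap (Real.log y) * P (Real.log y) / y)
  rw [image_univ, Real.range_exp, setIntegral_univ] at h5
  rw [h5]
  unfold Lk
  refine integral_congr_ae (ae_of_all _ fun u => ?_)
  simp only
  rw [Real.log_exp, abs_of_pos (Real.exp_pos u), smul_eq_mul]
  have := Real.exp_pos u
  field_simp

/-- the test function -/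
def tf (r : ℝ) (p : ℝ → ℝ) (z : ℂ) : ℝ :=
  if 0 < z.im then eta z.re * eta (z.re + Real.log z.im) *
    (p (Real.log z.im) * Real.exp (r * Real.log z.im)) else 0

lemma tf_zero (r : ℝ) (p : ℝ → ℝ) {z : ℂ}
    (hz : z ∉ Icc (-2 : ℝ) 2 ×ℂ Icc (Real.exp (-4)) (Real.exp 4)) : tf r p z = 0 := by
  unfold tf
  split_ifs with h
  · have h7 : (z.re, Real.log z.im) ∉ Icc (-2 : ℝ) 2 ×ˢ Icc (-4 : ℝ) 4 := fun h6 =>
      hz ⟨h6.1, by
        show Real.exp (-4) ≤ z.im
        rw [← Real.exp_log h]
        exact Real.exp_le_exp.2 h6.2.1, by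
        show z.im ≤ Real.exp 4
        rw [← Real.exp_log h]
        exact Real.exp_le_exp.2 h6.2.2⟩
    rw [pair_zero h7, zero_mul]
  · rfl

lemma tf_box : IsCompact (Icc (-2 : ℝ) 2 ×ℂ Icc (Real.exp (-4)) (Real.exp 4)) :=
  isCompact_Icc.reProdIm isCompact_Icc

lemma tf_box_sub : (Icc (-2 : ℝ) 2 ×ℂ Icc (Real.exp (-4)) (Real.exp 4)) ⊆ HH := fun _ hz =>
  lt_of_lt_of_le (Real.exp_pos _) hz.2.1

lemma tf_smooth (r : ℝ) {p : ℝ → ℝ} (hp : ContDiff ℝ ∞ p) : ContDiff ℝ ∞ (tf r p) := by
  rw [contDiff_iff_contDiffAt]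
  intro z
  by_cases h : z ∈ HH
  · have hl : ContDiffAt ℝ ∞ (fun z : ℂ => Real.log z.im) z :=
      Complex.imCLM.contDiff.contDiffAt.log (ne_of_gt h)
    have hr : ContDiffAt ℝ ∞ (fun z : ℂ => z.re) z := Complex.reCLM.contDiff.contDiffAt
    have h1 : ContDiffAt ℝ ∞ (fun z : ℂ => eta z.re * eta (z.re + Real.log z.im) *
        (p (Real.log z.im) * Real.exp (r * Real.log z.im))) z :=
      ((eta_sm.contDiffAt.comp z hr).mul (eta_sm.contDiffAt.comp z (hr.add hl))).mul
        ((hp.contDiffAt.comp z hl).mul (contDiffAt_const.mul hl).exp)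
    refine h1.congr_of_eventuallyEq ?_
    filter_upwards [HH_open.mem_nhds h] with w hw
    have hw : 0 < w.im := hw
    unfold tf
    rw [if_pos hw]
  · have c0 : ContDiffAt ℝ ∞ (fun _ : ℂ => (0 : ℝ)) z := contDiffAt_const
    refine c0.congr_of_eventuallyEq ?_
    have h1 : z ∉ Icc (-2 : ℝ) 2 ×ℂ Icc (Real.exp (-4)) (Real.exp 4) := fun h2 => h (tf_box_sub h2)
    filter_upwards [tf_box.isClosed.isOpen_compl.mem_nhds h1] with w hw using tf_zero r p hw

lemma tf_supp (r : ℝ) (p : ℝ → ℝ) : HasCompactSupport (tf r p) :=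
  HasCompactSupport.intro tf_box fun _ hz => tf_zero r p hz

lemma tf_tsupp (r : ℝ) (p : ℝ → ℝ) : tsupport (tf r p) ⊆ HH := by
  refine (closure_minimal ?_ tf_box.isClosed).trans tf_box_sub
  intro z hz
  by_contra h
  exact hz (tf_zero r p h)

lemma Eg_ef (t : ℝ) : Eg t (ef t) := ⟨ef_smooth t, fun _ hz => ef_lp t hz⟩

lemma LL_ef (r : ℕ → ℝ) : LL (fun n => ef (r n)) := by
  intro K hK hKH
  refine ⟨∫ z in K, Real.exp (Real.log z.im), Eventually.of_forall fun n => ?_⟩
  have hl : ContinuousOn (fun z : ℂ => Real.log z.im) K :=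
    Complex.continuous_im.continuousOn.log fun z hz => ne_of_gt (hKH hz)
  refine setIntegral_mono_on ((((ef_smooth (r n)).continuousOn.mono hKH).pow 2).integrableOn_compact
    hK) (hl.rexp.integrableOn_compact hK) hK.measurableSet fun z hz => ?_
  unfold ef
  rw [mul_pow, ← Real.exp_nat_mul]
  have h1 : Real.cos (r n * Real.log z.im) ^ 2 ≤ 1 := Real.cos_sq_le_one _
  have h2 : ((2 : ℕ) : ℝ) * (Real.log z.im / 2) = Real.log z.im := by push_cast; ring
  rw [h2]
  exact mul_le_of_le_one_right (Real.exp_pos _).le h1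

/-- the integral of the test function against the product -/
lemma tf_int {n : ℕ} (a : Fin n → ℕ) {p : ℝ → ℝ} (hp : Continuous p) (t : ℝ) (s : Fin n → ℝ) :
    ∫ z, tf (1 - (1 + ∑ i, (a i : ℝ)) / 2) p z *
      (ef t z * ∏ i, ef (s i) z ^ a i) / z.im ^ 2 =
      Lk (fun u => p u * (Real.cos (t * u) * ∏ i, Real.cos (s i * u) ^ a i)) := by
  rw [← int_id (by fun_prop)]
  refine integral_congr_ae (ae_of_all _ fun z => ?_)
  simp only
  unfold tf
  split_ifs with h
  · have e1 : ∏ i, ef (s i) z ^ a i = Real.exp ((∑ i, (a i : ℝ)) / 2 * Real.log z.im) *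
        ∏ i, Real.cos (s i * Real.log z.im) ^ a i := by
      unfold ef
      simp only [mul_pow]
      rw [Finset.prod_mul_distrib]
      congr 1
      simp only [← Real.exp_nat_mul]
      rw [← Real.exp_sum]
      congr 1
      rw [Finset.sum_div, Finset.sum_mul]
      refine Finset.sum_congr rfl fun i _ => ?_
      ring
    rw [e1]
    have e2 : ef t z = Real.exp (1 / 2 * Real.log z.im) * Real.cos (t * Real.log z.im) := by
      unfold ef
      congr 2
      ring
    rw [e2]
    have e3 : Real.exp ((1 - (1 + ∑ i, (a i : ℝ)) / 2) * Real.log z.im) *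
        Real.exp (1 / 2 * Real.log z.im) * Real.exp ((∑ i, (a i : ℝ)) / 2 * Real.log z.im) =
        z.im := by
      rw [← Real.exp_add, ← Real.exp_add]
      rw [show (1 - (1 + ∑ i, (a i : ℝ)) / 2) * Real.log z.im + 1 / 2 * Real.log z.im +
        (∑ i, (a i : ℝ)) / 2 * Real.log z.im = Real.log z.im by ring, Real.exp_log h]
    generalize Real.exp ((1 - (1 + ∑ i, (a i : ℝ)) / 2) * Real.log z.im) = x1 at e3 ⊢
    generalize Real.exp (1 / 2 * Real.log z.im) = x2 at e3 ⊢
    generalize Real.exp ((∑ i, (a i : ℝ)) / 2 * Real.log z.im) = x3 at e3 ⊢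
    rw [div_eq_div_iff (by positivity) h.ne', ← e3]
    ring
  · simp

end

end Pool.Agent.H22.NS
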