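import Pool.Agent.H22.NS.Sph

/-! # Energy estimates for the spherical function (MP_a28cf0_nt) -/

set_option autoImplicit false
open MeasureTheory Filter Topology Metric Set
open scoped ContDiff ENNReal

namespace Pool.Agent.H22.NS

noncomputable section

/-- `√(sinh ρ) φ_s(ρ)` -/
def yy (s ρ : ℝ) : ℝ := √(Real.sinh ρ) * sf s ρ

lemma yy_ode (s : ℝ) : ∃ y1 : ℝ → ℝ, ∀ ρ : ℝ, 0 < ρ → ρ < 4 →
    HasDerivAt (yy s) (y1 ρ) ρ ∧
      HasDerivAt y1 (-((s ^ 2 + 1 / (4 * Real.sinh ρ ^ 2)) * yy s ρ)) ρ := by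
  obtain ⟨f1, f2, h⟩ := sf_ode s
  refine ⟨fun ρ => √(Real.sinh ρ) * (f1 ρ + Real.cosh ρ / (2 * Real.sinh ρ) * sf s ρ),
    fun ρ h0 h4 => ?_⟩
  obtain ⟨d1, d2, e⟩ := h ρ h0 h4
  have S0 : 0 < Real.sinh ρ := Real.sinh_pos_iff.2 h0
  have g0 : 0 < √(Real.sinh ρ) := Real.sqrt_pos.2 S0
  have g2 : √(Real.sinh ρ) ^ 2 = Real.sinh ρ := Real.sq_sqrt S0.le
  have dg : HasDerivAt (fun ρ => √(Real.sinh ρ))
      (√(Real.sinh ρ) * (Real.cosh ρ / (2 * Real.sinh ρ))) ρ := by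
    refine ((Real.hasDerivAt_sinh ρ).sqrt S0.ne').congr_deriv ?_
    rw [← g2, Real.sqrt_sq g0.le]
    field_simp
  have cs := Real.cosh_sq ρ
  refine ⟨?_, ?_⟩
  · unfold yy
    refine (dg.mul d1).congr_deriv ?_
    ring
  · have dc : HasDerivAt (fun ρ => Real.cosh ρ / (2 * Real.sinh ρ))
        (-(1 / (2 * Real.sinh ρ ^ 2))) ρ := by
      refine ((Real.hasDerivAt_cosh ρ).fun_div ((Real.hasDerivAt_sinh ρ).const_mul 2)
        (by positivity)).congr_deriv ?_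
      field_simp
      linear_combination -cs
    refine (dg.mul (d2.add (dc.mul d1))).congr_deriv ?_
    have e' : f2 ρ = -(Real.cosh ρ / Real.sinh ρ * f1 ρ) - (1 / 4 + s ^ 2) * sf s ρ := by
      linarith
    simp only [Pi.add_apply, Pi.mul_apply]
    rw [e']
    unfold yy
    field_simp
    linear_combination (4 * sf s ρ) * cs

/-- the basic facts about the energy `y'² + s² y²` -/
lemma energy {s : ℝ} (hs : 1 ≤ s) {y1 : ℝ → ℝ} (h : ∀ ρ : ℝ, 0 < ρ → ρ < 4 →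
    HasDerivAt (yy s) (y1 ρ) ρ ∧
      HasDerivAt y1 (-((s ^ 2 + 1 / (4 * Real.sinh ρ ^ 2)) * yy s ρ)) ρ) :
    1 / 25 ≤ y1 1 ^ 2 + s ^ 2 * yy s 1 ^ 2 ∧ ∀ ρ ∈ Icc (1 : ℝ) 2,
      y1 ρ ^ 2 + s ^ 2 * yy s ρ ^ 2 ≤ 3 * (y1 1 ^ 2 + s ^ 2 * yy s 1 ^ 2) := by
  have s0 : 0 < s := by linarith
  have dE : ∀ ρ : ℝ, 0 < ρ → ρ < 4 → HasDerivAt (fun ρ => y1 ρ ^ 2 + s ^ 2 * yy s ρ ^ 2)
      (-(yy s ρ * y1 ρ / (2 * Real.sinh ρ ^ 2))) ρ := by
    intro ρ h0 h4
    obtain ⟨d1, d2⟩ := h ρ h0 h4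
    have S0 : 0 < Real.sinh ρ := Real.sinh_pos_iff.2 h0
    refine ((d2.fun_pow 2).add ((d1.fun_pow 2).const_mul (s ^ 2))).congr_deriv ?_
    push_cast
    field_simp
    ring
  have dc : ∀ ρ : ℝ, 0 < ρ → HasDerivAt (fun ρ => Real.cosh ρ / Real.sinh ρ / (4 * s))
      (-(1 / (4 * s * Real.sinh ρ ^ 2))) ρ := by
    intro ρ h0
    have S0 : 0 < Real.sinh ρ := Real.sinh_pos_iff.2 h0
    have cs := Real.cosh_sq ρ
    refine (((Real.hasDerivAt_cosh ρ).fun_div (Real.hasDerivAt_sinh ρ)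
        S0.ne').div_const (4 * s)).congr_deriv ?_
    field_simp
    linear_combination -cs
  -- the energy times `exp (- coth / (4 s))` increases
  have mono : MonotoneOn (fun ρ => (y1 ρ ^ 2 + s ^ 2 * yy s ρ ^ 2) *
      Real.exp (-(Real.cosh ρ / Real.sinh ρ / (4 * s)))) (Ioo 0 4) := by
    have dd' : ∀ ρ ∈ Ioo (0 : ℝ) 4, HasDerivAt (fun ρ => (y1 ρ ^ 2 + s ^ 2 * yy s ρ ^ 2) *
      Real.exp (-(Real.cosh ρ / Real.sinh ρ / (4 * s))))
        (Real.exp (-(Real.cosh ρ / Real.sinh ρ / (4 * s))) / (4 * s * Real.sinh ρ ^ 2) *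
          (y1 ρ - s * yy s ρ) ^ 2) ρ := by
      intro ρ hρ
      have S0 : 0 < Real.sinh ρ := Real.sinh_pos_iff.2 hρ.1
      refine ((dE ρ hρ.1 hρ.2).mul (dc ρ hρ.1).neg.exp).congr_deriv ?_
      simp only [Pi.neg_apply]
      field_simp
      ring
    refine monotoneOn_of_hasDerivWithinAt_nonneg (convex_Ioo 0 4)
      (fun x hx => (dd' x hx).continuousAt.continuousWithinAt)
      (fun x hx => (dd' x (interior_subset hx)).hasDerivWithinAt) fun x hx => ?_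
    positivity
  have anti : AntitoneOn (fun ρ => (y1 ρ ^ 2 + s ^ 2 * yy s ρ ^ 2) *
      Real.exp (Real.cosh ρ / Real.sinh ρ / (4 * s))) (Ioo 0 4) := by
    have dd' : ∀ ρ ∈ Ioo (0 : ℝ) 4, HasDerivAt (fun ρ => (y1 ρ ^ 2 + s ^ 2 * yy s ρ ^ 2) *
      Real.exp (Real.cosh ρ / Real.sinh ρ / (4 * s)))
        (-(Real.exp (Real.cosh ρ / Real.sinh ρ / (4 * s)) / (4 * s * Real.sinh ρ ^ 2) *
          (y1 ρ + s * yy s ρ) ^ 2)) ρ := by
      intro ρ hρ
      have S0 : 0 < Real.sinh ρ := Real.sinh_pos_iff.2 hρ.1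
      refine ((dE ρ hρ.1 hρ.2).mul (dc ρ hρ.1).exp).congr_deriv ?_
      field_simp
      ring
    refine antitoneOn_of_hasDerivWithinAt_nonpos (convex_Ioo 0 4)
      (fun x hx => (dd' x hx).continuousAt.continuousWithinAt)
      (fun x hx => (dd' x (interior_subset hx)).hasDerivWithinAt) fun x hx => ?_
    rw [neg_nonpos]
    positivity
  constructor
  · -- the lower bound
    have i0 : 0 < 1 / s := by positivity
    have i1 : 1 / s ≤ 1 := by rw [div_le_one s0]; exact hs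
    have h1 := mono (show 1 / s ∈ Ioo (0 : ℝ) 4 from ⟨i0, by linarith⟩)
      (show (1 : ℝ) ∈ Ioo (0 : ℝ) 4 from ⟨one_pos, by norm_num⟩) i1
    simp only at h1
    have h2 : Real.exp (-(Real.cosh 1 / Real.sinh 1 / (4 * s))) ≤ 1 := by
      rw [Real.exp_le_one_iff, neg_nonpos]
      have := Real.sinh_pos_iff.2 one_pos
      have := Real.cosh_pos 1
      positivity
    have h3 : Real.cosh (1 / s) / Real.sinh (1 / s) / (4 * s) ≤ 1 / 2 := by
      have S0 : 0 < Real.sinh (1 / s) := Real.sinh_pos_iff.2 i0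
      have h4 := Real.self_le_sinh_iff.2 i0.le
      have h5 : Real.cosh (1 / s) - Real.sinh (1 / s) ≤ 1 := by
        rw [Real.cosh_sub_sinh, Real.exp_le_one_iff]
        linarith
      rw [div_div, div_le_iff₀ (by positivity)]
      have h6 : 1 ≤ s * Real.sinh (1 / s) := by
        have := mul_le_mul_of_nonneg_left h4 s0.le
        rwa [mul_one_div_cancel s0.ne'] at this
      nlinarith
    have h4 : 3 / 5 ≤ Real.exp (-(Real.cosh (1 / s) / Real.sinh (1 / s) / (4 * s))) := by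
      have h5 : Real.exp (-(1 / 2)) ≤
          Real.exp (-(Real.cosh (1 / s) / Real.sinh (1 / s) / (4 * s))) := by
        rw [Real.exp_le_exp]
        linarith
      have h6 : (3 : ℝ) / 5 ≤ Real.exp (-(1 / 2)) := by
        have h7 : Real.exp (-(1 / 2)) ^ 2 = (Real.exp 1)⁻¹ := by
          rw [← Real.exp_nat_mul, ← Real.exp_neg]
          norm_num
        have h8 := Real.exp_one_lt_d9
        have h9 : (9 : ℝ) / 25 ≤ (Real.exp 1)⁻¹ := by
          rw [le_inv_comm₀ (by norm_num) (Real.exp_pos 1)]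
          norm_num
          linarith
        nlinarith [Real.exp_pos (-(1 / 2))]
      linarith
    have h5 : 9 / 100 ≤ y1 (1 / s) ^ 2 + s ^ 2 * yy s (1 / s) ^ 2 := by
      have h6 := sf_low s0.le i0 i1 (by rw [mul_one_div_cancel s0.ne'])
      have S0 : 0 < Real.sinh (1 / s) := Real.sinh_pos_iff.2 i0
      have h7 := Real.self_le_sinh_iff.2 i0.le
      unfold yy
      rw [mul_pow, Real.sq_sqrt S0.le]
      have h8 : 1 ≤ s ^ 2 * Real.sinh (1 / s) := by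
        have h9 : s ^ 2 * (1 / s) ≤ s ^ 2 * Real.sinh (1 / s) :=
          mul_le_mul_of_nonneg_left h7 (by positivity)
        have h10 : s ^ 2 * (1 / s) = s := by field_simp
        linarith
      have h9 : (9 : ℝ) / 100 ≤ sf s (1 / s) ^ 2 := by nlinarith
      nlinarith [sq_nonneg (y1 (1 / s))]
    have h6 : 0 ≤ y1 1 ^ 2 + s ^ 2 * yy s 1 ^ 2 := by positivity
    have h7 : (y1 1 ^ 2 + s ^ 2 * yy s 1 ^ 2) * Real.exp (-(Real.cosh 1 / Real.sinh 1 / (4 * s))) ≤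
        y1 1 ^ 2 + s ^ 2 * yy s 1 ^ 2 := mul_le_of_le_one_right h6 h2
    have h8 : 9 / 100 * (3 / 5) ≤ (y1 (1 / s) ^ 2 + s ^ 2 * yy s (1 / s) ^ 2) *
        Real.exp (-(Real.cosh (1 / s) / Real.sinh (1 / s) / (4 * s))) :=
      mul_le_mul h5 h4 (by norm_num) (by positivity)
    linarith
  · intro ρ hρ
    have h1 := anti (show (1 : ℝ) ∈ Ioo (0 : ℝ) 4 from ⟨one_pos, by norm_num⟩)
      (show ρ ∈ Ioo (0 : ℝ) 4 from ⟨by linarith [hρ.1], by linarith [hρ.2]⟩) hρ.1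
    simp only at h1
    have S0 : 0 < Real.sinh ρ := Real.sinh_pos_iff.2 (by linarith [hρ.1])
    have C0 := Real.cosh_pos ρ
    have h2 : 1 ≤ Real.exp (Real.cosh ρ / Real.sinh ρ / (4 * s)) := by
      rw [Real.one_le_exp_iff]
      positivity
    have h3 : Real.exp (Real.cosh 1 / Real.sinh 1 / (4 * s)) ≤ 3 := by
      have S1 : 1 ≤ Real.sinh 1 := Real.self_le_sinh_iff.2 zero_le_one
      have h4 : Real.cosh 1 / Real.sinh 1 / (4 * s) ≤ 1 := by
        rw [div_div, div_le_iff₀ (by positivity)]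
        have h5 : Real.cosh 1 - Real.sinh 1 ≤ 1 := by
          rw [Real.cosh_sub_sinh, Real.exp_le_one_iff]
          linarith
        nlinarith
      calc _ ≤ Real.exp 1 := Real.exp_le_exp.2 h4
        _ ≤ 3 := by have := Real.exp_one_lt_d9; linarith
    have h4 : 0 ≤ y1 1 ^ 2 + s ^ 2 * yy s 1 ^ 2 := by positivity
    have h5 : 0 ≤ y1 ρ ^ 2 + s ^ 2 * yy s ρ ^ 2 := by positivity
    calc y1 ρ ^ 2 + s ^ 2 * yy s ρ ^ 2 ≤ (y1 ρ ^ 2 + s ^ 2 * yy s ρ ^ 2) *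
        Real.exp (Real.cosh ρ / Real.sinh ρ / (4 * s)) := le_mul_of_one_le_right h5 h2
      _ ≤ _ := h1
      _ ≤ (y1 1 ^ 2 + s ^ 2 * yy s 1 ^ 2) * 3 := mul_le_mul_of_nonneg_left h3 h4
      _ = _ := by ring

end

end Pool.Agent.H22.NS
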