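import Pool.Agent.H22.NS.Conv

/-! # The sharp threshold (MP_a28cf0_nt) -/

set_option autoImplicit false
open MeasureTheory Filter Topology Metric Set
open scoped ContDiff ENNReal

namespace Pool.Agent.H22.NS

open Pool.Agent.X127.HY (HH HH_open ef ef_smooth ef_lp)

noncomputable section

theorem converse (n : ℕ) (a : Fin n → ℕ) {t : ℕ → ℝ} {s : Fin n → ℕ → ℝ}
    (ht : Tendsto t atTop atTop) (hge : ∀ k, ∑ i, (a i : ℝ) * s i k ≤ t k)
    (h : ∀ ψ : ℂ → ℝ, ContDiff ℝ ∞ ψ → HasCompactSupport ψ → tsupport ψ ⊆ HH →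
      Tendsto (fun k => t k ^ 2 * ∫ z, ψ z * (ef (t k) z * ∏ i, ef (s i k) z ^ a i) / z.im ^ 2)
        atTop (𝓝 0)) :
    ∃ δ : ℝ, 0 < δ ∧ ∀ᶠ k in atTop, t k ^ δ ≤ t k - ∑ i, (a i : ℝ) * s i k := by
  by_contra hno
  have hno' : ∀ δ : ℝ, 0 < δ → ∃ᶠ k in atTop, ¬ (t k ^ δ ≤ t k - ∑ i, (a i : ℝ) * s i k) := by
    intro δ hδ
    rw [← not_eventually]
    exact fun h1 => hno ⟨δ, hδ, h1⟩
  have hsel : ∀ j : ℕ, ∃ k : ℕ, j ≤ k ∧ (4 : ℝ) ^ j ≤ t k ∧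
      t k - ∑ i, (a i : ℝ) * s i k < t k ^ ((1 : ℝ) / (j + 1)) := by
    intro j
    have h1 := (hno' (1 / (j + 1)) (by positivity)).and_eventually
      ((eventually_ge_atTop j).and (ht.eventually_ge_atTop ((4 : ℝ) ^ j)))
    obtain ⟨k, h2, h3, h4⟩ := h1.exists
    exact ⟨k, h3, h4, not_le.1 h2⟩
  choose κ hκ1 hκ2 hκ3 using hsel
  obtain ⟨E, hE⟩ : ∃ E : ℕ → ℝ, E = fun j => t (κ j) - ∑ i, (a i : ℝ) * s i (κ j) := ⟨_, rfl⟩
  have hE0 : ∀ j, 0 ≤ E j := fun j => by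
    rw [hE]
    have := hge (κ j)
    show 0 ≤ t (κ j) - ∑ i, (a i : ℝ) * s i (κ j)
    linarith
  have ht1 : ∀ j, 1 ≤ t (κ j) := fun j => (one_le_pow₀ (by norm_num)).trans (hκ2 j)
  have hEt : ∀ j, E j ^ (j + 1) ≤ t (κ j) := by
    intro j
    have h1 : E j ≤ t (κ j) ^ ((1 : ℝ) / (j + 1)) := by
      rw [hE]
      exact (hκ3 j).le
    have t0 : 0 ≤ t (κ j) := by linarith [ht1 j]
    calc E j ^ (j + 1) ≤ (t (κ j) ^ ((1 : ℝ) / (j + 1))) ^ (j + 1) :=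
          pow_le_pow_left₀ (hE0 j) h1 _
      _ = t (κ j) := by
          rw [← Real.rpow_natCast, ← Real.rpow_mul t0]
          have : (1 : ℝ) / (j + 1) * ((j + 1 : ℕ) : ℝ) = 1 := by
            push_cast
            field_simp
          rw [this, Real.rpow_one]
  obtain ⟨M, hM⟩ : ∃ M : ℕ → ℝ, M = fun j => max 1 (E j) := ⟨_, rfl⟩
  have hM1 : ∀ j, 1 ≤ M j := fun j => by rw [hM]; exact le_max_left _ _
  have hME : ∀ j, E j ≤ M j := fun j => by rw [hM]; exact le_max_right _ _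
  have hMt : ∀ j, M j ^ (j + 1) ≤ t (κ j) := by
    intro j
    rw [hM]
    rcases le_total (E j) 1 with h1 | h1
    · show (max 1 (E j)) ^ (j + 1) ≤ t (κ j)
      rw [max_eq_left h1, one_pow]
      exact ht1 j
    · show (max 1 (E j)) ^ (j + 1) ≤ t (κ j)
      rw [max_eq_right h1]
      exact hEt j
  obtain ⟨c, hc⟩ : ∃ c : ℕ → ℝ, c = fun j => (1 / 2 : ℝ) ^ j / M j ^ (j + 1) := ⟨_, rfl⟩
  have hc0 : ∀ j, 0 ≤ c j := fun j => by
    have := hM1 j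
    rw [hc]
    positivity
  have hsum : ∀ N : ℕ, Summable fun j => |c j| * |E j| ^ N := by
    intro N
    refine Summable.of_norm_bounded_eventually_nat (g := fun j => (1 / 2 : ℝ) ^ j)
      (summable_geometric_of_lt_one (by norm_num) (by norm_num)) ?_
    filter_upwards [eventually_ge_atTop N] with j hj
    have m0 : 0 < M j := by linarith [hM1 j]
    rw [abs_of_nonneg (hc0 j), abs_of_nonneg (hE0 j), Real.norm_eq_abs, abs_of_nonneg
      (mul_nonneg (hc0 j) (pow_nonneg (hE0 j) N))]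
    have h1 : E j ^ N ≤ M j ^ (j + 1) :=
      (pow_le_pow_left₀ (hE0 j) (hME j) N).trans (pow_le_pow_right₀ (hM1 j) (by omega))
    have h2 : c j = (1 / 2 : ℝ) ^ j / M j ^ (j + 1) := by rw [hc]
    rw [h2, div_mul_eq_mul_div, div_le_iff₀ (by positivity)]
    exact mul_le_mul_of_nonneg_left h1 (by positivity)
  have hsum0 : Summable c := by
    have := hsum 0
    simp only [pow_zero, mul_one] at this
    exact this.congr fun j => abs_of_nonneg (hc0 j)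
  have hsm := sp_smooth hsum
  have hpos := Lk_sp_nonneg (E := E) hc0 hsum0
  obtain ⟨r, hr⟩ : ∃ r : ℝ, r = 1 - (1 + ∑ i, (a i : ℝ)) / 2 := ⟨_, rfl⟩
  have hT := h (tf r (sp c E)) (tf_smooth r hsm) (tf_supp r _) (tf_tsupp r _)
  obtain ⟨L, hL⟩ : ∃ L, L = Fintype.card (Σ i : Fin n, Fin (a i)) := ⟨_, rfl⟩
  obtain ⟨b, hb⟩ : ∃ b : ℝ, b = (1 / 2) ^ L * (1 / 2 * Lk (fun u => Real.cos (0 * u))) := ⟨_, rfl⟩
  have hb0 : 0 < b := by
    rw [hb]
    have := Lk_one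
    positivity
  have hev := hT.eventually (gt_mem_nhds hb0)
  obtain ⟨N0, hN0⟩ := eventually_atTop.1 hev
  have h1 := hN0 (κ N0) (hκ1 N0)
  rw [hr, tf_int a hsm.continuous (t (κ N0)) (fun i => s i (κ N0))] at h1
  -- the lower bound
  have h2 := prod_cos hsm.continuous hpos (Fintype.card (Σ i : Fin n, Fin (a i)))
    (fun j => s ((Fintype.equivFin (Σ i : Fin n, Fin (a i))).symm j).1 (κ N0)) (t (κ N0))
  rw [re_sum a (fun i => s i (κ N0))] at h2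
  have e1 : ∀ u : ℝ, ∏ j : Fin (Fintype.card (Σ i : Fin n, Fin (a i))),
      Real.cos (s ((Fintype.equivFin (Σ i : Fin n, Fin (a i))).symm j).1 (κ N0) * u) =
        ∏ i, Real.cos (s i (κ N0) * u) ^ a i := fun u =>
    re_prod a (fun i => Real.cos (s i (κ N0) * u))
  simp only [e1] at h2
  rw [← hL] at h2
  have e2 : t (κ N0) - ∑ i, (a i : ℝ) * s i (κ N0) = E N0 := by rw [hE]
  rw [e2] at h2
  have h3 := Lk_sp_ge (E := E) hc0 hsum0 N0
  have h4 : (1 / 2 : ℝ) ^ N0 ≤ t (κ N0) * c N0 := by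
    have h2 : c N0 = (1 / 2 : ℝ) ^ N0 / M N0 ^ (N0 + 1) := by rw [hc]
    have m0 : 0 < M N0 := by linarith [hM1 N0]
    rw [h2, mul_div_assoc', le_div_iff₀ (by positivity), mul_comm]
    exact mul_le_mul_of_nonneg_right (hMt N0) (by positivity)
  have h5 : 1 ≤ t (κ N0) ^ 2 * c N0 := by
    have h6 : (1 : ℝ) ≤ 4 ^ N0 * (1 / 2) ^ N0 := by
      rw [← mul_pow]
      exact one_le_pow₀ (by norm_num)
    have h7 : (4 : ℝ) ^ N0 * (1 / 2) ^ N0 ≤ t (κ N0) * (t (κ N0) * c N0) :=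
      mul_le_mul (hκ2 N0) h4 (by positivity) (by linarith [ht1 N0])
    calc (1 : ℝ) ≤ t (κ N0) * (t (κ N0) * c N0) := h6.trans h7
      _ = t (κ N0) ^ 2 * c N0 := by ring
  have h8 : b ≤ t (κ N0) ^ 2 * Lk (fun u => sp c E u *
      (Real.cos (t (κ N0) * u) * ∏ i, Real.cos (s i (κ N0) * u) ^ a i)) := by
    calc b ≤ (t (κ N0) ^ 2 * c N0) * b := le_mul_of_one_le_left hb0.le h5
      _ = t (κ N0) ^ 2 * ((1 / 2) ^ L * (c N0 * (1 / 2 * Lk (fun u => Real.cos (0 * u))))) := by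
          rw [hb]; ring
      _ ≤ t (κ N0) ^ 2 * ((1 / 2) ^ L * Lk (fun u => sp c E u * Real.cos (E N0 * u))) := by
          gcongr
      _ ≤ _ := mul_le_mul_of_nonneg_left h2 (by positivity)
  exact absurd h1 (not_lt.2 h8)

/-- **the sharp threshold** -/
theorem sharp (n : ℕ) (a : Fin n → ℕ) {t : ℕ → ℝ} {s : Fin n → ℕ → ℝ}
    (ht : Tendsto t atTop atTop) (hs0 : ∀ i k, 0 ≤ s i k)
    (hge : ∀ k, ∑ i, (a i : ℝ) * s i k ≤ t k) :
    (∃ δ : ℝ, 0 < δ ∧ ∀ᶠ k in atTop, t k ^ δ ≤ t k - ∑ i, (a i : ℝ) * s i k) ↔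
      ∀ (f : ℕ → ℂ → ℝ) (g : Fin n → ℕ → ℂ → ℝ), (∀ k, Eg (t k) (f k)) →
        (∀ i k, Eg (s i k) (g i k)) → LL f → (∀ i, LL (g i)) →
        ∀ ψ : ℂ → ℝ, ContDiff ℝ ∞ ψ → HasCompactSupport ψ → tsupport ψ ⊆ HH → ∀ A : ℕ,
          Tendsto (fun k => t k ^ A * ∫ z, ψ z * (f k z * ∏ i, g i k z ^ a i) / z.im ^ 2)
            atTop (𝓝 0) := by
  constructor
  · rintro ⟨δ, hδ, hgap⟩ f g hf hg hfb hgb ψ h1 h2 h3 A
    exact decay n a ht hs0 hf hg hfb hgb hδ hgap h1 h2 h3 A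
  · intro h
    exact converse n a ht hge fun ψ h1 h2 h3 =>
      h (fun k => ef (t k)) (fun i k => ef (s i k)) (fun k => Eg_ef _) (fun i k => Eg_ef _)
        (LL_ef t) (fun i => LL_ef (s i)) ψ h1 h2 h3 2

end

end Pool.Agent.H22.NS
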