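import Pool.Graph.R_pool_sql_team_seeded_64922ed1.X127.HY.Ker

/-! # Geodesic polar coordinates on the upper half plane (MP_a28cf0_nt) -/

set_option autoImplicit false
open MeasureTheory Filter Topology Metric
open scoped ContDiff ENNReal

namespace Pool.Agent.H22.NS

open Pool.Agent.TH298.Sch (X er et norm_X X_cont X_dr X_dt)
open Pool.Agent.X127.HY (HH D pt cay cay1 pt_im cay_im cay_im_pos den_ne den_sq cay_d cay1_norm
  pt_zero pt_cont pt_smooth)

noncomputable section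

/-- the hyperbolic cosine of the hyperbolic distance -/
def ch (z v : ℂ) : ℝ := 1 + ‖z - v‖ ^ 2 / (2 * z.im * v.im)

/-- the hyperbolic distance -/
def dd (z v : ℂ) : ℝ := Real.arcosh (ch z v)

/-- the point at the distance `ρ` from `w` in the direction `θ` -/
def gp (w : ℂ) (ρ θ : ℝ) : ℂ := pt w (X (Real.tanh (ρ / 2)) θ)

lemma ch_comm (z v : ℂ) : ch z v = ch v z := by
  unfold ch
  rw [norm_sub_rev, mul_right_comm]

lemma dd_comm (z v : ℂ) : dd z v = dd v z := by unfold dd; rw [ch_comm]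

lemma ch_ge {z v : ℂ} (hz : z ∈ HH) (hv : v ∈ HH) : 1 ≤ ch z v := by
  have h1 : 0 < z.im := hz
  have h2 : 0 < v.im := hv
  unfold ch
  have : 0 ≤ ‖z - v‖ ^ 2 / (2 * z.im * v.im) := by positivity
  linarith

lemma cay_sub {u b : ℂ} (hu : u ∈ D) (hb : b ∈ D) : cay u - cay b =
    2 * (u - b) / ((1 + Complex.I * u) * (1 + Complex.I * b)) := by
  have h1 := den_ne hu
  have h2 := den_ne hb
  unfold cay
  rw [div_sub_div _ _ h1 h2]
  congr 1
  linear_combination (b - u) * Complex.I_mul_I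

lemma ch_pt {w u b : ℂ} (hw : w ∈ HH) (hu : u ∈ D) (hb : b ∈ D) :
    ch (pt w u) (pt w b) = 1 + 2 * ‖u - b‖ ^ 2 / ((1 - ‖u‖ ^ 2) * (1 - ‖b‖ ^ 2)) := by
  have hw' : 0 < w.im := hw
  have h1 := den_ne hu
  have h2 := den_ne hb
  have n1 : 0 < ‖1 + Complex.I * u‖ := norm_pos_iff.2 h1
  have n2 : 0 < ‖1 + Complex.I * b‖ := norm_pos_iff.2 h2
  have u1 : ‖u‖ < 1 := hu
  have b1 : ‖b‖ < 1 := hb
  have p1 : 0 < 1 - ‖u‖ ^ 2 := by nlinarith [norm_nonneg u]
  have p2 : 0 < 1 - ‖b‖ ^ 2 := by nlinarith [norm_nonneg b]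
  have e : pt w u - pt w b = w.im * (cay u - cay b) := by unfold pt; ring
  unfold ch
  rw [e, cay_sub hu hb, pt_im, pt_im, cay_im, cay_im, norm_mul, norm_div, norm_mul, norm_mul,
    Complex.norm_real, Real.norm_eq_abs, abs_of_pos hw', Complex.norm_ofNat]
  generalize ‖1 + Complex.I * u‖ = n at n1 ⊢
  generalize ‖1 + Complex.I * b‖ = k at n2 ⊢
  generalize ‖u - b‖ = l
  field_simp

lemma pt_surj {w v : ℂ} (hw : w ∈ HH) (hv : v ∈ HH) : ∃ b ∈ D, pt w b = v := by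
  have hw' : 0 < w.im := hw
  have hv' : 0 < v.im := hv
  obtain ⟨ζ, hζ⟩ : ∃ ζ : ℂ, ζ = (v - w.re) / w.im := ⟨_, rfl⟩
  have hw0 : (w.im : ℂ) ≠ 0 := by exact_mod_cast hw'.ne'
  have hζi : 0 < ζ.im := by
    rw [hζ, Complex.div_ofReal_im]
    simp
    positivity
  have h1 : (1 : ℂ) - Complex.I * ζ ≠ 0 := by
    intro h
    have := congrArg Complex.re h
    simp at this
    linarith
  have h2 : ζ + Complex.I ≠ 0 := by
    intro h
    have := congrArg Complex.im h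
    simp at this
    linarith
  refine ⟨(ζ - Complex.I) / (1 - Complex.I * ζ), ?_, ?_⟩
  · show ‖(ζ - Complex.I) / (1 - Complex.I * ζ)‖ < 1
    rw [norm_div, div_lt_one (norm_pos_iff.2 h1), ← sq_lt_sq₀ (norm_nonneg _) (norm_nonneg _),
      Complex.sq_norm, Complex.sq_norm, Complex.normSq_apply, Complex.normSq_apply]
    simp
    nlinarith
  · have h5 : cay ((ζ - Complex.I) / (1 - Complex.I * ζ)) = ζ := by
      unfold cay
      have e1 : (ζ - Complex.I) / (1 - Complex.I * ζ) + Complex.I =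
          2 * ζ / (1 - Complex.I * ζ) := by
        rw [div_add' _ _ _ h1]
        congr 1
        linear_combination (-ζ) * Complex.I_mul_I
      have e2 : 1 + Complex.I * ((ζ - Complex.I) / (1 - Complex.I * ζ)) =
          2 / (1 - Complex.I * ζ) := by
        rw [mul_div_assoc', add_div' _ _ _ h1]
        congr 1
        linear_combination (-1 : ℂ) * Complex.I_mul_I
      rw [e1, e2, div_div_div_cancel_right₀ h1, mul_div_cancel_left₀ _ two_ne_zero]
    unfold pt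
    rw [h5, hζ]
    field_simp
    ring

lemma tanh_lt (ρ : ℝ) : |Real.tanh (ρ / 2)| < 1 := Real.abs_tanh_lt_one _

lemma X_mem (ρ θ : ℝ) : X (Real.tanh (ρ / 2)) θ ∈ D := by
  show ‖X (Real.tanh (ρ / 2)) θ‖ < 1
  rw [norm_X]
  exact tanh_lt ρ

lemma gp_mem {w : ℂ} (hw : w ∈ HH) (ρ θ : ℝ) : gp w ρ θ ∈ HH := by
  show 0 < (pt w _).im
  rw [pt_im]
  exact mul_pos hw (cay_im_pos (X_mem ρ θ))

lemma half_cosh (ρ : ℝ) : (1 + Real.tanh (ρ / 2) ^ 2) / (1 - Real.tanh (ρ / 2) ^ 2) =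
    Real.cosh ρ := by
  have h := Real.cosh_pos (ρ / 2)
  have h1 := Real.cosh_sq_sub_sinh_sq (ρ / 2)
  have h2 := Real.cosh_two_mul (ρ / 2)
  rw [mul_div_cancel₀ _ (two_ne_zero)] at h2
  rw [h2, Real.tanh_eq_sinh_div_cosh]
  have h3 : (1 : ℝ) - (Real.sinh (ρ / 2) / Real.cosh (ρ / 2)) ^ 2 = 1 / Real.cosh (ρ / 2) ^ 2 := by
    field_simp
    linarith
  rw [h3]
  field_simp

lemma half_sinh (ρ : ℝ) : 2 * Real.tanh (ρ / 2) / (1 - Real.tanh (ρ / 2) ^ 2) =
    Real.sinh ρ := by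
  have h := Real.cosh_pos (ρ / 2)
  have h1 := Real.cosh_sq_sub_sinh_sq (ρ / 2)
  have h2 := Real.sinh_two_mul (ρ / 2)
  rw [mul_div_cancel₀ _ (two_ne_zero)] at h2
  rw [h2, Real.tanh_eq_sinh_div_cosh]
  have h3 : (1 : ℝ) - (Real.sinh (ρ / 2) / Real.cosh (ρ / 2)) ^ 2 = 1 / Real.cosh (ρ / 2) ^ 2 := by
    field_simp
    linarith
  rw [h3]
  field_simp

lemma ch_gp_self {w : ℂ} (hw : w ∈ HH) (ρ θ : ℝ) : ch (gp w ρ θ) w = Real.cosh ρ := by
  have h := ch_pt hw (X_mem ρ θ) (b := 0) (by show ‖(0 : ℂ)‖ < 1; simp)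
  rw [pt_zero] at h
  unfold gp
  rw [h, ← half_cosh]
  simp only [sub_zero, norm_X, norm_zero, sq_abs]
  have := tanh_lt ρ
  have h2 : 0 < 1 - Real.tanh (ρ / 2) ^ 2 := by
    rw [← sq_abs]
    nlinarith [abs_nonneg (Real.tanh (ρ / 2))]
  field_simp
  ring

/-- **the distance of the points of a geodesic to a fixed point** -/
theorem dist_formula {w v : ℂ} (hw : w ∈ HH) (hv : v ∈ HH) (θ : ℝ) : ∃ A B : ℝ, 0 < A ∧
    1 ≤ A ^ 2 - B ^ 2 ∧ ∀ ρ : ℝ, ch (gp w ρ θ) v = A * Real.cosh ρ + B * Real.sinh ρ := by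
  obtain ⟨b, hb, rfl⟩ := pt_surj hw hv
  have b1 : ‖b‖ < 1 := hb
  have p2 : 0 < 1 - ‖b‖ ^ 2 := by nlinarith [norm_nonneg b]
  refine ⟨(1 + ‖b‖ ^ 2) / (1 - ‖b‖ ^ 2), -(2 * (b.re * Real.cos θ + b.im * Real.sin θ)) /
    (1 - ‖b‖ ^ 2), by positivity, ?_, fun ρ => ?_⟩
  · have h1 : (b.re * Real.cos θ + b.im * Real.sin θ) ^ 2 ≤ ‖b‖ ^ 2 := by
      rw [Complex.sq_norm, Complex.normSq_apply]
      nlinarith [Real.sin_sq_add_cos_sq θ, sq_nonneg (b.re * Real.sin θ - b.im * Real.cos θ)]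
    rw [div_pow, div_pow, ← sub_div, le_div_iff₀ (by positivity)]
    nlinarith
  · have h := ch_pt hw (X_mem ρ θ) hb
    unfold gp
    rw [h, ← half_cosh, ← half_sinh]
    obtain ⟨r, hr⟩ : ∃ r, r = Real.tanh (ρ / 2) := ⟨_, rfl⟩
    have hr1 : |r| < 1 := by rw [hr]; exact tanh_lt ρ
    have h2 : 0 < 1 - r ^ 2 := by
      rw [← sq_abs]
      nlinarith [abs_nonneg r]
    rw [← hr, norm_X, sq_abs]
    have h3 : ‖X r θ - b‖ ^ 2 = r ^ 2 + ‖b‖ ^ 2 -
        2 * r * (b.re * Real.cos θ + b.im * Real.sin θ) := by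
      have e1 : (X r θ).re = r * Real.cos θ := by
        unfold X
        rw [Complex.re_ofReal_mul]
        simp [-Complex.ofReal_sin, -Complex.ofReal_cos]
      have e2 : (X r θ).im = r * Real.sin θ := by
        unfold X
        rw [Complex.im_ofReal_mul]
        simp [-Complex.ofReal_sin, -Complex.ofReal_cos]
      rw [Complex.sq_norm, Complex.sq_norm, Complex.normSq_apply, Complex.normSq_apply,
        Complex.sub_re, Complex.sub_im, e1, e2]
      nlinarith [Real.sin_sq_add_cos_sq θ]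
    rw [h3]
    field_simp
    ring

end

end Pool.Agent.H22.NS
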