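import Pool.Agent.H22.NS.Ene

/-! # The reproducing kernels (MP_a28cf0_nt) -/

set_option autoImplicit false
open MeasureTheory Filter Topology Metric Set
open scoped ContDiff ENNReal

namespace Pool.Agent.H22.NS

noncomputable section

/-- the bump between `1` and `2` -/
def b1 : ContDiffBump (3 / 2 : ℝ) := ⟨1 / 4, 1 / 2, by norm_num, by norm_num⟩

/-- the bump between `1 / 4` and `1 / 2` -/
def b0 : ContDiffBump (3 / 8 : ℝ) := ⟨1 / 16, 1 / 8, by norm_num, by norm_num⟩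

lemma b1_zero {q : ℝ} (h : q ≤ 1 ∨ 2 ≤ q) : b1 q = 0 := by
  refine b1.zero_of_le_dist ?_
  show 1 / 2 ≤ dist q (3 / 2)
  rw [Real.dist_eq]
  rcases h with h | h
  · rw [abs_of_nonpos (by linarith)]; linarith
  · rw [abs_of_nonneg (by linarith)]; linarith

lemma b0_zero {q : ℝ} (h : q ≤ 1 / 4 ∨ 1 / 2 ≤ q) : b0 q = 0 := by
  refine b0.zero_of_le_dist ?_
  show 1 / 8 ≤ dist q (3 / 8)
  rw [Real.dist_eq]
  rcases h with h | h
  · rw [abs_of_nonpos (by linarith)]; linarith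
  · rw [abs_of_nonneg (by linarith)]; linarith

lemma b1_sm : ContDiff ℝ ∞ (fun q => b1 q) := b1.contDiff

lemma b0_sm : ContDiff ℝ ∞ (fun q => b0 q) := b0.contDiff

/-- the derivative of the bump -/
def b1' (q : ℝ) : ℝ := deriv (fun q => b1 q) q

lemma db1_sm : ContDiff ℝ ∞ b1' := (contDiff_infty_iff_deriv.1 b1_sm).2

lemma db1 (q : ℝ) : HasDerivAt (fun q => b1 q) (b1' q) q :=
  (b1_sm.differentiable (by simp) q).hasDerivAt

lemma db1_zero {q : ℝ} (h : q ≤ 1 ∨ 2 ≤ q) : b1' q = 0 := by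
  have : IsLocalMin (fun q => b1 q) q := by
    refine Filter.Eventually.of_forall fun x => ?_
    simp only
    rw [b1_zero h]
    exact b1.nonneg
  exact this.deriv_eq_zero

/-- division by the square root of `sinh` -/
def ov (f : ℝ → ℝ) (q : ℝ) : ℂ := ((f q / √(Real.sinh q) : ℝ) : ℂ)

lemma ov_sm {f : ℝ → ℝ} (hf : ContDiff ℝ ∞ f) (h0 : ∀ q, q ≤ 1 → f q = 0) :
    ContDiff ℝ ∞ (ov f) := by
  refine Complex.ofRealCLM.contDiff.comp ?_
  rw [contDiff_iff_contDiffAt]
  intro q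
  by_cases h : q < 1
  · have c0 : ContDiffAt ℝ ∞ (fun _ : ℝ => (0 : ℝ)) q := contDiffAt_const
    refine c0.congr_of_eventuallyEq ?_
    filter_upwards [isOpen_Iio.mem_nhds (show q ∈ Iio (1 : ℝ) from h)] with x hx
    show f x / √(Real.sinh x) = 0
    rw [h0 x (le_of_lt hx), zero_div]
  · push Not at h
    have S0 : 0 < Real.sinh q := Real.sinh_pos_iff.2 (by linarith)
    exact hf.contDiffAt.div (Real.contDiff_sinh.contDiffAt.sqrt S0.ne')
      (Real.sqrt_pos.2 S0).ne'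

/-- boundedness of the derivatives of a function with compact support -/
lemma bdd_iter {f : ℝ → ℂ} (hf : ContDiff ℝ ∞ f) {a b : ℝ} (h0 : ∀ q, q ∉ Icc a b → f q = 0)
    (k : ℕ) : ∃ C : ℝ, 0 ≤ C ∧ ∀ q, ‖iteratedDeriv k f q‖ ≤ C := by
  have hc : HasCompactSupport f := HasCompactSupport.intro isCompact_Icc h0
  have h1 : HasCompactSupport (iteratedFDeriv ℝ k f) := hc.iteratedFDeriv k
  have h2 : Continuous (iteratedFDeriv ℝ k f) :=
    hf.continuous_iteratedFDeriv (by exact_mod_cast le_top)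
  obtain ⟨C, hC⟩ := h1.exists_bound_of_continuous h2
  refine ⟨|C|, abs_nonneg _, fun q => ?_⟩
  rw [← norm_iteratedFDeriv_eq_norm_iteratedDeriv]
  exact (hC q).trans (le_abs_self _)

/-- the frequency of the kernel -/
def sg (s : ℝ) : ℝ := if 1 ≤ s then s else 0

/-- the amplitude of the kernel -/
def WW (s q : ℝ) : ℂ := if 1 ≤ s then 2 * Complex.I * s * ov (fun q => b1 q) q - ov b1' q
  else ((b0 q : ℝ) : ℂ)

lemma ov_zero {f : ℝ → ℝ} {q : ℝ} (h : f q = 0) : ov f q = 0 := by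
  unfold ov; rw [h]; simp

lemma WW_sm (s : ℝ) : ContDiff ℝ ∞ (WW s) := by
  unfold WW
  by_cases h : 1 ≤ s
  · simp only [h, if_true]
    exact (contDiff_const.mul (ov_sm b1_sm fun q hq => b1_zero (Or.inl hq))).sub
      (ov_sm db1_sm fun q hq => db1_zero (Or.inl hq))
  · simp only [h, if_false]
    exact Complex.ofRealCLM.contDiff.comp b0_sm

lemma WW_zero (s : ℝ) {q : ℝ} (h : q ≤ 1 / 4 ∨ 2 ≤ q) : WW s q = 0 := by
  unfold WW
  by_cases hs : 1 ≤ s
  · have h1 : q ≤ 1 ∨ 2 ≤ q := h.imp_left fun h => by linarith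
    simp only [hs, if_true]
    rw [ov_zero (b1_zero h1), ov_zero (db1_zero h1)]
    simp
  · simp only [hs, if_false]
    rw [b0_zero (h.imp_right fun h => by linarith)]
    simp

lemma WW_bd : ∃ M : ℕ → ℝ, ∀ (k : ℕ) (s q : ℝ), 0 ≤ s →
    ‖iteratedDeriv k (WW s) q‖ ≤ (1 + s) * M k := by
  have z1 : ∀ q, q ∉ Icc (1 : ℝ) 2 → ov (fun q => b1 q) q = 0 := fun q hq => by
    refine ov_zero (b1_zero ?_)
    rw [mem_Icc, not_and_or, not_le, not_le] at hq
    exact hq.imp le_of_lt le_of_lt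
  have z2 : ∀ q, q ∉ Icc (1 : ℝ) 2 → ov b1' q = 0 := fun q hq => by
    refine ov_zero (db1_zero ?_)
    rw [mem_Icc, not_and_or, not_le, not_le] at hq
    exact hq.imp le_of_lt le_of_lt
  have z3 : ∀ q, q ∉ Icc (1 / 4 : ℝ) (1 / 2) → ((b0 q : ℝ) : ℂ) = 0 := fun q hq => by
    rw [mem_Icc, not_and_or, not_le, not_le] at hq
    rw [b0_zero (hq.imp le_of_lt le_of_lt)]
    simp
  have s1 := ov_sm b1_sm fun q hq => b1_zero (Or.inl hq)
  have s2 := ov_sm db1_sm fun q hq => db1_zero (Or.inl hq)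
  have s3 : ContDiff ℝ ∞ fun q => ((b0 q : ℝ) : ℂ) := Complex.ofRealCLM.contDiff.comp b0_sm
  choose C1 h1 h1' using bdd_iter s1 z1
  choose C2 h2 h2' using bdd_iter s2 z2
  choose C3 h3 h3' using bdd_iter s3 z3
  refine ⟨fun k => 2 * C1 k + C2 k + C3 k, fun k s q hs => ?_⟩
  have p1 := h1 k
  have p2 := h2 k
  have p3 := h3 k
  by_cases h : 1 ≤ s
  · have e : WW s = (2 * Complex.I * s) • (ov fun q => b1 q) - ov b1' := by
      funext x
      unfold WW
      simp only [h, if_true, Pi.sub_apply, Pi.smul_apply, smul_eq_mul]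
    have c1 : ContDiffAt ℝ (k : ℕ) ((2 * Complex.I * s) • (ov fun q => b1 q)) q :=
      (((s1.const_smul (2 * Complex.I * (s : ℂ)))).of_le (by exact_mod_cast le_top)).contDiffAt
    have c2 : ContDiffAt ℝ (k : ℕ) (ov b1') q := (s2.of_le (by exact_mod_cast le_top)).contDiffAt
    rw [e, iteratedDeriv_sub c1 c2, iteratedDeriv_const_smul_field]
    refine (norm_sub_le _ _).trans ?_
    rw [norm_smul]
    have n1 : ‖2 * Complex.I * (s : ℂ)‖ = 2 * s := by
      simp [abs_of_nonneg hs]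
    rw [n1]
    have q1 := mul_le_mul_of_nonneg_left (h1' k q) (show 0 ≤ 2 * s by positivity)
    have q2 := h2' k q
    nlinarith [mul_nonneg hs p2, mul_nonneg hs p3]
  · have e : WW s = fun q => ((b0 q : ℝ) : ℂ) := by
      funext x
      unfold WW
      simp only [h, if_false]
    rw [e]
    have q2 := h3' k q
    nlinarith [mul_nonneg hs p2, mul_nonneg hs p3, mul_nonneg hs p1]

/-- the constant of the reproducing formula -/
def cc (s : ℝ) : ℂ := ∫ ρ in Ioi (0 : ℝ), (Real.sinh ρ : ℂ) *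
  (Complex.exp (-(Complex.I * (sg s * ρ : ℝ))) * WW s ρ * (sf s ρ : ℂ))

lemma low_small {s : ℝ} (h0 : 0 ≤ s) (h1 : ¬ 1 ≤ s) : 3 / 40 * ∫ ρ, b0 ρ ≤ ‖cc s‖ := by
  push Not at h1
  have hn : ¬ (1 ≤ s) := not_le.2 h1
  have e : cc s = ((∫ ρ in Ioi (0 : ℝ), Real.sinh ρ * (b0 ρ * sf s ρ) : ℝ) : ℂ) := by
    unfold cc sg WW
    rw [← integral_complex_ofReal]
    refine integral_congr_ae (ae_of_all _ fun ρ => ?_)
    simp only [hn, if_false]
    push_cast
    simp
  have hcont : ContinuousOn (sf s) (Ioo 0 4) := by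
    obtain ⟨f1, f2, h⟩ := sf_ode s
    exact fun ρ hρ => (h ρ hρ.1 hρ.2).1.continuousAt.continuousWithinAt
  have hc : Continuous fun ρ => Real.sinh ρ * (b0 ρ * sf s ρ) := by
    rw [continuous_iff_continuousAt]
    intro ρ
    by_cases h : ρ ∈ Ioo (0 : ℝ) 4
    · exact Real.continuous_sinh.continuousAt.mul (b0_sm.continuous.continuousAt.mul
        (hcont.continuousAt (isOpen_Ioo.mem_nhds h)))
    · have c0 : ContinuousAt (fun _ : ℝ => (0 : ℝ)) ρ := continuousAt_const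
      refine c0.congr ?_
      have h2 : ρ < 1 / 4 ∨ 1 / 2 < ρ := by
        rw [mem_Ioo, not_and_or, not_lt, not_lt] at h
        rcases h with h | h
        · left; linarith
        · right; linarith
      rcases h2 with h2 | h2
      · filter_upwards [isOpen_Iio.mem_nhds (show ρ ∈ Iio (1 / 4 : ℝ) from h2)] with x hx
        rw [b0_zero (Or.inl (le_of_lt hx))]; ring
      · filter_upwards [isOpen_Ioi.mem_nhds (show ρ ∈ Ioi (1 / 2 : ℝ) from h2)] with x hx
        rw [b0_zero (Or.inr (le_of_lt hx))]; ring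
  have hz : ∀ x, x ∉ Icc (1 / 4 : ℝ) (1 / 2) → Real.sinh x * (b0 x * sf s x) = 0 := by
    intro x hx
    rw [mem_Icc, not_and_or, not_le, not_le] at hx
    rw [b0_zero (hx.imp le_of_lt le_of_lt)]
    ring
  have hi : Integrable fun ρ => Real.sinh ρ * (b0 ρ * sf s ρ) :=
    hc.integrable_of_hasCompactSupport (HasCompactSupport.intro isCompact_Icc hz)
  have e2 : ∫ ρ in Ioi (0 : ℝ), Real.sinh ρ * (b0 ρ * sf s ρ) =
      ∫ ρ, Real.sinh ρ * (b0 ρ * sf s ρ) := by
    refine setIntegral_eq_integral_of_forall_compl_eq_zero fun x hx => ?_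
    refine hz x fun h => hx ?_
    show 0 < x
    linarith [h.1]
  have h3 : 3 / 40 * ∫ ρ, b0 ρ ≤ ∫ ρ, Real.sinh ρ * (b0 ρ * sf s ρ) := by
    rw [← integral_const_mul]
    refine integral_mono (b0.integrable.const_mul _) hi fun ρ => ?_
    simp only
    by_cases h : ρ ∈ Icc (1 / 4 : ℝ) (1 / 2)
    · have h4 : 1 / 4 ≤ Real.sinh ρ := by
        have := Real.self_le_sinh_iff.2 (show 0 ≤ ρ by linarith [h.1])
        linarith [h.1]
      have h5 : 3 / 10 ≤ sf s ρ := sf_low h0 (by linarith [h.1]) (by linarith [h.2])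
        (by nlinarith [h.1, h.2])
      have h6 : 0 ≤ b0 ρ := b0.nonneg
      have h7 : 1 / 4 * (3 / 10) ≤ Real.sinh ρ * sf s ρ :=
        mul_le_mul h4 h5 (by norm_num) (by linarith)
      nlinarith
    · rw [hz ρ h]
      rw [mem_Icc, not_and_or, not_le, not_le] at h
      rw [b0_zero (h.imp le_of_lt le_of_lt)]
      simp
  rw [e, e2, Complex.norm_real, Real.norm_eq_abs]
  exact h3.trans (le_abs_self _)

lemma low_large {s : ℝ} (h1 : 1 ≤ s) : 1 / 10 * ∫ ρ, b1 ρ ≤ ‖cc s‖ := by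
  have s0 : 0 < s := by linarith
  obtain ⟨y1, h⟩ := yy_ode s
  obtain ⟨hE1, hE⟩ := energy h1 h
  obtain ⟨ex, hex⟩ : ∃ ex : ℝ → ℂ, ex = fun ρ => Complex.exp (-(Complex.I * (s * ρ : ℝ))) := ⟨_, rfl⟩
  have dex : ∀ ρ, HasDerivAt ex (-(Complex.I * s) * ex ρ) ρ := by
    intro ρ
    rw [hex]
    have h1 : HasDerivAt (fun ρ : ℝ => ((s * ρ : ℝ) : ℂ)) (s : ℂ) ρ := by
      have := ((hasDerivAt_id ρ).const_mul s).ofReal_comp
      simpa using this
    refine ((h1.const_mul Complex.I).neg.cexp).congr_deriv ?_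
    simp only [Pi.neg_apply]
    ring
  have nex : ∀ ρ, ‖ex ρ‖ = 1 := by
    intro ρ
    rw [hex]
    simp only
    rw [Complex.norm_exp]
    simp
  -- the slowly varying function
  obtain ⟨a, ha⟩ : ∃ a : ℝ → ℂ, a = fun ρ => ex ρ * ((y1 ρ : ℂ) + Complex.I * s * (yy s ρ : ℂ)) :=
    ⟨_, rfl⟩
  have da : ∀ ρ, 0 < ρ → ρ < 4 → HasDerivAt a
      (-(((yy s ρ / (4 * Real.sinh ρ ^ 2) : ℝ) : ℂ) * ex ρ)) ρ := by
    intro ρ r0 r4
    obtain ⟨d1, d2⟩ := h ρ r0 r4
    have S0 : 0 < Real.sinh ρ := Real.sinh_pos_iff.2 r0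
    rw [ha]
    refine ((dex ρ).mul (d2.ofReal_comp.add ((d1.ofReal_comp).const_mul
      (Complex.I * s)))).congr_deriv ?_
    simp only [Pi.add_apply]
    have S0' : (Real.sinh ρ : ℂ) ≠ 0 := by exact_mod_cast S0.ne'
    push_cast
    field_simp
    linear_combination (-(s : ℂ) ^ 2 * (yy s ρ : ℂ) * 4 * ex ρ) * Complex.I_sq
  have na : ∀ ρ, ‖a ρ‖ ^ 2 = y1 ρ ^ 2 + s ^ 2 * yy s ρ ^ 2 := by
    intro ρ
    rw [ha]
    simp only
    rw [norm_mul, nex, one_mul, Complex.sq_norm, Complex.normSq_apply]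
    simp
    ring
  have a1 : 1 / 5 ≤ ‖a 1‖ := by
    have h2 := na 1
    nlinarith [norm_nonneg (a 1)]
  have hdiff : ∀ ρ ∈ Icc (1 : ℝ) 2, ‖a ρ - a 1‖ ≤ 1 / 2 * ‖a 1‖ := by
    intro ρ hρ
    have h2 : ∀ x ∈ Icc (1 : ℝ) 2, ‖-(((yy s x / (4 * Real.sinh x ^ 2) : ℝ) : ℂ) * ex x)‖ ≤
        1 / 2 * ‖a 1‖ := by
      intro x hx
      have S1 : 1 ≤ Real.sinh x := by
        have := Real.self_le_sinh_iff.2 (show 0 ≤ x by linarith [hx.1])
        linarith [hx.1]
      rw [norm_neg, norm_mul, nex, mul_one, Complex.norm_real, Real.norm_eq_abs, abs_div,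
        abs_of_pos (show 0 < 4 * Real.sinh x ^ 2 by positivity), div_le_iff₀ (by positivity)]
      have h3 := hE x hx
      rw [← na 1] at h3
      have h4 : yy s x ^ 2 ≤ 3 * ‖a 1‖ ^ 2 := by
        have h5 : yy s x ^ 2 ≤ s ^ 2 * yy s x ^ 2 :=
          le_mul_of_one_le_left (sq_nonneg _) (by nlinarith)
        nlinarith [sq_nonneg (y1 x)]
      have h5 : |yy s x| ≤ 2 * ‖a 1‖ := by
        refine abs_le_of_sq_le_sq ?_ (by positivity)
        nlinarith [sq_nonneg ‖a 1‖]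
      have h6 : 2 * ‖a 1‖ ≤ 1 / 2 * ‖a 1‖ * (4 * Real.sinh x ^ 2) := by
        have : 1 ≤ Real.sinh x ^ 2 := by nlinarith
        nlinarith [norm_nonneg (a 1)]
      linarith
    have h3 := (convex_Icc (1 : ℝ) 2).norm_image_sub_le_of_norm_hasDerivWithin_le (f := a)
      (f' := fun x => -(((yy s x / (4 * Real.sinh x ^ 2) : ℝ) : ℂ) * ex x)) (C := 1 / 2 * ‖a 1‖)
      (fun x hx => (da x (by linarith [hx.1]) (by linarith [hx.2])).hasDerivWithinAt) h2
      (show (1 : ℝ) ∈ Icc (1 : ℝ) 2 from ⟨le_rfl, one_le_two⟩) hρ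
    have h4 : ‖ρ - 1‖ ≤ 1 := by
      rw [Real.norm_eq_abs, abs_of_nonneg (by linarith [hρ.1])]
      linarith [hρ.2]
    refine h3.trans ?_
    have : 0 ≤ 1 / 2 * ‖a 1‖ := by positivity
    nlinarith
  have acont : ContinuousOn a (Icc 1 2) := fun x hx =>
    (da x (by linarith [hx.1]) (by linarith [hx.2])).continuousAt.continuousWithinAt
  have ycont : ContinuousOn (yy s) (Icc 1 2) := fun x hx =>
    (h x (by linarith [hx.1]) (by linarith [hx.2])).1.continuousAt.continuousWithinAt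
  have y1cont : ContinuousOn y1 (Icc 1 2) := fun x hx =>
    (h x (by linarith [hx.1]) (by linarith [hx.2])).2.continuousAt.continuousWithinAt
  have excont : Continuous ex := continuous_iff_continuousAt.2 fun ρ => (dex ρ).continuousAt
  -- the integral of `b1 a`
  have key : cc s = ∫ ρ in (1 : ℝ)..2, (b1 ρ : ℂ) * a ρ := by
    have e1 : cc s = ∫ ρ in (1 : ℝ)..2, ex ρ * ((2 * Complex.I * s * (b1 ρ : ℂ) - (b1' ρ : ℂ)) *
        (yy s ρ : ℂ)) := by
      rw [intervalIntegral.integral_of_le one_le_two, ← integral_Icc_eq_integral_Ioc]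
      unfold cc
      have hsub : Icc (1 : ℝ) 2 ⊆ Ioi 0 := fun x hx => by
        show 0 < x
        linarith [hx.1]
      rw [setIntegral_eq_of_subset_of_forall_sdiff_eq_zero measurableSet_Ioi hsub]
      · refine setIntegral_congr_fun measurableSet_Icc fun ρ hρ => ?_
        have S0 : 0 < Real.sinh ρ := Real.sinh_pos_iff.2 (by linarith [hρ.1])
        have g0 : 0 < √(Real.sinh ρ) := Real.sqrt_pos.2 S0
        have g2 : (√(Real.sinh ρ) : ℂ) ^ 2 = (Real.sinh ρ : ℂ) := by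
          exact_mod_cast Real.sq_sqrt S0.le
        have g0' : (√(Real.sinh ρ) : ℂ) ≠ 0 := by exact_mod_cast g0.ne'
        unfold sg WW ov yy
        simp only [h1, if_true]
        rw [hex, ← g2]
        push_cast
        field_simp
      · intro x hx
        have hx2 : x ∉ Icc (1 : ℝ) 2 := hx.2
        rw [mem_Icc, not_and_or, not_le, not_le] at hx2
        have h3 : x ≤ 1 ∨ 2 ≤ x := hx2.imp le_of_lt le_of_lt
        unfold WW
        simp only [h1, if_true]
        rw [ov_zero (b1_zero h3), ov_zero (db1_zero h3)]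
        simp
    have e2 : ∫ ρ in (1 : ℝ)..2, (((b1' ρ : ℂ) - Complex.I * s * (b1 ρ : ℂ)) * ex ρ * (yy s ρ : ℂ) +
        (b1 ρ : ℂ) * ex ρ * (y1 ρ : ℂ)) = 0 := by
      have hd : ∀ ρ ∈ uIcc (1 : ℝ) 2, HasDerivAt (fun ρ => (b1 ρ : ℂ) * ex ρ * (yy s ρ : ℂ))
          (((b1' ρ : ℂ) - Complex.I * s * (b1 ρ : ℂ)) * ex ρ * (yy s ρ : ℂ) +
            (b1 ρ : ℂ) * ex ρ * (y1 ρ : ℂ)) ρ := by
        intro ρ hρ
        rw [uIcc_of_le one_le_two] at hρ
        obtain ⟨d1, d2⟩ := h ρ (by linarith [hρ.1]) (by linarith [hρ.2])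
        refine (((db1 ρ).ofReal_comp.mul (dex ρ)).mul d1.ofReal_comp).congr_deriv ?_
        simp only [Pi.mul_apply]
        ring
      rw [intervalIntegral.integral_eq_sub_of_hasDerivAt hd]
      · rw [b1_zero (Or.inr le_rfl), b1_zero (Or.inl le_rfl)]
        simp
      · refine ContinuousOn.intervalIntegrable ?_
        rw [uIcc_of_le one_le_two]
        have c1 : ContinuousOn (fun ρ => (yy s ρ : ℂ)) (Icc 1 2) :=
          Complex.continuous_ofReal.comp_continuousOn ycont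
        have c2 : ContinuousOn (fun ρ => (y1 ρ : ℂ)) (Icc 1 2) :=
          Complex.continuous_ofReal.comp_continuousOn y1cont
        have c3 : Continuous fun ρ => (b1 ρ : ℂ) :=
          Complex.continuous_ofReal.comp b1_sm.continuous
        have c4 : Continuous fun ρ => (b1' ρ : ℂ) :=
          Complex.continuous_ofReal.comp db1_sm.continuous
        exact (((c4.sub (continuous_const.mul c3)).mul excont).continuousOn.mul c1).add
          ((c3.mul excont).continuousOn.mul c2)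
    rw [e1, ← add_zero (∫ ρ in (1 : ℝ)..2, ex ρ * _), ← e2, ← intervalIntegral.integral_add]
    · refine intervalIntegral.integral_congr fun ρ _ => ?_
      rw [ha]
      ring
    · refine ContinuousOn.intervalIntegrable ?_
      rw [uIcc_of_le one_le_two]
      have c1 : ContinuousOn (fun ρ => (yy s ρ : ℂ)) (Icc 1 2) :=
        Complex.continuous_ofReal.comp_continuousOn ycont
      have c3 : Continuous fun ρ => (b1 ρ : ℂ) :=
        Complex.continuous_ofReal.comp b1_sm.continuous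
      have c4 : Continuous fun ρ => (b1' ρ : ℂ) :=
        Complex.continuous_ofReal.comp db1_sm.continuous
      exact excont.continuousOn.mul (((continuous_const.mul c3).sub c4).continuousOn.mul c1)
    · refine ContinuousOn.intervalIntegrable ?_
      rw [uIcc_of_le one_le_two]
      have c1 : ContinuousOn (fun ρ => (yy s ρ : ℂ)) (Icc 1 2) :=
        Complex.continuous_ofReal.comp_continuousOn ycont
      have c2 : ContinuousOn (fun ρ => (y1 ρ : ℂ)) (Icc 1 2) :=
        Complex.continuous_ofReal.comp_continuousOn y1cont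
      have c3 : Continuous fun ρ => (b1 ρ : ℂ) :=
        Complex.continuous_ofReal.comp b1_sm.continuous
      have c4 : Continuous fun ρ => (b1' ρ : ℂ) :=
        Complex.continuous_ofReal.comp db1_sm.continuous
      exact (((c4.sub (continuous_const.mul c3)).mul excont).continuousOn.mul c1).add
        ((c3.mul excont).continuousOn.mul c2)
  -- comparison with `a 1`
  have hb : ∫ ρ in (1 : ℝ)..2, b1 ρ = ∫ ρ, b1 ρ := by
    rw [intervalIntegral.integral_of_le one_le_two, ← integral_Icc_eq_integral_Ioc]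
    refine setIntegral_eq_integral_of_forall_compl_eq_zero fun x hx => ?_
    rw [mem_Icc, not_and_or, not_le, not_le] at hx
    exact b1_zero (hx.imp le_of_lt le_of_lt)
  have b1c : Continuous fun ρ => b1 ρ := b1_sm.continuous
  have h5 : ‖(∫ ρ in (1 : ℝ)..2, (b1 ρ : ℂ) * a ρ) - (∫ ρ in (1 : ℝ)..2, b1 ρ : ℝ) * a 1‖ ≤
      1 / 2 * ‖a 1‖ * ∫ ρ in (1 : ℝ)..2, b1 ρ := by
    have i1 : IntervalIntegrable (fun ρ => (b1 ρ : ℂ) * a ρ) volume 1 2 := by
      refine ContinuousOn.intervalIntegrable ?_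
      rw [uIcc_of_le one_le_two]
      exact (Complex.continuous_ofReal.comp b1c).continuousOn.mul acont
    have i2 : IntervalIntegrable (fun ρ => (b1 ρ : ℂ) * a 1) volume 1 2 :=
      ((Complex.continuous_ofReal.comp b1c).mul continuous_const).intervalIntegrable _ _
    have e3 : ((∫ ρ in (1 : ℝ)..2, b1 ρ : ℝ) : ℂ) * a 1 = ∫ ρ in (1 : ℝ)..2, (b1 ρ : ℂ) * a 1 := by
      rw [intervalIntegral.integral_mul_const, intervalIntegral.integral_ofReal]
    rw [e3, ← intervalIntegral.integral_sub i1 i2, ← intervalIntegral.integral_const_mul]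
    refine intervalIntegral.norm_integral_le_of_norm_le one_le_two (ae_of_all _ fun ρ hρ => ?_)
      ((b1c.intervalIntegrable _ _).const_mul _)
    have hρ' : ρ ∈ Icc (1 : ℝ) 2 := ⟨hρ.1.le, hρ.2⟩
    rw [← mul_sub, norm_mul, Complex.norm_real, Real.norm_eq_abs, abs_of_nonneg b1.nonneg, mul_comm]
    exact mul_le_mul_of_nonneg_right (hdiff ρ hρ') b1.nonneg
  rw [key]
  rw [hb] at h5
  have Ib : 0 ≤ ∫ ρ, b1 ρ := integral_nonneg fun _ => b1.nonneg
  have h6 : ‖((∫ ρ, b1 ρ : ℝ) : ℂ) * a 1‖ = (∫ ρ, b1 ρ) * ‖a 1‖ := by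
    rw [norm_mul, Complex.norm_real, Real.norm_eq_abs, abs_of_nonneg Ib]
  have h7 := norm_sub_norm_le (((∫ ρ, b1 ρ : ℝ) : ℂ) * a 1) (∫ ρ in (1 : ℝ)..2, (b1 ρ : ℂ) * a ρ)
  rw [norm_sub_rev, h6] at h7
  nlinarith

theorem cc_low : ∃ c0 : ℝ, 0 < c0 ∧ ∀ s : ℝ, 0 ≤ s → c0 ≤ ‖cc s‖ := by
  have p0 : 0 < ∫ ρ, b0 ρ := b0.integral_pos
  have p1 : 0 < ∫ ρ, b1 ρ := b1.integral_pos
  refine ⟨min (3 / 40 * ∫ ρ, b0 ρ) (1 / 10 * ∫ ρ, b1 ρ), by positivity, fun s hs => ?_⟩
  by_cases h : 1 ≤ s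
  · exact (min_le_right _ _).trans (low_large h)
  · exact (min_le_left _ _).trans (low_small hs h)

end

end Pool.Agent.H22.NS
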