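import Pool.Agent.H22.NS.Sup

/-! # The uniform inequality and the decay (MP_a28cf0_nt) -/

set_option autoImplicit false
open MeasureTheory Filter Topology Metric Set
open scoped ContDiff ENNReal

namespace Pool.Agent.H22.NS

open Pool.Agent.X127.PB (lp)
open Pool.Agent.X127.HY (HH HH_open)

noncomputable section

/-- `f` is a smooth real eigenfunction with spectral parameter `t` -/
def Eg (t : ℝ) (f : ℂ → ℝ) : Prop :=
  ContDiffOn ℝ ∞ f HH ∧ ∀ z ∈ HH, -(z.im ^ 2 * lp f z) = (1 / 4 + t ^ 2) * f z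

lemma sg_le {s : ℝ} (h : 0 ≤ s) : sg s ≤ s := by
  unfold sg
  split_ifs
  · exact le_rfl
  · exact h

/-- **the uniform inequality** -/
theorem uniform (m : ℕ) {ψ : ℂ → ℝ} (hψ : ContDiff ℝ ∞ ψ) (hc : HasCompactSupport ψ)
    (hs : tsupport ψ ⊆ HH) (N : ℕ) :
    ∃ C : ℝ, 0 ≤ C ∧ ∀ (t : ℝ) (s : Fin m → ℝ) (f : ℂ → ℝ) (g : Fin m → ℂ → ℝ), 1 ≤ t →
      (∀ j, 0 ≤ s j) → 0 < t - ∑ j, s j → Eg t f → (∀ j, Eg (s j) (g j)) →
      |∫ z, ψ z * (f z * ∏ j, g j z) / z.im ^ 2| ≤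
        C * ((1 + t) * ∏ j, (1 + s j)) / (t - ∑ j, s j) ^ N *
          ((∫ w in nb (tsupport ψ), |f w| / w.im ^ 2) *
            ∏ j, ∫ w in nb (tsupport ψ), |g j w| / w.im ^ 2) := by
  obtain ⟨K, hKd⟩ : ∃ K, K = tsupport ψ := ⟨_, rfl⟩
  have hK : IsCompact K := by rw [hKd]; exact hc
  have hKH : K ⊆ HH := by rw [hKd]; exact hs
  obtain ⟨A, hA⟩ : ∃ A : ℂ → ℂ, A = fun z => ((ψ z : ℝ) : ℂ) := ⟨_, rfl⟩
  have hAs : ContDiff ℝ ∞ A := by rw [hA]; exact Complex.ofRealCLM.contDiff.comp hψ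
  have ψ0 : ∀ z, z ∉ K → ψ z = 0 := fun z hz => image_eq_zero_of_notMem_tsupport (by rwa [← hKd])
  have hA0 : ∀ z, z ∉ K → A z = 0 := fun z hz => by rw [hA]; simp [ψ0 z hz]
  obtain ⟨C, hC, hb⟩ := sup_bound m hAs hK hKH hA0 (nb_compact hK) (nb_sub hKH) N
  obtain ⟨c0, hc0, hcc⟩ := cc_low
  have hc1 : 0 < 2 * Real.pi * c0 := by positivity
  rw [← hKd]
  refine ⟨C / (2 * Real.pi * c0) ^ (m + 1), by positivity, ?_⟩
  intro t s f g ht hs0 hD hf hg
  have hI : ∀ h : ℂ → ℝ, 0 ≤ ∫ w in nb K, |h w| / w.im ^ 2 := fun h =>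
    integral_nonneg fun w => by positivity
  have h1t : 0 < 1 + t := by linarith
  have h1s : ∀ j, 0 < 1 + s j := fun j => by have := hs0 j; linarith
  have hP : 0 ≤ ∏ j, (1 + s j) := Finset.prod_nonneg fun j _ => (h1s j).le
  have hD1 : t - ∑ j, s j ≤ t - ∑ j, sg (s j) :=
    sub_le_sub_left (Finset.sum_le_sum fun j _ => sg_le (hs0 j)) _
  have key := reduce (ι := Fin (m + 1)) hAs.continuous hK hKH
    (s := Fin.cons t s) (g := Fin.cons (α := fun _ => ℂ → ℝ) f g)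
    (fun i => by
      refine Fin.cases ?_ (fun j => ?_) i
      · exact hf.1
      · exact (hg j).1)
    (fun i => by
      refine Fin.cases ?_ (fun j => ?_) i
      · exact hf.2
      · exact (hg j).2)
    (E := C * ((1 + t) * ∏ j, (1 + s j)) / (t - ∑ j, s j) ^ N)
    (fun w hw => by
      have h1 := hb t s ht hs0 (lt_of_lt_of_le hD hD1) (w 0) (hw 0) (fun j => w j.succ)
        (fun j => nb_sub hKH (hw j.succ))
      have h2 : ∫ z in K, A z / (z.im : ℂ) ^ 2 *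
          ∏ i, kk (Fin.cons (α := fun _ => ℝ) t s i) (dd (w i) z) =
          ∫ z in HH, A z * (kk t (dd z (w 0)) * ∏ j, kk (s j) (dd z (w j.succ))) /
            (z.im : ℂ) ^ 2 := by
        rw [setIntegral_eq_of_subset_of_forall_sdiff_eq_zero HH_open.measurableSet hKH
          (fun z hz => by rw [hA0 z hz.2]; simp)]
        refine integral_congr_ae (ae_of_all _ fun z => ?_)
        simp only
        rw [Fin.prod_univ_succ]
        simp only [Fin.cons_zero, Fin.cons_succ]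
        rw [dd_comm (w 0) z]
        simp only [dd_comm (w _) z]
        ring
      rw [h2]
      refine h1.trans ?_
      have h3 : 0 ≤ C * ((1 + t) * ∏ j, (1 + s j)) := by positivity
      exact div_le_div_of_nonneg_left h3 (by positivity) (pow_le_pow_left₀ hD.le hD1 N))
  have e1 : |∫ z, ψ z * (f z * ∏ j, g j z) / z.im ^ 2| =
      ‖∫ z in K, A z / (z.im : ℂ) ^ 2 *
        ∏ i, ((Fin.cons (α := fun _ => ℂ → ℝ) f g i z : ℝ) : ℂ)‖ := by
    have e2 : ∫ z in K, A z / (z.im : ℂ) ^ 2 *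
        ∏ i, ((Fin.cons (α := fun _ => ℂ → ℝ) f g i z : ℝ) : ℂ) =
        ((∫ z, ψ z * (f z * ∏ j, g j z) / z.im ^ 2 : ℝ) : ℂ) := by
      rw [← integral_complex_ofReal,
        setIntegral_eq_integral_of_forall_compl_eq_zero (fun z hz => by rw [hA0 z hz]; simp)]
      refine integral_congr_ae (ae_of_all _ fun z => ?_)
      simp only
      rw [Fin.prod_univ_succ, hA]
      simp only [Fin.cons_zero, Fin.cons_succ]
      push_cast
      ring
    rw [e2, Complex.norm_real, Real.norm_eq_abs]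
  rw [← e1, Fin.prod_univ_succ (fun i => ∫ w in nb K,
    |Fin.cons (α := fun _ => ℂ → ℝ) f g i w| / w.im ^ 2)] at key
  simp only [Fin.cons_zero, Fin.cons_succ] at key
  have h4 : (2 * Real.pi * c0) ^ (m + 1) ≤
      ∏ i, ‖2 * Real.pi * cc (Fin.cons (α := fun _ => ℝ) t s i)‖ := by
    have h5 : ∏ _i : Fin (m + 1), (2 * Real.pi * c0) = (2 * Real.pi * c0) ^ (m + 1) := by simp
    rw [← h5]
    refine Finset.prod_le_prod (fun _ _ => hc1.le) fun i _ => ?_
    have h6 : 0 ≤ (Fin.cons (α := fun _ => ℝ) t s i : ℝ) := by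
      refine Fin.cases ?_ (fun j => ?_) i
      · show 0 ≤ t
        linarith
      · exact hs0 j
    rw [norm_mul, norm_mul, Complex.norm_real, Real.norm_eq_abs, abs_of_pos Real.pi_pos]
    have h7 := hcc _ h6
    have h8 : ‖(2 : ℂ)‖ = 2 := by simp
    rw [h8]
    exact mul_le_mul_of_nonneg_left h7 (by positivity)
  have h9 := (mul_le_mul_of_nonneg_right h4 (abs_nonneg
    (∫ z, ψ z * (f z * ∏ j, g j z) / z.im ^ 2))).trans key
  rw [← le_div_iff₀' (by positivity)] at h9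
  refine h9.trans (le_of_eq ?_)
  ring

lemma re_prod {n : ℕ} (a : Fin n → ℕ) {M : Type} [CommMonoid M] (h : Fin n → M) :
    ∏ j : Fin (Fintype.card (Σ i : Fin n, Fin (a i))),
      h ((Fintype.equivFin (Σ i : Fin n, Fin (a i))).symm j).1 = ∏ i, h i ^ a i := by
  rw [Equiv.prod_comp (Fintype.equivFin (Σ i : Fin n, Fin (a i))).symm
    (fun x : (Σ i : Fin n, Fin (a i)) => h x.1), Fintype.prod_sigma]
  simp

lemma re_sum {n : ℕ} (a : Fin n → ℕ) (h : Fin n → ℝ) :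
    ∑ j : Fin (Fintype.card (Σ i : Fin n, Fin (a i))),
      h ((Fintype.equivFin (Σ i : Fin n, Fin (a i))).symm j).1 = ∑ i, (a i : ℝ) * h i := by
  rw [Equiv.sum_comp (Fintype.equivFin (Σ i : Fin n, Fin (a i))).symm
    (fun x : (Σ i : Fin n, Fin (a i)) => h x.1), Fintype.sum_sigma]
  simp

/-- **the uniform inequality with exponents** -/
theorem uniform_pow (n : ℕ) (a : Fin n → ℕ) {ψ : ℂ → ℝ} (hψ : ContDiff ℝ ∞ ψ)
    (hc : HasCompactSupport ψ) (hs : tsupport ψ ⊆ HH) (N : ℕ) :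
    ∃ C : ℝ, 0 ≤ C ∧ ∀ (t : ℝ) (s : Fin n → ℝ) (f : ℂ → ℝ) (g : Fin n → ℂ → ℝ), 1 ≤ t →
      (∀ i, 0 ≤ s i) → 0 < t - ∑ i, (a i : ℝ) * s i → Eg t f → (∀ i, Eg (s i) (g i)) →
      |∫ z, ψ z * (f z * ∏ i, g i z ^ a i) / z.im ^ 2| ≤
        C * ((1 + t) * ∏ i, (1 + s i) ^ a i) / (t - ∑ i, (a i : ℝ) * s i) ^ N *
          ((∫ w in nb (tsupport ψ), |f w| / w.im ^ 2) *
            ∏ i, (∫ w in nb (tsupport ψ), |g i w| / w.im ^ 2) ^ a i) := by
  obtain ⟨C, hC, h⟩ := uniform (Fintype.card (Σ i : Fin n, Fin (a i))) hψ hc hs N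
  refine ⟨C, hC, fun t s f g ht hs0 hD hf hg => ?_⟩
  have h1 := h t (fun j => s ((Fintype.equivFin (Σ i : Fin n, Fin (a i))).symm j).1) f
    (fun j => g ((Fintype.equivFin (Σ i : Fin n, Fin (a i))).symm j).1) ht (fun j => hs0 _)
    (by rw [re_sum]; exact hD) hf fun j => hg _
  rw [re_sum, re_prod a (fun i => 1 + s i),
    re_prod a (fun i => ∫ w in nb (tsupport ψ), |g i w| / w.im ^ 2)] at h1
  have e : ∀ z, ∏ j : Fin (Fintype.card (Σ i : Fin n, Fin (a i))),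
      g ((Fintype.equivFin (Σ i : Fin n, Fin (a i))).symm j).1 z = ∏ i, g i z ^ a i :=
    fun z => re_prod a (fun i => g i z)
  simp only [e] at h1
  exact h1

/-- local boundedness in `L²` -/
def LL (f : ℕ → ℂ → ℝ) : Prop :=
  ∀ K : Set ℂ, IsCompact K → K ⊆ HH → ∃ C : ℝ, ∀ᶠ n in atTop, ∫ z in K, f n z ^ 2 ≤ C

lemma im_low {K : Set ℂ} (hK : IsCompact K) (hKH : K ⊆ HH) : ∃ c : ℝ, 0 < c ∧ ∀ w ∈ K, c ≤ w.im := by
  by_cases h : K.Nonempty
  · obtain ⟨w, hw, hm⟩ := hK.exists_isMinOn h Complex.continuous_im.continuousOn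
    exact ⟨w.im, hKH hw, fun v hv => hm hv⟩
  · rw [not_nonempty_iff_eq_empty] at h
    subst h
    exact ⟨1, one_pos, fun w hw => absurd hw (notMem_empty w)⟩

lemma l1_bound {f : ℕ → ℂ → ℝ} (hc : ∀ n, ContinuousOn (f n) HH) (hf : LL f) {K : Set ℂ}
    (hK : IsCompact K) (hKH : K ⊆ HH) :
    ∃ B : ℝ, 0 ≤ B ∧ ∀ᶠ n in atTop, ∫ w in K, |f n w| / w.im ^ 2 ≤ B := by
  obtain ⟨c, hc0, hcK⟩ := im_low hK hKH
  obtain ⟨C, hC⟩ := hf K hK hKH
  refine ⟨|(c ^ 2)⁻¹ * (volume.real K + C)|, abs_nonneg _, ?_⟩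
  filter_upwards [hC] with n hn
  have i1 : IntegrableOn (fun w => f n w ^ 2) K :=
    (((hc n).mono hKH).pow 2).integrableOn_compact hK
  have i2 : IntegrableOn (fun _ : ℂ => (1 : ℝ)) K := continuousOn_const.integrableOn_compact hK
  have h1 : ∫ w in K, |f n w| / w.im ^ 2 ≤ ∫ w in K, (c ^ 2)⁻¹ * (1 + f n w ^ 2) := by
    refine setIntegral_mono_on ?_ ((i2.add i1).const_mul _) hK.measurableSet fun w hw => ?_
    · refine ContinuousOn.integrableOn_compact hK ?_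
      refine ((hc n).mono hKH).abs.div (Continuous.continuousOn (by fun_prop)) fun w hw => ?_
      have := lt_of_lt_of_le hc0 (hcK w hw)
      positivity
    · have h2 := hcK w hw
      have h3 : 0 < w.im := lt_of_lt_of_le hc0 h2
      rw [div_eq_inv_mul]
      have h4 : (w.im ^ 2)⁻¹ ≤ (c ^ 2)⁻¹ := inv_anti₀ (by positivity)
        (pow_le_pow_left₀ hc0.le h2 2)
      refine mul_le_mul h4 ?_ (abs_nonneg _) (by positivity)
      nlinarith [sq_nonneg (|f n w| - 1), sq_abs (f n w), abs_nonneg (f n w)]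
  refine h1.trans (le_trans ?_ (le_abs_self _))
  rw [integral_const_mul, integral_add i2 i1]
  refine mul_le_mul_of_nonneg_left (add_le_add (le_of_eq ?_) hn) (by positivity)
  simp

/-- **decay in the non-resonant range** -/
theorem decay (n : ℕ) (a : Fin n → ℕ) {t : ℕ → ℝ} {s : Fin n → ℕ → ℝ} {f : ℕ → ℂ → ℝ}
    {g : Fin n → ℕ → ℂ → ℝ} (ht : Tendsto t atTop atTop) (hs0 : ∀ i k, 0 ≤ s i k)
    (hf : ∀ k, Eg (t k) (f k)) (hg : ∀ i k, Eg (s i k) (g i k)) (hfb : LL f)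
    (hgb : ∀ i, LL (g i)) {δ : ℝ} (hδ : 0 < δ)
    (hgap : ∀ᶠ k in atTop, t k ^ δ ≤ t k - ∑ i, (a i : ℝ) * s i k) {ψ : ℂ → ℝ}
    (hψ : ContDiff ℝ ∞ ψ) (hc : HasCompactSupport ψ) (hs : tsupport ψ ⊆ HH) (A : ℕ) :
    Tendsto (fun k => t k ^ A * ∫ z, ψ z * (f k z * ∏ i, g i k z ^ a i) / z.im ^ 2)
      atTop (𝓝 0) := by
  obtain ⟨L, hL⟩ : ∃ L : ℕ, L = 1 + ∑ i, a i := ⟨_, rfl⟩
  obtain ⟨N, hN⟩ := exists_nat_gt (((A : ℝ) + L + 1) / δ)
  have hN' : (A : ℝ) + L + 1 ≤ δ * N := by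
    rw [div_lt_iff₀ hδ] at hN
    linarith
  obtain ⟨C, hC, h⟩ := uniform_pow n a hψ hc hs N
  obtain ⟨K, hK⟩ : ∃ K, K = nb (tsupport ψ) := ⟨_, rfl⟩
  have hKc : IsCompact K := by rw [hK]; exact nb_compact hc
  have hKH : K ⊆ HH := by rw [hK]; exact nb_sub hs
  obtain ⟨B0, hB0, hB0'⟩ := l1_bound (fun k => (hf k).1.continuousOn) hfb hKc hKH
  have hBi : ∀ i, ∃ B : ℝ, 0 ≤ B ∧ ∀ᶠ k in atTop, ∫ w in K, |g i k w| / w.im ^ 2 ≤ B := fun i =>
    l1_bound (fun k => (hg i k).1.continuousOn) (hgb i) hKc hKH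
  choose B hB hB' using hBi
  have hBall : ∀ᶠ k in atTop, ∀ i, ∫ w in K, |g i k w| / w.im ^ 2 ≤ B i :=
    eventually_all.2 hB'
  have hlim : Tendsto (fun k => (C * 2 ^ L * (B0 * ∏ i, B i ^ a i)) * (t k)⁻¹) atTop (𝓝 0) := by
    have := (tendsto_inv_atTop_zero.comp ht).const_mul (C * 2 ^ L * (B0 * ∏ i, B i ^ a i))
    simpa using this
  refine squeeze_zero_norm' ?_ hlim
  filter_upwards [hgap, hB0', hBall, ht.eventually_ge_atTop 1] with k h1 h2 h3 h4
  have t0 : 0 < t k := by linarith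
  have hp : 0 < t k ^ δ := Real.rpow_pos_of_pos t0 δ
  have hD : 0 < t k - ∑ i, (a i : ℝ) * s i k := lt_of_lt_of_le hp h1
  have h5 := h (t k) (fun i => s i k) (f k) (fun i => g i k) h4 (fun i => hs0 i k) hD (hf k)
    (fun i => hg i k)
  rw [← hK] at h5
  rw [norm_mul, Real.norm_eq_abs, Real.norm_eq_abs, abs_of_nonneg (pow_nonneg t0.le A)]
  -- the parameters of the `g i` with `a i ≠ 0` are at most `t`
  have h6 : ∏ i, (1 + s i k) ^ a i ≤ ∏ i, (2 * t k) ^ a i := by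
    refine Finset.prod_le_prod (fun i _ => by have := hs0 i k; positivity) fun i _ => ?_
    rcases Nat.eq_zero_or_pos (a i) with h0 | h0
    · rw [h0, pow_zero, pow_zero]
    · refine pow_le_pow_left₀ (by have := hs0 i k; positivity) ?_ _
      have h7 : (a i : ℝ) * s i k ≤ ∑ j, (a j : ℝ) * s j k :=
        Finset.single_le_sum (f := fun j => (a j : ℝ) * s j k)
          (fun j _ => mul_nonneg (by positivity) (hs0 j k)) (Finset.mem_univ i)
      have h8 : s i k ≤ (a i : ℝ) * s i k := by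
        have : (1 : ℝ) ≤ a i := by exact_mod_cast h0
        nlinarith [hs0 i k]
      linarith
  have h9 : (1 + t k) * ∏ i, (1 + s i k) ^ a i ≤ (2 * t k) ^ L := by
    rw [hL, pow_add, pow_one, ← Finset.prod_pow_eq_pow_sum]
    exact mul_le_mul (by linarith) h6 (Finset.prod_nonneg fun i _ => by
      have := hs0 i k; positivity) (by linarith)
  have h10 : (∫ w in K, |f k w| / w.im ^ 2) * ∏ i, (∫ w in K, |g i k w| / w.im ^ 2) ^ a i ≤
      B0 * ∏ i, B i ^ a i := by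
    have hI : ∀ h : ℂ → ℝ, 0 ≤ ∫ w in K, |h w| / w.im ^ 2 := fun h =>
      integral_nonneg fun w => by positivity
    refine mul_le_mul h2 (Finset.prod_le_prod (fun i _ => pow_nonneg (hI _) _) fun i _ =>
      pow_le_pow_left₀ (hI _) (h3 i) _) (Finset.prod_nonneg fun i _ => pow_nonneg (hI _) _) hB0
  have h11 : t k ^ (A + L + 1) ≤ (t k - ∑ i, (a i : ℝ) * s i k) ^ N := by
    calc t k ^ (A + L + 1) = t k ^ (((A + L + 1 : ℕ)) : ℝ) := (Real.rpow_natCast _ _).symm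
      _ ≤ t k ^ (δ * N) := Real.rpow_le_rpow_of_exponent_le h4 (by push_cast; exact hN')
      _ = (t k ^ δ) ^ N := by rw [Real.rpow_mul t0.le, Real.rpow_natCast]
      _ ≤ (t k - ∑ i, (a i : ℝ) * s i k) ^ N := pow_le_pow_left₀ hp.le h1 N
  have hBB : 0 ≤ B0 * ∏ i, B i ^ a i :=
    mul_nonneg hB0 (Finset.prod_nonneg fun i _ => pow_nonneg (hB i) _)
  calc t k ^ A * |∫ z, ψ z * (f k z * ∏ i, g i k z ^ a i) / z.im ^ 2|
      ≤ t k ^ A * (C * (2 * t k) ^ L / t k ^ (A + L + 1) * (B0 * ∏ i, B i ^ a i)) := by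
        refine mul_le_mul_of_nonneg_left (h5.trans ?_) (by positivity)
        refine mul_le_mul ?_ h10 ?_ (by positivity)
        · refine div_le_div₀ (by positivity) (mul_le_mul_of_nonneg_left h9 hC) (by positivity) h11
        · exact mul_nonneg (integral_nonneg fun w => by positivity)
            (Finset.prod_nonneg fun i _ => pow_nonneg (integral_nonneg fun w => by positivity) _)
    _ = (C * 2 ^ L * (B0 * ∏ i, B i ^ a i)) * (t k)⁻¹ := by
        rw [mul_pow, pow_add, pow_add, pow_one]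
        field_simp

end

end Pool.Agent.H22.NS
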