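import Mathlib

/-! # Oscillatory integrals along a geodesic (MP_a28cf0_nt) -/

set_option autoImplicit false
open MeasureTheory Filter Topology Set
open scoped ContDiff

namespace Pool.Agent.H22.NS

noncomputable section

/-- the data of the oscillatory integral; `A j cosh ρ + B j sinh ρ` is the hyperbolic cosine of
the distance of the point with the parameter `ρ` on a geodesic to a fixed point -/
structure Par (m : ℕ) (M : ℕ → ℝ) (R a b : ℝ) where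
  t : ℝ
  σ : Fin m → ℝ
  A : Fin m → ℝ
  B : Fin m → ℝ
  W : Fin m → ℝ → ℂ
  Ψ : ℝ → ℂ
  hσ : ∀ j, 0 ≤ σ j
  hA : ∀ j, 0 < A j
  hAB : ∀ j, 1 ≤ A j ^ 2 - B j ^ 2
  hD : 0 < t - ∑ j, σ j
  hW : ∀ j, ContDiff ℝ ∞ (W j)
  hWb : ∀ j k q, ‖iteratedDeriv k (W j) q‖ ≤ M k
  hW0 : ∀ j q, q < R → W j q = 0
  hΨ : ContDiff ℝ ∞ Ψ
  hΨb : ∀ k ρ, ‖iteratedDeriv k Ψ ρ‖ ≤ M k
  hΨ0 : ∀ ρ, ρ ∉ Icc a b → Ψ ρ = 0

namespace Par

variable {m : ℕ} {M : ℕ → ℝ} {R a b : ℝ} (p : Par m M R a b)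

def y (j : Fin m) (ρ : ℝ) : ℝ := p.A j * Real.cosh ρ + p.B j * Real.sinh ρ

def y1 (j : Fin m) (ρ : ℝ) : ℝ := p.A j * Real.sinh ρ + p.B j * Real.cosh ρ

def q (j : Fin m) (ρ : ℝ) : ℝ := Real.arcosh (p.y j ρ)

def S (j : Fin m) (ρ : ℝ) : ℝ := √(p.y j ρ ^ 2 - 1)

def u (j : Fin m) (ρ : ℝ) : ℝ := p.y1 j ρ / p.S j ρ

def h (j : Fin m) (ρ : ℝ) : ℝ := p.y j ρ / p.S j ρ

def F (ρ : ℝ) : ℝ := p.t + ∑ j, p.σ j * p.u j ρ

def e (j : Fin m) (ρ : ℝ) : ℝ := p.σ j * (1 - p.u j ρ ^ 2) / p.F ρ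

def Θ (ρ : ℝ) : ℝ := p.t * ρ + ∑ j, p.σ j * p.q j ρ

def U : Set ℝ := {ρ | ∀ j, Real.cosh (R / 2) < p.y j ρ}

def V : Set ℝ := {ρ | ρ ∈ Icc a b ∧ ∀ j, Real.cosh R ≤ p.y j ρ}

lemma dy (j : Fin m) (ρ : ℝ) : HasDerivAt (p.y j) (p.y1 j ρ) ρ :=
  ((Real.hasDerivAt_cosh ρ).const_mul _).add ((Real.hasDerivAt_sinh ρ).const_mul _)

lemma dy1 (j : Fin m) (ρ : ℝ) : HasDerivAt (p.y1 j) (p.y j ρ) ρ :=
  ((Real.hasDerivAt_sinh ρ).const_mul _).add ((Real.hasDerivAt_cosh ρ).const_mul _)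

lemma y_cont (j : Fin m) : Continuous (p.y j) :=
  continuous_iff_continuousAt.2 fun ρ => (p.dy j ρ).continuousAt

lemma sq_sub (j : Fin m) (ρ : ℝ) : p.y j ρ ^ 2 - p.y1 j ρ ^ 2 = p.A j ^ 2 - p.B j ^ 2 := by
  unfold y y1
  have := Real.cosh_sq_sub_sinh_sq ρ
  linear_combination (p.A j ^ 2 - p.B j ^ 2) * this

lemma y1_sq (j : Fin m) (ρ : ℝ) : p.y1 j ρ ^ 2 ≤ p.y j ρ ^ 2 - 1 := by
  have := p.sq_sub j ρ
  have := p.hAB j
  linarith

lemma y_pos (j : Fin m) (ρ : ℝ) : 0 < p.y j ρ := by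
  have h1 := p.hA j
  have h2 := p.hAB j
  have h3 : |p.B j| < p.A j := by
    rw [← abs_of_pos h1]
    exact sq_lt_sq.1 (by linarith)
  have h4 : |Real.sinh ρ| < Real.cosh ρ := by
    rw [← abs_of_pos (Real.cosh_pos ρ)]
    exact sq_lt_sq.1 (by have := Real.cosh_sq_sub_sinh_sq ρ; linarith)
  have h5 : |p.B j * Real.sinh ρ| < p.A j * Real.cosh ρ := by
    rw [abs_mul]
    exact mul_lt_mul'' h3 h4 (abs_nonneg _) (abs_nonneg _)
  have := neg_abs_le (p.B j * Real.sinh ρ)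
  unfold y
  linarith

lemma U_open : IsOpen p.U := by
  have : p.U = ⋂ j, {ρ | Real.cosh (R / 2) < p.y j ρ} := by
    ext ρ; simp [U]
  rw [this]
  exact isOpen_iInter_of_finite fun j => isOpen_lt continuous_const (p.y_cont j)

lemma V_closed : IsClosed p.V := by
  have : p.V = Icc a b ∩ ⋂ j, {ρ | Real.cosh R ≤ p.y j ρ} := by
    ext ρ; simp [V]
  rw [this]
  exact isClosed_Icc.inter (isClosed_iInter fun j => isClosed_le continuous_const (p.y_cont j))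

lemma VU (hR : 0 < R) : p.V ⊆ p.U := by
  intro ρ hρ j
  refine lt_of_lt_of_le ?_ (hρ.2 j)
  rw [Real.cosh_lt_cosh, abs_of_pos hR, abs_of_pos (by linarith)]
  linarith

variable {p}

lemma y_gt {ρ : ℝ} (hρ : ρ ∈ p.U) (j : Fin m) : 1 < p.y j ρ :=
  lt_of_le_of_lt (Real.one_le_cosh _) (hρ j)

lemma S_pos {ρ : ℝ} (hρ : ρ ∈ p.U) (j : Fin m) : 0 < p.S j ρ := by
  have := y_gt hρ j
  exact Real.sqrt_pos.2 (by nlinarith)

lemma S_sq {ρ : ℝ} (hρ : ρ ∈ p.U) (j : Fin m) : p.S j ρ ^ 2 = p.y j ρ ^ 2 - 1 := by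
  have := y_gt hρ j
  exact Real.sq_sqrt (by nlinarith)

lemma dS {ρ : ℝ} (hρ : ρ ∈ p.U) (j : Fin m) :
    HasDerivAt (p.S j) (p.y j ρ * p.y1 j ρ / p.S j ρ) ρ := by
  have h1 := S_pos hρ j
  have h2 := S_sq hρ j
  have h3 : HasDerivAt (fun ρ => p.y j ρ ^ 2 - 1) (2 * p.y j ρ * p.y1 j ρ) ρ := by
    refine (((p.dy j ρ).pow 2).sub_const 1).congr_deriv ?_
    push_cast
    ring
  have h4 := h3.sqrt (by rw [← h2]; positivity)
  refine h4.congr_deriv ?_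
  show _ / (2 * p.S j ρ) = _
  field_simp

lemma dq {ρ : ℝ} (hρ : ρ ∈ p.U) (j : Fin m) : HasDerivAt (p.q j) (p.u j ρ) ρ := by
  have h1 := (Real.hasDerivAt_arcosh (y_gt hρ j : p.y j ρ ∈ Ioi 1)).comp ρ (p.dy j ρ)
  refine h1.congr_deriv ?_
  unfold u S
  rw [div_eq_mul_inv, mul_comm]

lemma du {ρ : ℝ} (hρ : ρ ∈ p.U) (j : Fin m) :
    HasDerivAt (p.u j) (p.h j ρ * (1 - p.u j ρ ^ 2)) ρ := by
  have h1 := S_pos hρ j
  have h3 := (p.dy1 j ρ).fun_div (dS hρ j) h1.ne'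
  refine h3.congr_deriv ?_
  unfold u h
  field_simp

lemma dh {ρ : ℝ} (hρ : ρ ∈ p.U) (j : Fin m) :
    HasDerivAt (p.h j) (p.u j ρ * (1 - p.h j ρ ^ 2)) ρ := by
  have h1 := S_pos hρ j
  have h3 := (p.dy j ρ).fun_div (dS hρ j) h1.ne'
  refine h3.congr_deriv ?_
  unfold u h
  field_simp

lemma u_sq {ρ : ℝ} (hρ : ρ ∈ p.U) (j : Fin m) : p.u j ρ ^ 2 ≤ 1 := by
  unfold u
  rw [div_pow, S_sq hρ j, div_le_one]
  · exact p.y1_sq j ρ
  · rw [← S_sq hρ j]; have := S_pos hρ j; positivity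

lemma u_abs {ρ : ℝ} (hρ : ρ ∈ p.U) (j : Fin m) : |p.u j ρ| ≤ 1 := by
  have := u_sq hρ j
  exact (sq_le_one_iff_abs_le_one _).1 this

lemma h_abs (hR : 0 < R) {ρ : ℝ} (hρ : ρ ∈ p.U) (j : Fin m) :
    |p.h j ρ| ≤ 1 + 1 / Real.sinh (R / 2) ^ 2 := by
  have h1 := S_pos hρ j
  have h2 := S_sq hρ j
  have h3 := hρ j
  have s0 : 0 < Real.sinh (R / 2) := Real.sinh_pos_iff.2 (by linarith)
  have h4 := Real.cosh_sq (R / 2)
  have c0 := Real.cosh_pos (R / 2)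
  have h5 : Real.sinh (R / 2) ^ 2 ≤ p.S j ρ ^ 2 := by rw [h2]; nlinarith
  have h6 : p.h j ρ ^ 2 ≤ 1 + 1 / Real.sinh (R / 2) ^ 2 := by
    unfold h
    rw [div_pow, show p.y j ρ ^ 2 = 1 + p.S j ρ ^ 2 by rw [h2]; ring, add_div,
      div_self (by positivity), add_comm]
    gcongr
  have h7 : (1 : ℝ) ≤ 1 + 1 / Real.sinh (R / 2) ^ 2 := by
    have : 0 < 1 / Real.sinh (R / 2) ^ 2 := by positivity
    linarith
  refine abs_le_of_sq_le_sq (h6.trans ?_) (by linarith)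
  nlinarith

lemma F_ge {ρ : ℝ} (hρ : ρ ∈ p.U) :
    p.t - ∑ j, p.σ j + ∑ j, p.σ j * (1 - |p.u j ρ|) ≤ p.F ρ := by
  have h1 : ∀ j, -(p.σ j * |p.u j ρ|) ≤ p.σ j * p.u j ρ := by
    intro j
    have := neg_abs_le (p.u j ρ)
    nlinarith [p.hσ j]
  have h2 := Finset.sum_le_sum fun (j : Fin m) (_ : j ∈ Finset.univ) => h1 j
  unfold F
  have h3 : ∑ j, p.σ j * (1 - |p.u j ρ|) = ∑ j, p.σ j + ∑ j, -(p.σ j * |p.u j ρ|) := by
    rw [← Finset.sum_add_distrib]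
    exact Finset.sum_congr rfl fun j _ => by ring
  rw [h3]
  linarith

lemma F_ge' {ρ : ℝ} (hρ : ρ ∈ p.U) : p.t - ∑ j, p.σ j ≤ p.F ρ := by
  have h1 := F_ge hρ
  have h2 : 0 ≤ ∑ j, p.σ j * (1 - |p.u j ρ|) :=
    Finset.sum_nonneg fun j _ => mul_nonneg (p.hσ j) (by linarith [u_abs hρ j])
  linarith

lemma F_pos {ρ : ℝ} (hρ : ρ ∈ p.U) : 0 < p.F ρ := lt_of_lt_of_le p.hD (F_ge' hρ)

lemma e_abs {ρ : ℝ} (hρ : ρ ∈ p.U) (j : Fin m) : |p.e j ρ| ≤ 2 := by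
  have h0 := F_pos hρ
  have h1 := F_ge hρ
  have h2 := u_abs hρ j
  have h3 : p.σ j * (1 - |p.u j ρ|) ≤ ∑ j, p.σ j * (1 - |p.u j ρ|) :=
    Finset.single_le_sum (f := fun j => p.σ j * (1 - |p.u j ρ|))
      (fun i _ => mul_nonneg (p.hσ i) (by linarith [u_abs hρ i])) (Finset.mem_univ j)
  have hD := p.hD
  have hs := p.hσ j
  have h4 : 0 ≤ 1 - p.u j ρ ^ 2 := by linarith [u_sq hρ j]
  unfold e
  rw [abs_of_nonneg (by positivity), div_le_iff₀ h0]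
  have h5 : 1 - p.u j ρ ^ 2 = (1 - |p.u j ρ|) * (1 + |p.u j ρ|) := by
    rw [← sq_abs]; ring
  have h6 : p.σ j * (1 - p.u j ρ ^ 2) ≤ 2 * (p.σ j * (1 - |p.u j ρ|)) := by
    rw [h5]
    have : 0 ≤ p.σ j * (1 - |p.u j ρ|) := mul_nonneg hs (by linarith)
    nlinarith
  linarith

/-- the logarithmic derivative of `F` -/
def G (p : Par m M R a b) (ρ : ℝ) : ℝ := ∑ j, p.h j ρ * p.e j ρ

lemma dF {ρ : ℝ} (hρ : ρ ∈ p.U) : HasDerivAt p.F (p.F ρ * p.G ρ) ρ := by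
  have h0 := F_pos hρ
  have h1 : HasDerivAt p.F (∑ j, p.σ j * (p.h j ρ * (1 - p.u j ρ ^ 2))) ρ := by
    unfold F
    refine HasDerivAt.const_add _ ?_
    have := HasDerivAt.fun_sum (u := Finset.univ) (A := fun j ρ => p.σ j * p.u j ρ)
      (A' := fun j => p.σ j * (p.h j ρ * (1 - p.u j ρ ^ 2)))
      fun j _ => (du hρ j).const_mul (p.σ j)
    exact this
  refine h1.congr_deriv ?_
  unfold G e
  rw [Finset.mul_sum]
  refine Finset.sum_congr rfl fun j _ => ?_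
  field_simp

lemma de {ρ : ℝ} (hρ : ρ ∈ p.U) (j : Fin m) :
    HasDerivAt (p.e j) (-2 * (p.u j ρ * p.h j ρ * p.e j ρ) - p.e j ρ * p.G ρ) ρ := by
  have h0 := F_pos hρ
  have h1 := (((((du hρ j).pow 2).const_sub 1).const_mul (p.σ j)).fun_div (dF hρ) h0.ne')
  refine h1.congr_deriv ?_
  simp only [Pi.pow_apply]
  unfold e
  push_cast
  field_simp

lemma dΘ {ρ : ℝ} (hρ : ρ ∈ p.U) : HasDerivAt p.Θ (p.F ρ) ρ := by
  have h1 : HasDerivAt p.Θ (p.t * 1 + ∑ j, p.σ j * p.u j ρ) ρ := by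
    unfold Θ
    refine ((hasDerivAt_id ρ).const_mul p.t).add ?_
    have := HasDerivAt.fun_sum (u := Finset.univ) (A := fun j ρ => p.σ j * p.q j ρ)
      (A' := fun j => p.σ j * p.u j ρ)
      fun j _ => (dq hρ j).const_mul (p.σ j)
    exact this
  refine h1.congr_deriv ?_
  unfold F
  ring

end Par

/-- the functions which are generated by the basic functions -/
inductive Gd (m : ℕ) (M : ℕ → ℝ) (R a b : ℝ) : (Par m M R a b → ℝ → ℂ) → Prop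
  | const (c : ℂ) : Gd m M R a b fun _ _ => c
  | u (j : Fin m) : Gd m M R a b fun p ρ => (p.u j ρ : ℂ)
  | h (j : Fin m) : Gd m M R a b fun p ρ => (p.h j ρ : ℂ)
  | e (j : Fin m) : Gd m M R a b fun p ρ => (p.e j ρ : ℂ)
  | W (j : Fin m) (k : ℕ) : Gd m M R a b fun p ρ => iteratedDeriv k (p.W j) (p.q j ρ)
  | Ψ (k : ℕ) : Gd m M R a b fun p ρ => iteratedDeriv k p.Ψ ρ
  | add {f g : Par m M R a b → ℝ → ℂ} : Gd m M R a b f → Gd m M R a b g →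
      Gd m M R a b fun p ρ => f p ρ + g p ρ
  | mul {f g : Par m M R a b → ℝ → ℂ} : Gd m M R a b f → Gd m M R a b g →
      Gd m M R a b fun p ρ => f p ρ * g p ρ

variable {m : ℕ} {M : ℕ → ℝ} {R a b : ℝ}

lemma Gd.neg {f : Par m M R a b → ℝ → ℂ} (hf : Gd m M R a b f) : Gd m M R a b fun p ρ => -f p ρ := by
  have := (Gd.const (m := m) (M := M) (R := R) (a := a) (b := b) (-1)).mul hf
  simpa using this

lemma Gd.sum {ι : Type*} (s : Finset ι) {f : ι → Par m M R a b → ℝ → ℂ}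
    (hf : ∀ i ∈ s, Gd m M R a b (f i)) : Gd m M R a b fun p ρ => ∑ i ∈ s, f i p ρ := by
  classical
  induction s using Finset.induction_on with
  | empty => simpa using Gd.const (m := m) (M := M) (R := R) (a := a) (b := b) 0
  | insert i s hi ih =>
    have h1 := (hf i (Finset.mem_insert_self i s)).add
      (ih fun j hj => hf j (Finset.mem_insert_of_mem hj))
    simpa [Finset.sum_insert hi] using h1

lemma Gd.prod {ι : Type*} (s : Finset ι) {f : ι → Par m M R a b → ℝ → ℂ}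
    (hf : ∀ i ∈ s, Gd m M R a b (f i)) : Gd m M R a b fun p ρ => ∏ i ∈ s, f i p ρ := by
  classical
  induction s using Finset.induction_on with
  | empty => simpa using Gd.const (m := m) (M := M) (R := R) (a := a) (b := b) 1
  | insert i s hi ih =>
    have h1 := (hf i (Finset.mem_insert_self i s)).mul
      (ih fun j hj => hf j (Finset.mem_insert_of_mem hj))
    simpa [Finset.prod_insert hi] using h1

lemma Gd.G : Gd m M R a b fun p ρ => ((p.G ρ : ℝ) : ℂ) := by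
  have := Gd.sum (m := m) (M := M) (R := R) (a := a) (b := b) Finset.univ
    (f := fun j p ρ => (p.h j ρ : ℂ) * (p.e j ρ : ℂ)) fun j _ => (Gd.h j).mul (Gd.e j)
  simpa [Par.G] using this

lemma Gd.bd (hR : 0 < R) {f : Par m M R a b → ℝ → ℂ} (hf : Gd m M R a b f) :
    ∃ C : ℝ, 0 ≤ C ∧ ∀ p : Par m M R a b, ∀ ρ ∈ p.U, ‖f p ρ‖ ≤ C := by
  induction hf with
  | const c => exact ⟨‖c‖, norm_nonneg _, fun _ _ _ => le_rfl⟩
  | u j =>
    refine ⟨1, zero_le_one, fun p ρ hρ => ?_⟩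
    rw [Complex.norm_real]
    exact Par.u_abs hρ j
  | h j =>
    refine ⟨1 + 1 / Real.sinh (R / 2) ^ 2, by positivity, fun p ρ hρ => ?_⟩
    rw [Complex.norm_real]
    exact Par.h_abs hR hρ j
  | e j =>
    refine ⟨2, zero_le_two, fun p ρ hρ => ?_⟩
    rw [Complex.norm_real]
    exact Par.e_abs hρ j
  | W j k => exact ⟨|M k|, abs_nonneg _, fun p ρ _ => (p.hWb j k _).trans (le_abs_self _)⟩
  | Ψ k => exact ⟨|M k|, abs_nonneg _, fun p ρ _ => (p.hΨb k _).trans (le_abs_self _)⟩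
  | add _ _ ih1 ih2 =>
    obtain ⟨C1, h1, h1'⟩ := ih1
    obtain ⟨C2, h2, h2'⟩ := ih2
    exact ⟨C1 + C2, by positivity, fun p ρ hρ =>
      (norm_add_le _ _).trans (add_le_add (h1' p ρ hρ) (h2' p ρ hρ))⟩
  | mul _ _ ih1 ih2 =>
    obtain ⟨C1, h1, h1'⟩ := ih1
    obtain ⟨C2, h2, h2'⟩ := ih2
    refine ⟨C1 * C2, by positivity, fun p ρ hρ => ?_⟩
    rw [norm_mul]
    exact mul_le_mul (h1' p ρ hρ) (h2' p ρ hρ) (norm_nonneg _) h1

lemma Gd.der {f : Par m M R a b → ℝ → ℂ} (hf : Gd m M R a b f) :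
    ∃ f' : Par m M R a b → ℝ → ℂ, Gd m M R a b f' ∧
      ∀ p : Par m M R a b, ∀ ρ ∈ p.U, HasDerivAt (f p) (f' p ρ) ρ := by
  induction hf with
  | const c => exact ⟨fun _ _ => 0, Gd.const 0, fun p ρ _ => hasDerivAt_const _ _⟩
  | u j =>
    refine ⟨fun p ρ => (p.h j ρ : ℂ) * (1 + -((p.u j ρ : ℂ) * (p.u j ρ : ℂ))), 
      (Gd.h j).mul ((Gd.const 1).add ((Gd.u j).mul (Gd.u j)).neg), fun p ρ hρ => ?_⟩
    refine (Par.du hρ j).ofReal_comp.congr_deriv ?_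
    push_cast
    ring
  | h j =>
    refine ⟨fun p ρ => (p.u j ρ : ℂ) * (1 + -((p.h j ρ : ℂ) * (p.h j ρ : ℂ))), 
      (Gd.u j).mul ((Gd.const 1).add ((Gd.h j).mul (Gd.h j)).neg), fun p ρ hρ => ?_⟩
    refine (Par.dh hρ j).ofReal_comp.congr_deriv ?_
    push_cast
    ring
  | e j =>
    refine ⟨fun p ρ => (-2) * ((p.u j ρ : ℂ) * (p.h j ρ : ℂ) * (p.e j ρ : ℂ)) +
        -((p.e j ρ : ℂ) * (p.G ρ : ℂ)), 
      ((Gd.const (-2)).mul (((Gd.u j).mul (Gd.h j)).mul (Gd.e j))).add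
        ((Gd.e j).mul Gd.G).neg, fun p ρ hρ => ?_⟩
    refine (Par.de hρ j).ofReal_comp.congr_deriv ?_
    push_cast
    ring
  | W j k =>
    refine ⟨fun p ρ => iteratedDeriv (k + 1) (p.W j) (p.q j ρ) * (p.u j ρ : ℂ),
      (Gd.W j (k + 1)).mul (Gd.u j), fun p ρ hρ => ?_⟩
    have h1 : HasDerivAt (iteratedDeriv k (p.W j)) (iteratedDeriv (k + 1) (p.W j) (p.q j ρ))
        (p.q j ρ) := by
      rw [iteratedDeriv_succ]
      have := (p.hW j).differentiable_iteratedDeriv k (by exact_mod_cast WithTop.coe_lt_top _)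
      exact (this _).hasDerivAt
    have h2 := h1.scomp ρ (Par.dq hρ j)
    refine h2.congr_deriv ?_
    rw [Complex.real_smul, mul_comm]
  | Ψ k =>
    refine ⟨fun p ρ => iteratedDeriv (k + 1) p.Ψ ρ, Gd.Ψ (k + 1), fun p ρ hρ => ?_⟩
    have := p.hΨ.differentiable_iteratedDeriv k (by exact_mod_cast WithTop.coe_lt_top _)
    show HasDerivAt (iteratedDeriv k p.Ψ) (iteratedDeriv (k + 1) p.Ψ ρ) ρ
    rw [iteratedDeriv_succ]
    exact (this _).hasDerivAt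
  | add _ _ ih1 ih2 =>
    obtain ⟨f1, h1, h1'⟩ := ih1
    obtain ⟨f2, h2, h2'⟩ := ih2
    exact ⟨_, h1.add h2, fun p ρ hρ => (h1' p ρ hρ).add (h2' p ρ hρ)⟩
  | @mul f g hf hg ih1 ih2 =>
    obtain ⟨f1, h1, h1'⟩ := ih1
    obtain ⟨f2, h2, h2'⟩ := ih2
    exact ⟨_, (h1.mul hg).add (hf.mul h2), fun p ρ hρ => (h1' p ρ hρ).mul (h2' p ρ hρ)⟩

/-- the amplitudes: generated by the basic functions on `U`, zero outside of `V` -/
def State (m : ℕ) (M : ℕ → ℝ) (R a b : ℝ) (c : Par m M R a b → ℝ → ℂ) : Prop :=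
  (∃ g, Gd m M R a b g ∧ ∀ p : Par m M R a b, ∀ ρ ∈ p.U, c p ρ = g p ρ) ∧
    ∀ p : Par m M R a b, ∀ ρ, ρ ∉ p.V → c p ρ = 0

/-- the oscillating factor -/
def Par.E (p : Par m M R a b) (ρ : ℝ) : ℂ := Complex.exp (-(Complex.I * (p.Θ ρ : ℝ)))

lemma Par.E_norm (p : Par m M R a b) (ρ : ℝ) : ‖p.E ρ‖ = 1 := by
  unfold Par.E
  rw [Complex.norm_exp]
  simp

lemma Par.dE {p : Par m M R a b} {ρ : ℝ} (hρ : ρ ∈ p.U) :
    HasDerivAt p.E (-(Complex.I * (p.F ρ : ℝ)) * p.E ρ) ρ := by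
  have h1 := (((Par.dΘ hρ).ofReal_comp).const_mul Complex.I).neg.cexp
  refine h1.congr_deriv ?_
  unfold Par.E
  simp only [Pi.neg_apply]
  ring

lemma State.deriv (hR : 0 < R) {c : Par m M R a b → ℝ → ℂ} (hc : State m M R a b c) (n : ℕ) :
    ∃ c' : Par m M R a b → ℝ → ℂ, State m M R a b c' ∧ ∀ p : Par m M R a b, ∀ ρ,
      HasDerivAt (fun ρ => p.E ρ * (((p.F ρ : ℝ) : ℂ)⁻¹ ^ (n + 1) * c p ρ))
        (-(Complex.I * (p.E ρ * (((p.F ρ : ℝ) : ℂ)⁻¹ ^ n * c p ρ))) +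
          p.E ρ * (((p.F ρ : ℝ) : ℂ)⁻¹ ^ (n + 1) * c' p ρ)) ρ := by
  classical
  obtain ⟨⟨g, hg, hcg⟩, hc0⟩ := hc
  obtain ⟨g', hg', hd⟩ := hg.der
  obtain ⟨c', hc'⟩ : ∃ c' : Par m M R a b → ℝ → ℂ, c' = fun p ρ => if ρ ∈ p.U then
    g' p ρ - ((n : ℂ) + 1) * (g p ρ * (p.G ρ : ℝ)) else 0 := ⟨_, rfl⟩
  have near : ∀ p : Par m M R a b, ∀ ρ, ρ ∉ p.V → c p =ᶠ[𝓝 ρ] fun _ => 0 := by
    intro p ρ hρ
    filter_upwards [p.V_closed.isOpen_compl.mem_nhds hρ] with x hx using hc0 p x hx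
  have gd : ∀ p : Par m M R a b, ∀ ρ ∈ p.U, HasDerivAt (c p) (g' p ρ) ρ := by
    intro p ρ hρ
    refine (hd p ρ hρ).congr_of_eventuallyEq ?_
    filter_upwards [p.U_open.mem_nhds hρ] with x hx using hcg p x hx
  have z' : ∀ p : Par m M R a b, ∀ ρ, ρ ∉ p.V → c' p ρ = 0 := by
    intro p ρ hρ
    rw [hc']
    by_cases h : ρ ∈ p.U
    · have h1 : g' p ρ = 0 := (gd p ρ h).unique ((hasDerivAt_const ρ (0 : ℂ)).congr_of_eventuallyEq
        (near p ρ hρ))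
      have h2 : g p ρ = 0 := by rw [← hcg p ρ h, hc0 p ρ hρ]
      simp [h1, h2]
    · simp [h]
  refine ⟨c', ⟨⟨fun p ρ => g' p ρ + -(((n : ℂ) + 1) * (g p ρ * (p.G ρ : ℝ))),
    hg'.add (((Gd.const _).mul (hg.mul Gd.G)).neg), fun p ρ hρ => ?_⟩, z'⟩, fun p ρ => ?_⟩
  · rw [hc']
    simp only [hρ, if_true]
    ring
  by_cases h : ρ ∈ p.U
  · have F0 : ((p.F ρ : ℝ) : ℂ) ≠ 0 := by exact_mod_cast (Par.F_pos h).ne'
    have h1 : HasDerivAt (fun ρ => ((p.F ρ : ℝ) : ℂ)⁻¹) (-(((p.F ρ : ℝ) : ℂ)⁻¹ * (p.G ρ : ℝ))) ρ := by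
      refine ((Par.dF h).ofReal_comp.fun_inv F0).congr_deriv ?_
      push_cast
      field_simp
    have h2 := (Par.dE h).mul ((h1.fun_pow (n + 1)).mul (gd p ρ h))
    refine h2.congr_deriv ?_
    have h3 : c' p ρ = g' p ρ - ((n : ℂ) + 1) * (c p ρ * (p.G ρ : ℝ)) := by
      rw [hc', hcg p ρ h]
      simp only [h, if_true]
    rw [h3]
    simp only [Pi.mul_apply, Nat.add_sub_cancel]
    push_cast
    have hv : ((p.F ρ : ℝ) : ℂ) * ((p.F ρ : ℝ) : ℂ)⁻¹ = 1 := mul_inv_cancel₀ F0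
    obtain ⟨v, hv'⟩ : ∃ v, v = ((p.F ρ : ℝ) : ℂ)⁻¹ := ⟨_, rfl⟩
    rw [← hv'] at hv ⊢
    rw [pow_succ]
    linear_combination (-(Complex.I * p.E ρ * v ^ n * c p ρ)) * hv
  · have hV : ρ ∉ p.V := fun hh => h (p.VU hR hh)
    rw [z' p ρ hV, hc0 p ρ hV]
    simp only [mul_zero, neg_zero, add_zero]
    refine (hasDerivAt_const ρ (0 : ℂ)).congr_of_eventuallyEq ?_
    filter_upwards [near p ρ hV] with x hx
    rw [hx]
    simp

lemma State.step (hR : 0 < R) {c : Par m M R a b → ℝ → ℂ} (hc : State m M R a b c) (n : ℕ) :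
    ∃ c' : Par m M R a b → ℝ → ℂ, State m M R a b c' ∧ ∀ p : Par m M R a b,
      ‖∫ ρ, p.E ρ * (((p.F ρ : ℝ) : ℂ)⁻¹ ^ n * c p ρ)‖ =
        ‖∫ ρ, p.E ρ * (((p.F ρ : ℝ) : ℂ)⁻¹ ^ (n + 1) * c' p ρ)‖ := by
  obtain ⟨c', hc', hd⟩ := hc.deriv hR n
  refine ⟨c', hc', fun p => ?_⟩
  have cs : ∀ (k : ℕ) (f : Par m M R a b → ℝ → ℂ), State m M R a b f →
      Integrable (fun ρ => p.E ρ * (((p.F ρ : ℝ) : ℂ)⁻¹ ^ k * f p ρ)) := by
    intro k f hf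
    obtain ⟨f', hf', hdf⟩ := hf.deriv hR k
    -- the derivative of a primitive
    have c1 : Continuous (fun ρ => p.E ρ * (((p.F ρ : ℝ) : ℂ)⁻¹ ^ (k + 1) * f p ρ)) :=
      continuous_iff_continuousAt.2 fun ρ => (hdf p ρ).continuousAt
    have c2 : Continuous (fun ρ => p.E ρ * (((p.F ρ : ℝ) : ℂ)⁻¹ ^ k * f p ρ)) := by
      have e : (fun ρ => p.E ρ * (((p.F ρ : ℝ) : ℂ)⁻¹ ^ k * f p ρ)) = fun ρ =>
          (p.F ρ : ℂ) * (p.E ρ * (((p.F ρ : ℝ) : ℂ)⁻¹ ^ (k + 1) * f p ρ)) := by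
        funext ρ
        by_cases h : ρ ∈ p.V
        · have F0 : ((p.F ρ : ℝ) : ℂ) ≠ 0 := by exact_mod_cast (Par.F_pos (p.VU hR h)).ne'
          rw [pow_succ]
          field_simp
        · rw [hf.2 p ρ h]; simp
      rw [e, continuous_iff_continuousAt]
      intro ρ
      by_cases h : ρ ∈ p.U
      · exact (((Par.dF h).ofReal_comp).continuousAt).mul c1.continuousAt
      · have hV : ρ ∉ p.V := fun hh => h (p.VU hR hh)
        have c0 : ContinuousAt (fun _ : ℝ => (0 : ℂ)) ρ := continuousAt_const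
        refine c0.congr ?_
        filter_upwards [p.V_closed.isOpen_compl.mem_nhds hV] with x hx
        rw [hf.2 p x hx]
        simp
    refine c2.integrable_of_hasCompactSupport (HasCompactSupport.intro (isCompact_Icc (a := a)
      (b := b)) fun x hx => ?_)
    rw [hf.2 p x fun h => hx h.1]
    simp
  have i1 := cs n c hc
  have i2 := cs (n + 1) c hc
  have i3 := cs (n + 1) c' hc'
  have h0 := integral_eq_zero_of_hasDerivAt_of_integrable (hd p) (((i1.const_mul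
    Complex.I).neg).add i3) i2
  have h1 : ∫ ρ, (-(Complex.I * (p.E ρ * (((p.F ρ : ℝ) : ℂ)⁻¹ ^ n * c p ρ))) +
      p.E ρ * (((p.F ρ : ℝ) : ℂ)⁻¹ ^ (n + 1) * c' p ρ)) =
      -(Complex.I * ∫ ρ, p.E ρ * (((p.F ρ : ℝ) : ℂ)⁻¹ ^ n * c p ρ)) +
        ∫ ρ, p.E ρ * (((p.F ρ : ℝ) : ℂ)⁻¹ ^ (n + 1) * c' p ρ) := by
    have i4 : Integrable (fun ρ => -(Complex.I * (p.E ρ * (((p.F ρ : ℝ) : ℂ)⁻¹ ^ n * c p ρ)))) :=
      (i1.const_mul Complex.I).neg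
    rw [integral_add i4 i3, integral_neg, integral_const_mul]
  rw [h1] at h0
  have h2 : ∫ ρ, p.E ρ * (((p.F ρ : ℝ) : ℂ)⁻¹ ^ (n + 1) * c' p ρ) =
      Complex.I * ∫ ρ, p.E ρ * (((p.F ρ : ℝ) : ℂ)⁻¹ ^ n * c p ρ) := by
    linear_combination h0
  rw [h2, norm_mul, Complex.norm_I, one_mul]

lemma State.iter (hR : 0 < R) {c : Par m M R a b → ℝ → ℂ} (hc : State m M R a b c) (n : ℕ) :
    ∃ c' : Par m M R a b → ℝ → ℂ, State m M R a b c' ∧ ∀ p : Par m M R a b,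
      ‖∫ ρ, p.E ρ * c p ρ‖ = ‖∫ ρ, p.E ρ * (((p.F ρ : ℝ) : ℂ)⁻¹ ^ n * c' p ρ)‖ := by
  induction n with
  | zero => exact ⟨c, hc, fun p => by simp⟩
  | succ n ih =>
    obtain ⟨c1, h1, e1⟩ := ih
    obtain ⟨c2, h2, e2⟩ := h1.step hR n
    exact ⟨c2, h2, fun p => (e1 p).trans (e2 p)⟩

lemma State.init (hR : 0 < R) :
    State m M R a b fun p ρ => p.Ψ ρ * ∏ j, p.W j (p.q j ρ) := by
  refine ⟨⟨fun p ρ => iteratedDeriv 0 p.Ψ ρ * ∏ j, iteratedDeriv 0 (p.W j) (p.q j ρ),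
    (Gd.Ψ 0).mul (Gd.prod _ fun j _ => Gd.W j 0), fun p ρ _ => by simp⟩, fun p ρ hρ => ?_⟩
  by_cases h : ρ ∈ Icc a b
  · have h1 : ∃ j, p.y j ρ < Real.cosh R := by
      by_contra hc
      push Not at hc
      exact hρ ⟨h, hc⟩
    obtain ⟨j, hj⟩ := h1
    have h2 : p.W j (p.q j ρ) = 0 := by
      refine p.hW0 j _ ?_
      unfold Par.q
      have := p.y_pos j ρ
      have h3 := (Real.arcosh_lt_arcosh this (Real.cosh_pos R)).2 hj
      rwa [Real.arcosh_cosh hR.le] at h3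
    show p.Ψ ρ * ∏ j, p.W j (p.q j ρ) = 0
    rw [Finset.prod_eq_zero (Finset.mem_univ j) h2, mul_zero]
  · show p.Ψ ρ * ∏ j, p.W j (p.q j ρ) = 0
    rw [p.hΨ0 ρ h, zero_mul]

/-- **the bound for the oscillatory integral** -/
theorem osc (hR : 0 < R) (N : ℕ) : ∃ C : ℝ, 0 ≤ C ∧ ∀ p : Par m M R a b,
    ‖∫ ρ, p.E ρ * (p.Ψ ρ * ∏ j, p.W j (p.q j ρ))‖ ≤ C / (p.t - ∑ j, p.σ j) ^ N := by
  obtain ⟨c, ⟨⟨g, hg, hcg⟩, hc0⟩, he⟩ := (State.init (m := m) (M := M) (R := R) (a := a)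
    (b := b) hR).iter hR N
  obtain ⟨C, hC, hb⟩ := hg.bd hR
  refine ⟨C * |b - a|, by positivity, fun p => ?_⟩
  have hD := p.hD
  rw [he p]
  have h1 : ∀ ρ, ‖p.E ρ * (((p.F ρ : ℝ) : ℂ)⁻¹ ^ N * c p ρ)‖ ≤
      (Icc a b).indicator (fun _ => C / (p.t - ∑ j, p.σ j) ^ N) ρ := by
    intro ρ
    by_cases h : ρ ∈ p.V
    · rw [indicator_of_mem h.1]
      have hU := p.VU hR h
      rw [norm_mul, p.E_norm, one_mul, norm_mul, norm_pow, norm_inv, Complex.norm_real,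
        Real.norm_eq_abs, abs_of_pos (Par.F_pos hU), hcg p ρ hU, div_eq_mul_inv, mul_comm,
        ← inv_pow]
      refine mul_le_mul (hb p ρ hU) ?_ (by have := Par.F_pos hU; positivity) hC
      exact pow_le_pow_left₀ (by have := Par.F_pos hU; positivity)
        (inv_anti₀ hD (Par.F_ge' hU)) N
    · rw [hc0 p ρ h]
      simp only [mul_zero, norm_zero]
      exact indicator_nonneg (fun _ _ => by positivity) _
  refine (norm_integral_le_of_norm_le ?_ (ae_of_all _ h1)).trans ?_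
  · rw [integrable_indicator_iff measurableSet_Icc]
    exact continuousOn_const.integrableOn_Icc
  · rw [integral_indicator measurableSet_Icc, integral_const, smul_eq_mul,
      Measure.real, Measure.restrict_apply MeasurableSet.univ, univ_inter, Real.volume_Icc,
      ENNReal.toReal_ofReal']
    have h3 : max (b - a) 0 ≤ |b - a| := max_le (le_abs_self _) (abs_nonneg _)
    have h4 : 0 ≤ C / (p.t - ∑ j, p.σ j) ^ N := by positivity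
    calc max (b - a) 0 * (C / (p.t - ∑ j, p.σ j) ^ N) ≤ |b - a| * (C / (p.t - ∑ j, p.σ j) ^ N) :=
          mul_le_mul_of_nonneg_right h3 h4
      _ = C * |b - a| / (p.t - ∑ j, p.σ j) ^ N := by ring

end

end Pool.Agent.H22.NS
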