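import Pool.Agent.H22.NS.Geo

/-! # Integration in geodesic polar coordinates (MP_a28cf0_nt) -/

set_option autoImplicit false
open MeasureTheory Filter Topology Metric Set
open scoped ContDiff ENNReal

namespace Pool.Agent.H22.NS

open Pool.Agent.TH298.Sch (X er et norm_X X_cont X_dr X_dt)
open Pool.Agent.X127.HY (HH HH_open D D_open pt cay cay1 pt_im cay_im cay_im_pos den_ne den_sq
  cay_d cay1_norm pt_zero pt_cont pt_smooth)

noncomputable section

lemma ch_cont (w : ℂ) (hw : w ∈ HH) : ContinuousOn (fun z => ch z w) HH := by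
  unfold ch
  refine continuousOn_const.add (ContinuousOn.div (by fun_prop) (by fun_prop) fun z hz => ?_)
  have h1 : 0 < z.im := hz
  have h2 : 0 < w.im := hw
  positivity

lemma dtanh (ρ : ℝ) : HasDerivAt (fun ρ : ℝ => Real.tanh (ρ / 2))
    ((1 - Real.tanh (ρ / 2) ^ 2) / 2) ρ := by
  have h0 := (Real.cosh_pos (ρ / 2)).ne'
  have h1 : HasDerivAt (fun x : ℝ => Real.sinh x / Real.cosh x)
      ((Real.cosh (ρ / 2) * Real.cosh (ρ / 2) - Real.sinh (ρ / 2) * Real.sinh (ρ / 2)) /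
        Real.cosh (ρ / 2) ^ 2) (ρ / 2) :=
    (Real.hasDerivAt_sinh _).fun_div (Real.hasDerivAt_cosh _) h0
  have h2 : HasDerivAt (fun x : ℝ => x / 2) (1 / 2) ρ := (hasDerivAt_id ρ).div_const 2
  have h3 := h1.comp ρ h2
  have e : (fun ρ : ℝ => Real.tanh (ρ / 2)) = (fun x : ℝ => Real.sinh x / Real.cosh x) ∘
      (fun x : ℝ => x / 2) := by
    funext x
    simp only [Function.comp_apply, Real.tanh_eq_sinh_div_cosh]
  rw [e]
  refine h3.congr_deriv ?_
  rw [Real.tanh_eq_sinh_div_cosh]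
  field_simp

lemma tanh_cont : Continuous fun ρ : ℝ => Real.tanh (ρ / 2) :=
  continuous_iff_continuousAt.2 fun ρ => (dtanh ρ).continuousAt

lemma gp_cont (w : ℂ) : Continuous fun p : ℝ × ℝ => gp w p.1 p.2 := by
  have h1 : Continuous fun p : ℝ × ℝ => X (Real.tanh (p.1 / 2)) p.2 :=
    X_cont.comp ((tanh_cont.comp continuous_fst).prodMk continuous_snd)
  exact (pt_cont (z := w)).comp_continuous h1 fun p => X_mem p.1 p.2

lemma supp_bound {w : ℂ} (hw : w ∈ HH) {K : Set ℂ} (hK : IsCompact K) (hKH : K ⊆ HH) :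
    ∃ ρ0 : ℝ, 0 < ρ0 ∧ ∀ ρ θ : ℝ, ρ0 ≤ ρ → gp w ρ θ ∉ K := by
  obtain ⟨C, hC⟩ := (hK.image_of_continuousOn ((ch_cont w hw).mono hKH)).bddAbove
  refine ⟨|C| + 1, by positivity, fun ρ θ hρ hmem => ?_⟩
  have h1 := hC ⟨_, hmem, rfl⟩
  simp only at h1
  rw [ch_gp_self hw] at h1
  have h3 := le_abs_self C
  have h4 : 0 ≤ ρ := by have := abs_nonneg C; linarith
  have h2 := Real.self_le_sinh_iff.2 h4
  have h5 := Real.sinh_lt_cosh ρ
  linarith

lemma F_cont {F : ℂ → ℂ} (hF : ContinuousOn F HH) {K : Set ℂ} (hK : IsCompact K)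
    (hKH : K ⊆ HH) (h0 : ∀ z, z ∉ K → F z = 0) : Continuous F := by
  rw [continuous_iff_continuousAt]
  intro z
  by_cases hz : z ∈ HH
  · exact hF.continuousAt (HH_open.mem_nhds hz)
  · have h1 : z ∉ K := fun h => hz (hKH h)
    have c0 : ContinuousAt (fun _ : ℂ => (0 : ℂ)) z := continuousAt_const
    refine c0.congr ?_
    filter_upwards [hK.isClosed.isOpen_compl.mem_nhds h1] with x hx using (h0 x hx).symm

lemma polar_integrable {w : ℂ} (hw : w ∈ HH) {F : ℂ → ℂ} (hF : ContinuousOn F HH) {K : Set ℂ}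
    (hK : IsCompact K) (hKH : K ⊆ HH) (h0 : ∀ z, z ∉ K → F z = 0) :
    IntegrableOn (fun p : ℝ × ℝ => (Real.sinh p.1 : ℂ) * F (gp w p.1 p.2))
      (Ioi (0 : ℝ) ×ˢ Ioo (-Real.pi) Real.pi) := by
  obtain ⟨ρ0, hρ0, hρ⟩ := supp_bound hw hK hKH
  have hc : Continuous (fun p : ℝ × ℝ => (Real.sinh p.1 : ℂ) * F (gp w p.1 p.2)) :=
    (Complex.continuous_ofReal.comp (Real.continuous_sinh.comp continuous_fst)).mul
      ((F_cont hF hK hKH h0).comp (gp_cont w))
  have h1 : IntegrableOn (fun p : ℝ × ℝ => (Real.sinh p.1 : ℂ) * F (gp w p.1 p.2))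
      (Icc (0 : ℝ) ρ0 ×ˢ Icc (-Real.pi) Real.pi) :=
    hc.continuousOn.integrableOn_compact (isCompact_Icc.prod isCompact_Icc)
  refine h1.of_forall_sdiff_eq_zero (measurableSet_Ioi.prod measurableSet_Ioo) fun p hp => ?_
  have h2 : ρ0 ≤ p.1 := by
    by_contra hc
    push Not at hc
    exact hp.2 ⟨⟨le_of_lt hp.1.1, hc.le⟩, Ioo_subset_Icc_self hp.1.2⟩
  rw [h0 _ (hρ _ _ h2), mul_zero]

lemma pt_inj {w : ℂ} (hw : w ∈ HH) : InjOn (pt w) D := by
  intro u hu b hb h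
  have hw' : (w.im : ℂ) ≠ 0 := by
    have : 0 < w.im := hw
    exact_mod_cast this.ne'
  have h1 : cay u = cay b := by
    unfold pt at h
    exact mul_left_cancel₀ hw' (add_left_cancel h)
  have h2 := cay_sub hu hb
  rw [h1, sub_self] at h2
  have h3 := div_eq_zero_iff.1 h2.symm
  rcases h3 with h3 | h3
  · have := (mul_eq_zero.1 h3).resolve_left two_ne_zero
    exact sub_eq_zero.1 this
  · exact absurd h3 (mul_ne_zero (den_ne hu) (den_ne hb))

lemma pt_image {w : ℂ} (hw : w ∈ HH) : pt w '' D = HH := by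
  ext v
  constructor
  · rintro ⟨u, hu, rfl⟩
    show 0 < (pt w u).im
    rw [pt_im]
    exact mul_pos hw (cay_im_pos hu)
  · intro hv
    obtain ⟨b, hb, h⟩ := pt_surj hw hv
    exact ⟨b, hb, h⟩

/-- the change of variables to disc coordinates -/
lemma disc_int {w : ℂ} (hw : w ∈ HH) (F : ℂ → ℂ) : ∫ z in HH, F z / (z.im : ℂ) ^ 2 =
    ∫ u in D, ((4 / (1 - ‖u‖ ^ 2) ^ 2 : ℝ) : ℂ) * F (pt w u) := by
  have hw' : 0 < w.im := hw
  have hd : ∀ u ∈ D, HasFDerivWithinAt (pt w) ((ContinuousLinearMap.toSpanSingleton ℂ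
      ((w.im : ℂ) * cay1 u)).restrictScalars ℝ) D u := by
    intro u hu
    have h1 : HasDerivAt (pt w) ((w.im : ℂ) * cay1 u) u :=
      ((cay_d hu).const_mul (w.im : ℂ)).const_add (w.re : ℂ)
    exact (h1.hasFDerivAt.restrictScalars ℝ).hasFDerivWithinAt
  have key := integral_image_eq_integral_abs_det_fderiv_smul volume
    D_open.measurableSet hd (pt_inj hw) (fun z => F z / (z.im : ℂ) ^ 2)
  rw [pt_image hw] at key
  rw [key]
  refine setIntegral_congr_fun D_open.measurableSet fun u hu => ?_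
  have hdet : ((ContinuousLinearMap.toSpanSingleton ℂ
      ((w.im : ℂ) * cay1 u)).restrictScalars ℝ).det = (w.im * ‖cay1 u‖) ^ 2 := by
    simp [ContinuousLinearMap.det, LinearMap.det_restrictScalars,
      Algebra.norm_complex_eq, Complex.normSq_eq_norm_sq, mul_pow]
  rw [hdet, abs_of_nonneg (by positivity), pt_im, Complex.real_smul]
  have h1 := cay1_norm hu
  have h2 := cay_im_pos hu
  rw [← h1]
  push_cast
  have h3 : ((cay u).im : ℂ) ≠ 0 := by exact_mod_cast h2.ne'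
  have h4 : (w.im : ℂ) ≠ 0 := by exact_mod_cast hw'.ne'
  field_simp

/-- **integration in geodesic polar coordinates** -/
theorem polar_int {w : ℂ} (hw : w ∈ HH) {F : ℂ → ℂ} (hF : ContinuousOn F HH) {K : Set ℂ}
    (hK : IsCompact K) (hKH : K ⊆ HH) (h0 : ∀ z, z ∉ K → F z = 0) :
    ∫ z in HH, F z / (z.im : ℂ) ^ 2 =
      ∫ θ in Ioo (-Real.pi) Real.pi, ∫ ρ in Ioi (0 : ℝ), (Real.sinh ρ : ℂ) * F (gp w ρ θ) := by
  obtain ⟨ρ0, hρ0, hρ⟩ := supp_bound hw hK hKH
  obtain ⟨r0, hr0⟩ : ∃ r0, r0 = Real.tanh (ρ0 / 2) := ⟨_, rfl⟩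
  have tmono : StrictMono fun ρ : ℝ => Real.tanh (ρ / 2) := by
    refine strictMono_of_hasDerivAt_pos dtanh fun ρ => ?_
    have := tanh_lt ρ
    have h2 : Real.tanh (ρ / 2) ^ 2 < 1 := (sq_lt_one_iff_abs_lt_one _).2 this
    linarith
  have t0 : Real.tanh ((0 : ℝ) / 2) = 0 := by simp
  have himg : (fun ρ : ℝ => Real.tanh (ρ / 2)) '' Ioi 0 = Ioo 0 1 := by
    ext r
    constructor
    · rintro ⟨ρ, h, rfl⟩
      refine ⟨?_, (abs_lt.1 (tanh_lt ρ)).2⟩
      have := tmono h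
      simpa using this
    · intro h
      refine ⟨2 * Real.artanh r, ?_, ?_⟩
      · have := Real.artanh_pos h
        show 0 < 2 * Real.artanh r
        linarith
      · show Real.tanh (2 * Real.artanh r / 2) = r
        rw [mul_div_cancel_left₀ _ two_ne_zero, Real.tanh_artanh ⟨by linarith [h.1], h.2⟩]
  have r01 : r0 < 1 := by rw [hr0]; exact (abs_lt.1 (tanh_lt ρ0)).2
  have r00 : 0 < r0 := by
    rw [hr0]
    have := tmono hρ0
    simpa using this
  -- the function in the disc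
  obtain ⟨G, hG⟩ : ∃ G : ℂ → ℂ, G = fun u => ((4 / (1 - ‖u‖ ^ 2) ^ 2 : ℝ) : ℂ) * F (pt w u) :=
    ⟨_, rfl⟩
  have G0 : ∀ r θ : ℝ, r0 ≤ r → r < 1 → G (X r θ) = 0 := by
    intro r θ h1 h2
    have h3 : r ∈ Ioo (0 : ℝ) 1 := ⟨by linarith, h2⟩
    rw [← himg] at h3
    obtain ⟨ρ, -, rfl⟩ := h3
    have h4 : ρ0 ≤ ρ := by
      rw [hr0] at h1
      exact tmono.le_iff_le.1 h1
    rw [hG]
    show _ * F (gp w ρ θ) = 0
    rw [h0 _ (hρ ρ θ h4), mul_zero]
  have Gc : ContinuousOn G D := by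
    rw [hG]
    refine ContinuousOn.mul (Complex.continuous_ofReal.comp_continuousOn ?_) ?_
    · refine continuousOn_const.div (by fun_prop) fun u hu => ?_
      have hu : ‖u‖ < 1 := hu
      have : 0 < 1 - ‖u‖ ^ 2 := by nlinarith [norm_nonneg u]
      positivity
    · refine hF.comp pt_cont fun u hu => ?_
      rw [← pt_image hw]
      exact ⟨u, hu, rfl⟩
  rw [disc_int hw]
  have e1 : ∫ u in D, ((4 / (1 - ‖u‖ ^ 2) ^ 2 : ℝ) : ℂ) * F (pt w u) = ∫ u, D.indicator G u := by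
    rw [integral_indicator D_open.measurableSet, hG]
  rw [e1, ← Complex.integral_comp_polarCoord_symm]
  have e2 : ∀ p : ℝ × ℝ, Complex.polarCoord.symm p = X p.1 p.2 := by
    intro p
    rw [Complex.polarCoord_symm_apply]
    rfl
  simp only [e2]
  have e3 : polarCoord.target = Ioi (0 : ℝ) ×ˢ Ioo (-Real.pi) Real.pi := rfl
  rw [e3, Measure.volume_eq_prod, ← setIntegral_prod_swap]
  have Xn : ∀ r θ : ℝ, 0 < r → (X r θ ∈ D ↔ r < 1) := by
    intro r θ hr
    show ‖X r θ‖ < 1 ↔ r < 1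
    rw [norm_X, abs_of_pos hr]
  have hint : IntegrableOn (fun p : ℝ × ℝ => p.swap.1 • D.indicator G (X p.swap.1 p.swap.2))
      (Ioo (-Real.pi) Real.pi ×ˢ Ioi (0 : ℝ)) (volume.prod volume) := by
    have c1 : ContinuousOn (fun p : ℝ × ℝ => p.swap.1 • D.indicator G (X p.swap.1 p.swap.2))
        (Icc (-Real.pi) Real.pi ×ˢ Icc (0 : ℝ) r0) := by
      have c2 : ContinuousOn (fun p : ℝ × ℝ => p.2 • G (X p.2 p.1))
          (Icc (-Real.pi) Real.pi ×ˢ Icc (0 : ℝ) r0) := by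
        refine continuous_snd.continuousOn.smul (Gc.comp (X_cont.comp
          (continuous_snd.prodMk continuous_fst)).continuousOn fun p hp => ?_)
        show ‖X p.2 p.1‖ < 1
        rw [norm_X, abs_of_nonneg hp.2.1]
        linarith [hp.2.2]
      refine c2.congr fun p hp => ?_
      have hm : X p.2 p.1 ∈ D := by
        show ‖X p.2 p.1‖ < 1
        rw [norm_X, abs_of_nonneg hp.2.1]
        linarith [hp.2.2]
      simp only [Prod.fst_swap, Prod.snd_swap, indicator_of_mem hm]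
    have c3 := c1.integrableOn_compact (μ := volume.prod volume) (isCompact_Icc.prod isCompact_Icc)
    refine c3.of_forall_sdiff_eq_zero (measurableSet_Ioo.prod measurableSet_Ioi) fun p hp => ?_
    have h2 : r0 ≤ p.2 := by
      by_contra hc
      push Not at hc
      exact hp.2 ⟨Ioo_subset_Icc_self hp.1.1, ⟨le_of_lt hp.1.2, hc.le⟩⟩
    simp only [Prod.fst_swap, Prod.snd_swap]
    by_cases h3 : p.2 < 1
    · rw [indicator_of_mem ((Xn _ _ hp.1.2).2 h3), G0 _ _ h2 h3, smul_zero]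
    · rw [indicator_of_notMem (fun h => h3 ((Xn _ _ hp.1.2).1 h)), smul_zero]
  rw [setIntegral_prod _ hint]
  refine integral_congr_ae (ae_of_all _ fun θ => ?_)
  simp only [Prod.swap_prod_mk]
  -- the substitution `r = tanh (ρ / 2)`
  have e4 : ∫ r in Ioi (0 : ℝ), r • D.indicator G (X r θ) = ∫ r in Ioo (0 : ℝ) 1, r • G (X r θ) := by
    rw [← integral_indicator measurableSet_Ioi, ← integral_indicator measurableSet_Ioo]
    congr 1
    funext r
    by_cases h1 : 0 < r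
    · by_cases h2 : r < 1
      · rw [indicator_of_mem (show r ∈ Ioi (0 : ℝ) from h1), indicator_of_mem (show r ∈ Ioo (0 : ℝ) 1
          from ⟨h1, h2⟩), indicator_of_mem ((Xn r θ h1).2 h2)]
      · rw [indicator_of_mem (show r ∈ Ioi (0 : ℝ) from h1), indicator_of_notMem
          (show r ∉ Ioo (0 : ℝ) 1 from fun h => h2 h.2),
          indicator_of_notMem (show X r θ ∉ D from fun h => h2 ((Xn r θ h1).1 h)), smul_zero]
    · rw [indicator_of_notMem (show r ∉ Ioi (0 : ℝ) from h1), indicator_of_notMem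
          (show r ∉ Ioo (0 : ℝ) 1 from fun h => h1 h.1)]
  rw [e4, ← himg]
  have key := integral_image_eq_integral_abs_deriv_smul (s := Ioi (0 : ℝ)) measurableSet_Ioi
    (fun x _ => (dtanh x).hasDerivWithinAt) (tmono.injective.injOn) (fun r => r • G (X r θ))
  rw [key]
  refine setIntegral_congr_fun measurableSet_Ioi fun ρ hρ => ?_
  have h1 : Real.tanh (ρ / 2) ^ 2 < 1 := (sq_lt_one_iff_abs_lt_one _).2 (tanh_lt ρ)
  have h2 : 0 < 1 - Real.tanh (ρ / 2) ^ 2 := by linarith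
  rw [abs_of_pos (by linarith), ← half_sinh ρ, hG]
  show ((1 - Real.tanh (ρ / 2) ^ 2) / 2) • (Real.tanh (ρ / 2) •
    (((4 / (1 - ‖X (Real.tanh (ρ / 2)) θ‖ ^ 2) ^ 2 : ℝ) : ℂ) * F (gp w ρ θ))) = _
  rw [norm_X, sq_abs, Complex.real_smul, Complex.real_smul, ← mul_assoc, ← mul_assoc]
  congr 1
  rw [← Complex.ofReal_mul, ← Complex.ofReal_mul]
  congr 1
  field_simp
  ring

end

end Pool.Agent.H22.NS
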