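import Pool.Agent.H22.NS.Kern

/-! # The reproducing formula and the reduction to the kernels (MP_a28cf0_nt) -/

set_option autoImplicit false
open MeasureTheory Filter Topology Metric Set
open scoped ContDiff ENNReal

namespace Pool.Agent.H22.NS

open Pool.Agent.TH298.Sch (X er et norm_X X_cont X_dr X_dt)
open Pool.Agent.X127.PB (lp)
open Pool.Agent.X127.HY (HH HH_open D D_open pt cay cay1 pt_im cay_im cay_im_pos den_ne den_sq
  cay_d cay1_norm pt_zero pt_cont pt_smooth pt_I cay_smooth cay_zero)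

noncomputable section

/-- the reproducing kernel as a function of the distance -/
def kk (s q : ℝ) : ℂ := Complex.exp (-(Complex.I * (sg s * q : ℝ))) * WW s q

lemma kk_cont (s : ℝ) : Continuous (kk s) := by
  unfold kk
  have := (WW_sm s).continuous
  fun_prop

lemma kk_zero (s : ℝ) {q : ℝ} (h : q ≤ 1 / 4 ∨ 2 ≤ q) : kk s q = 0 := by
  unfold kk
  rw [WW_zero s h, mul_zero]

lemma ch_cont2 : ContinuousOn (fun p : ℂ × ℂ => ch p.1 p.2) (HH ×ˢ HH) := by
  unfold ch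
  refine continuousOn_const.add (ContinuousOn.div (by fun_prop) (by fun_prop) fun z hz => ?_)
  have h1 : 0 < z.1.im := hz.1
  have h2 : 0 < z.2.im := hz.2
  positivity

lemma dd_cont2 : ContinuousOn (fun p : ℂ × ℂ => dd p.1 p.2) (HH ×ˢ HH) :=
  Real.continuousOn_arcosh.comp ch_cont2 fun _ hp => ch_ge hp.1 hp.2

lemma dd_cont {w : ℂ} (hw : w ∈ HH) : ContinuousOn (fun z => dd z w) HH :=
  dd_cont2.comp (f := fun z : ℂ => (z, w)) (by fun_prop) fun _ hz => ⟨hz, hw⟩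

lemma dd_gp {w : ℂ} (hw : w ∈ HH) {ρ : ℝ} (h : 0 ≤ ρ) (θ : ℝ) : dd (gp w ρ θ) w = ρ := by
  unfold dd
  rw [ch_gp_self hw, Real.arcosh_cosh h]

lemma tanh_smooth : ContDiff ℝ ∞ fun ρ : ℝ => Real.tanh (ρ / 2) := by
  have h : (fun ρ : ℝ => Real.tanh (ρ / 2)) = fun ρ => Real.sinh (ρ / 2) / Real.cosh (ρ / 2) := by
    funext ρ
    rw [Real.tanh_eq_sinh_div_cosh]
  rw [h]
  have h2 : ContDiff ℝ ∞ fun ρ : ℝ => ρ / 2 := contDiff_id.div_const 2
  exact (Real.contDiff_sinh.comp h2).div (Real.contDiff_cosh.comp h2)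
    fun ρ => (Real.cosh_pos _).ne'

lemma X_smooth : ContDiff ℝ ∞ fun p : ℝ × ℝ => X p.1 p.2 := by
  unfold X
  have c : ContDiff ℝ ∞ fun p : ℝ × ℝ => ((Real.cos p.2 : ℝ) : ℂ) :=
    Complex.ofRealCLM.contDiff.comp (Real.contDiff_cos.comp contDiff_snd)
  have s : ContDiff ℝ ∞ fun p : ℝ × ℝ => ((Real.sin p.2 : ℝ) : ℂ) :=
    Complex.ofRealCLM.contDiff.comp (Real.contDiff_sin.comp contDiff_snd)
  have r : ContDiff ℝ ∞ fun p : ℝ × ℝ => ((p.1 : ℝ) : ℂ) :=
    Complex.ofRealCLM.contDiff.comp contDiff_fst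
  exact r.mul (c.add (s.mul contDiff_const))

lemma cgp_smooth : ContDiff ℝ ∞ fun p : ℝ × ℝ => cay (X (Real.tanh (p.1 / 2)) p.2) := by
  have h1 : ContDiff ℝ ∞ fun p : ℝ × ℝ => X (Real.tanh (p.1 / 2)) p.2 :=
    X_smooth.comp ((tanh_smooth.comp contDiff_fst).prodMk contDiff_snd)
  rw [contDiff_iff_contDiffAt]
  intro p
  exact (cay_smooth.contDiffAt (D_open.mem_nhds (X_mem p.1 p.2))).comp p h1.contDiffAt

/-- the geodesic polar coordinates depend smoothly on the centre too -/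
lemma gp_smooth3 : ContDiff ℝ ∞ fun p : (ℂ × ℝ) × ℝ => gp p.1.1 p.2 p.1.2 := by
  have h0 : ContDiff ℝ ∞ fun p : (ℂ × ℝ) × ℝ => ((p.2, p.1.2) : ℝ × ℝ) :=
    contDiff_snd.prodMk (contDiff_snd.comp contDiff_fst)
  have h1 := ContDiff.comp (f := fun p : (ℂ × ℝ) × ℝ => ((p.2, p.1.2) : ℝ × ℝ)) cgp_smooth h0
  have h4 : ContDiff ℝ ∞ fun p : (ℂ × ℝ) × ℝ => p.1.1 := contDiff_fst.comp contDiff_fst
  have h2 : ContDiff ℝ ∞ fun p : (ℂ × ℝ) × ℝ => (Complex.ofRealCLM (Complex.reCLM p.1.1)) :=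
    Complex.ofRealCLM.contDiff.comp (Complex.reCLM.contDiff.comp h4)
  have h3 : ContDiff ℝ ∞ fun p : (ℂ × ℝ) × ℝ => (Complex.ofRealCLM (Complex.imCLM p.1.1)) :=
    Complex.ofRealCLM.contDiff.comp (Complex.imCLM.contDiff.comp h4)
  have h5 := h2.add (h3.mul h1)
  exact h5

lemma gp_surj {z w : ℂ} (hz : z ∈ HH) (hw : w ∈ HH) :
    ∃ ρ θ : ℝ, 0 ≤ ρ ∧ θ ∈ Icc (-Real.pi) Real.pi ∧ gp z ρ θ = w := by
  obtain ⟨b, hb, rfl⟩ := pt_surj hz hw
  have hb' : ‖b‖ < 1 := hb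
  refine ⟨2 * Real.artanh ‖b‖, Complex.arg b, ?_, ⟨(Complex.neg_pi_lt_arg b).le,
    Complex.arg_le_pi b⟩, ?_⟩
  · have := Real.artanh_nonneg (x := ‖b‖) (norm_nonneg b)
    linarith
  · unfold gp
    rw [mul_div_cancel_left₀ _ two_ne_zero, Real.tanh_artanh ⟨by linarith [norm_nonneg b], hb'⟩]
    congr 1
    unfold X
    have := Complex.norm_mul_cos_add_sin_mul_I b
    push_cast
    exact this

/-- the closed neighbourhood of radius `2` of a set -/
def nb (K : Set ℂ) : Set ℂ :=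
  (fun p : (ℂ × ℝ) × ℝ => gp p.1.1 p.2 p.1.2) '' ((K ×ˢ Icc (-Real.pi) Real.pi) ×ˢ Icc 0 2)

lemma nb_compact {K : Set ℂ} (hK : IsCompact K) : IsCompact (nb K) :=
  ((hK.prod isCompact_Icc).prod isCompact_Icc).image gp_smooth3.continuous

lemma nb_sub {K : Set ℂ} (hKH : K ⊆ HH) : nb K ⊆ HH := by
  rintro _ ⟨⟨⟨z, θ⟩, ρ⟩, h, rfl⟩
  exact gp_mem (hKH h.1.1) _ _

lemma nb_mem {K : Set ℂ} (hKH : K ⊆ HH) {z w : ℂ} (hz : z ∈ K) (hw : w ∈ HH)
    (h : dd w z ≤ 2) : w ∈ nb K := by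
  obtain ⟨ρ, θ, h0, h1, rfl⟩ := gp_surj (hKH hz) hw
  rw [dd_gp (hKH hz) h0] at h
  exact ⟨((z, θ), ρ), ⟨⟨hz, h1⟩, ⟨h0, h⟩⟩, rfl⟩

/-- **the reproducing formula** -/
theorem repro {g : ℂ → ℝ} (hg : ContDiffOn ℝ ∞ g HH) {s : ℝ}
    (he : ∀ z ∈ HH, -(z.im ^ 2 * lp g z) = (1 / 4 + s ^ 2) * g z) {z : ℂ} (hz : z ∈ HH) :
    ∫ w in HH, kk s (dd w z) * (g w : ℂ) / (w.im : ℂ) ^ 2 = 2 * Real.pi * cc s * (g z : ℂ) := by
  have hKH : ({z} : Set ℂ) ⊆ HH := singleton_subset_iff.2 hz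
  obtain ⟨F, hFd⟩ : ∃ F : ℂ → ℂ, F = HH.indicator fun w => kk s (dd w z) * (g w : ℂ) := ⟨_, rfl⟩
  have hF1 : ∀ w ∈ HH, F w = kk s (dd w z) * (g w : ℂ) := fun w hw => by
    rw [hFd, indicator_of_mem hw]
  have hF : ContinuousOn F HH := by
    refine ContinuousOn.congr ?_ hF1
    exact ((kk_cont s).comp_continuousOn (dd_cont hz)).mul
      (Complex.continuous_ofReal.comp_continuousOn hg.continuousOn)
  have h0 : ∀ w, w ∉ nb {z} → F w = 0 := by
    intro w hw
    rw [hFd]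
    by_cases h : w ∈ HH
    · rw [indicator_of_mem h]
      have h2 : 2 ≤ dd w z := by
        by_contra hc
        push Not at hc
        exact hw (nb_mem hKH (mem_singleton z) h hc.le)
      rw [kk_zero s (Or.inr h2), zero_mul]
    · rw [indicator_of_notMem h]
  have hK := nb_compact (isCompact_singleton (x := z))
  have e1 : ∫ w in HH, kk s (dd w z) * (g w : ℂ) / (w.im : ℂ) ^ 2 =
      ∫ w in HH, F w / (w.im : ℂ) ^ 2 :=
    setIntegral_congr_fun HH_open.measurableSet fun w hw => by rw [hF1 w hw]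
  have hI : Integrable (Function.uncurry fun ρ θ : ℝ => (Real.sinh ρ : ℂ) * F (gp z ρ θ))
      ((volume.restrict (Ioi 0)).prod (volume.restrict (Ioo (-Real.pi) Real.pi))) := by
    rw [Measure.prod_restrict]
    exact polar_integrable hz hF hK (nb_sub hKH) h0
  rw [e1, polar_int hz hF hK (nb_sub hKH) h0, ← integral_integral_swap hI]
  have e2 : ∀ ρ ∈ Ioi (0 : ℝ), (∫ θ in Ioo (-Real.pi) Real.pi, (Real.sinh ρ : ℂ) * F (gp z ρ θ)) =
      (Real.sinh ρ : ℂ) * (Complex.exp (-(Complex.I * (sg s * ρ : ℝ))) * WW s ρ * (sf s ρ : ℂ)) *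
        (2 * Real.pi * (g z : ℂ)) := by
    intro ρ hρ
    have hρ : 0 < ρ := hρ
    have e3 : ∀ θ : ℝ, (Real.sinh ρ : ℂ) * F (gp z ρ θ) =
        ((Real.sinh ρ : ℂ) * kk s ρ) * ((g (gp z ρ θ) : ℝ) : ℂ) := by
      intro θ
      rw [hF1 _ (gp_mem hz ρ θ), dd_gp hz hρ.le]
      ring
    simp only [e3]
    rw [integral_const_mul, ← integral_Ioc_eq_integral_Ioo,
      ← intervalIntegral.integral_of_le (by linarith [Real.pi_pos]), intervalIntegral.integral_ofReal,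
      mean_value hg he hz hρ]
    unfold kk
    push_cast
    ring
  rw [setIntegral_congr_fun measurableSet_Ioi e2, integral_mul_const]
  unfold cc
  ring

/-- **the reduction to the kernels** -/
theorem reduce {ι : Type} [Fintype ι] {A : ℂ → ℂ} (hA : Continuous A) {K : Set ℂ}
    (hK : IsCompact K) (hKH : K ⊆ HH) {s : ι → ℝ} {g : ι → ℂ → ℝ}
    (hg : ∀ i, ContDiffOn ℝ ∞ (g i) HH)
    (he : ∀ i, ∀ z ∈ HH, -(z.im ^ 2 * lp (g i) z) = (1 / 4 + s i ^ 2) * g i z) {E : ℝ}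
    (hE : ∀ w : ι → ℂ, (∀ i, w i ∈ nb K) →
      ‖∫ z in K, A z / (z.im : ℂ) ^ 2 * ∏ i, kk (s i) (dd (w i) z)‖ ≤ E) :
    (∏ i, ‖2 * Real.pi * cc (s i)‖) * ‖∫ z in K, A z / (z.im : ℂ) ^ 2 * ∏ i, (g i z : ℂ)‖ ≤
      E * ∏ i, ∫ w in nb K, |g i w| / w.im ^ 2 := by
  have hN := nb_compact hK
  have hNH := nb_sub hKH
  obtain ⟨k, hk⟩ : ∃ k : ι → ℂ → ℂ → ℂ,
      k = fun i z w => kk (s i) (dd w z) * (g i w : ℂ) / (w.im : ℂ) ^ 2 := ⟨_, rfl⟩
  -- the single reproducing formulas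
  have r1 : ∀ i, ∀ z ∈ K, ∫ w in nb K, k i z w = 2 * Real.pi * cc (s i) * (g i z : ℂ) := by
    intro i z hz
    rw [← repro (hg i) (he i) (hKH hz), hk]
    refine (setIntegral_eq_of_subset_of_forall_sdiff_eq_zero HH_open.measurableSet hNH ?_).symm
    intro w hw
    have h2 : 2 ≤ dd w z := by
      by_contra hc
      push Not at hc
      exact hw.2 (nb_mem hKH hz hw.1 hc.le)
    show kk (s i) (dd w z) * (g i w : ℂ) / (w.im : ℂ) ^ 2 = 0
    rw [kk_zero _ (Or.inr h2)]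
    simp
  have e0 : (Measure.pi fun _ : ι => (volume : Measure ℂ).restrict (nb K)) =
      (volume : Measure (ι → ℂ)).restrict (univ.pi fun _ => nb K) := by
    rw [volume_pi, Measure.restrict_pi_pi]
  have hNN : IsCompact (univ.pi fun _ : ι => nb K) := isCompact_univ_pi fun _ => hN
  -- the product
  have e1 : (∏ i, (2 * Real.pi * cc (s i))) * ∫ z in K, A z / (z.im : ℂ) ^ 2 * ∏ i, (g i z : ℂ) =
      ∫ z in K, ∫ w in univ.pi fun _ : ι => nb K, A z / (z.im : ℂ) ^ 2 * ∏ i, k i z (w i) := by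
    rw [← integral_const_mul]
    refine setIntegral_congr_fun hK.measurableSet fun z hz => ?_
    rw [integral_const_mul, ← e0, integral_fintype_prod_eq_prod (fun i w => k i z w)]
    have e5 : ∏ i, (2 * Real.pi * cc (s i) * (g i z : ℂ)) =
        (∏ i, (2 * Real.pi * cc (s i))) * ∏ i, (g i z : ℂ) := Finset.prod_mul_distrib
    rw [Finset.prod_congr rfl fun i _ => r1 i z hz, e5]
    ring
  have hint : Integrable (Function.uncurry fun (z : ℂ) (w : ι → ℂ) =>
      A z / (z.im : ℂ) ^ 2 * ∏ i, k i z (w i))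
      ((volume.restrict K).prod (volume.restrict (univ.pi fun _ : ι => nb K))) := by
    rw [Measure.prod_restrict]
    refine ContinuousOn.integrableOn_compact (hK.prod hNN) ?_
    refine ContinuousOn.mul ?_ ?_
    · refine ContinuousOn.div (hA.comp continuous_fst).continuousOn ?_ fun p hp => ?_
      · exact Continuous.continuousOn (by fun_prop)
      · have : 0 < p.1.im := hKH hp.1
        have h2 : (p.1.im : ℂ) ≠ 0 := by exact_mod_cast this.ne'
        exact pow_ne_zero 2 h2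
    · refine continuousOn_finsetProd _ fun i _ => ?_
      rw [hk]
      have hw : ∀ p ∈ K ×ˢ (univ.pi fun _ : ι => nb K), p.2 i ∈ HH := fun p hp =>
        hNH (hp.2 i (mem_univ i))
      refine ContinuousOn.div (ContinuousOn.mul ?_ ?_) ?_ fun p hp => ?_
      · refine (kk_cont _).comp_continuousOn ?_
        exact dd_cont2.comp (f := fun p : ℂ × (ι → ℂ) => (p.2 i, p.1)) (by fun_prop)
          fun p hp => ⟨hw p hp, hKH hp.1⟩
      · refine Complex.continuous_ofReal.comp_continuousOn ?_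
        exact (hg i).continuousOn.comp (f := fun p : ℂ × (ι → ℂ) => p.2 i) (by fun_prop) hw
      · exact Continuous.continuousOn (by fun_prop)
      · have : 0 < (p.2 i).im := hw p hp
        have h2 : ((p.2 i).im : ℂ) ≠ 0 := by exact_mod_cast this.ne'
        exact pow_ne_zero 2 h2
  rw [integral_integral_swap hint] at e1
  have e2 : ∀ w : ι → ℂ, ∫ z in K, A z / (z.im : ℂ) ^ 2 * ∏ i, k i z (w i) =
      (∏ i, (g i (w i) : ℂ) / ((w i).im : ℂ) ^ 2) *
        ∫ z in K, A z / (z.im : ℂ) ^ 2 * ∏ i, kk (s i) (dd (w i) z) := by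
    intro w
    rw [← integral_const_mul]
    refine integral_congr_ae (ae_of_all _ fun z => ?_)
    simp only
    have : ∏ i, k i z (w i) = (∏ i, (g i (w i) : ℂ) / ((w i).im : ℂ) ^ 2) *
        ∏ i, kk (s i) (dd (w i) z) := by
      rw [← Finset.prod_mul_distrib, hk]
      refine Finset.prod_congr rfl fun i _ => ?_
      ring
    rw [this]
    ring
  have h3 : ‖(∏ i, (2 * Real.pi * cc (s i))) *
      ∫ z in K, A z / (z.im : ℂ) ^ 2 * ∏ i, (g i z : ℂ)‖ ≤
      ∫ w in univ.pi fun _ : ι => nb K, E * ∏ i, (|g i (w i)| / (w i).im ^ 2) := by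
    rw [e1]
    refine norm_integral_le_of_norm_le ?_ ?_
    · refine ContinuousOn.integrableOn_compact hNN ?_
      refine continuousOn_const.mul (continuousOn_finsetProd _ fun i _ => ?_)
      have hw : ∀ w ∈ (univ.pi fun _ : ι => nb K), w i ∈ HH := fun w hw => hNH (hw i (mem_univ i))
      refine ContinuousOn.div ?_ (Continuous.continuousOn (by fun_prop)) fun w hw' => ?_
      · exact ((hg i).continuousOn.comp (f := fun w : ι → ℂ => w i) (by fun_prop) hw).abs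
      · have : 0 < (w i).im := hw w hw'
        positivity
    · refine (ae_restrict_mem hNN.measurableSet).mono fun w hw => ?_
      have h4 : ∀ i, w i ∈ nb K := fun i => hw i (mem_univ i)
      rw [e2 w, norm_mul, mul_comm E, norm_prod]
      refine mul_le_mul (le_of_eq ?_) (hE w h4) (norm_nonneg _)
        (Finset.prod_nonneg fun i _ => by positivity)
      refine Finset.prod_congr rfl fun i _ => ?_
      rw [norm_div, norm_pow, Complex.norm_real, Complex.norm_real, Real.norm_eq_abs,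
        Real.norm_eq_abs, sq_abs]
  rw [norm_mul, norm_prod] at h3
  refine h3.trans (le_of_eq ?_)
  rw [integral_const_mul, ← e0,
    integral_fintype_prod_eq_prod (fun (i : ι) (w : ℂ) => |g i w| / w.im ^ 2)]

end

end Pool.Agent.H22.NS
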