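import Pool.Agent.H22.NS.Pol

/-! # The spherical function on the hyperbolic plane (MP_a28cf0_nt) -/

set_option autoImplicit false
open MeasureTheory Filter Topology Metric Set
open scoped ContDiff ENNReal

namespace Pool.Agent.H22.NS

open Pool.Agent.TH298.Sch (X er et norm_X X_cont X_dr X_dt)
open Pool.Agent.X127.PB (lp)
open Pool.Agent.X127.HY (HH HH_open D D_open pt cay cay1 pt_im cay_im cay_im_pos den_ne den_sq
  cay_d cay1_norm pt_zero pt_cont pt_smooth pt_I ef ef_smooth ef_lp ph mv sol I0 I1 I2 dI0 dI1 pol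
  ext lp_congr cay_smooth cay_zero)

noncomputable section

/-- the spherical function at the distance `ρ` -/
def sf (s ρ : ℝ) : ℝ := ph s (Real.tanh (ρ / 2))

lemma tanh_pos' {ρ : ℝ} (h : 0 < ρ) : 0 < Real.tanh (ρ / 2) := by
  rw [Real.tanh_eq_sinh_div_cosh]
  exact div_pos (Real.sinh_pos_iff.2 (by linarith)) (Real.cosh_pos _)

/-- the mean value property in geodesic polar coordinates -/
lemma mean_value {f : ℂ → ℝ} (hf : ContDiffOn ℝ ∞ f HH) {s : ℝ}
    (he : ∀ z ∈ HH, -(z.im ^ 2 * lp f z) = (1 / 4 + s ^ 2) * f z) {z : ℂ} (hz : z ∈ HH)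
    {ρ : ℝ} (h : 0 < ρ) :
    ∫ θ in (-Real.pi)..Real.pi, f (gp z ρ θ) = 2 * Real.pi * sf s ρ * f z := by
  refine mv HH_open subset_rfl hf he hz (tanh_pos' h) (abs_lt.1 (tanh_lt ρ)).2 fun w hw => ?_
  have : w ∈ D := lt_of_le_of_lt hw (abs_lt.1 (tanh_lt ρ)).2
  rw [← pt_image hz]
  exact ⟨w, this, rfl⟩

/-- the differential equation of the spherical function -/
lemma sf_ode (s : ℝ) : ∃ f1 f2 : ℝ → ℝ, ∀ ρ : ℝ, 0 < ρ → ρ < 4 →
    HasDerivAt (sf s) (f1 ρ) ρ ∧ HasDerivAt f1 (f2 ρ) ρ ∧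
      f2 ρ + Real.cosh ρ / Real.sinh ρ * f1 ρ + (1 / 4 + s ^ 2) * sf s ρ = 0 := by
  obtain ⟨R, hR⟩ : ∃ R, R = Real.tanh (4 / 2) := ⟨_, rfl⟩
  have R0 : 0 < R := by rw [hR]; exact tanh_pos' (by norm_num)
  have R1 : R < 1 := by rw [hR]; exact (abs_lt.1 (tanh_lt 4)).2
  have hsm : ContDiffOn ℝ ∞ (fun w => ef s (cay w)) D :=
    (ef_smooth s).comp cay_smooth fun w hw => cay_im_pos hw
  have hball : closedBall (0 : ℂ) R ⊆ D := fun w hw => by
    rw [mem_closedBall, dist_zero_right] at hw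
    exact lt_of_le_of_lt hw R1
  obtain ⟨v, sv, ev⟩ := ext D_open hsm R0 hball
  have e0 : ∀ r : ℝ, 0 ≤ r → r ≤ R → I0 (fun w => ef s (cay w)) r = I0 v r := by
    intro r h1 h2
    unfold Pool.Agent.X127.HY.I0
    refine intervalIntegral.integral_congr fun θ _ => ?_
    exact ((ev (X r θ) (by rw [norm_X, abs_of_nonneg h1]; exact h2)).self_of_nhds).symm
  have tm : ∀ ρ : ℝ, 0 < ρ → ρ < 4 → 0 < Real.tanh (ρ / 2) ∧ Real.tanh (ρ / 2) < R := by
    intro ρ h1 h2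
    refine ⟨tanh_pos' h1, ?_⟩
    have tmono : StrictMono fun ρ : ℝ => Real.tanh (ρ / 2) := by
      refine strictMono_of_hasDerivAt_pos dtanh fun ρ => ?_
      have h2 : Real.tanh (ρ / 2) ^ 2 < 1 := (sq_lt_one_iff_abs_lt_one _).2 (tanh_lt ρ)
      linarith
    rw [hR]
    exact tmono h2
  have hlp : ∀ x : ℂ, ‖x‖ ≤ R → lp v x = -((1 / 4 + s ^ 2) * (4 / (1 - ‖x‖ ^ 2) ^ 2) * v x) := by
    intro x hx
    have hxD : x ∈ D := lt_of_le_of_lt hx R1
    rw [lp_congr (ev x hx), (ev x hx).self_of_nhds]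
    have h1 := sol HH_open subset_rfl (ef_smooth s) (fun z hz => ef_lp s hz)
      (z := Complex.I) (by show (0 : ℝ) < Complex.I.im; simp) hxD
      (by rw [pt_I]; exact cay_im_pos hxD)
    simp only [pt_I] at h1
    exact h1
  refine ⟨fun ρ => (2 * Real.pi)⁻¹ * (I1 v (Real.tanh (ρ / 2)) *
    ((1 - Real.tanh (ρ / 2) ^ 2) / 2)), fun ρ => (2 * Real.pi)⁻¹ *
      (I2 v (Real.tanh (ρ / 2)) * ((1 - Real.tanh (ρ / 2) ^ 2) / 2) ^ 2 +
        I1 v (Real.tanh (ρ / 2)) * (-(Real.tanh (ρ / 2) * ((1 - Real.tanh (ρ / 2) ^ 2) / 2)))),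
    fun ρ h1 h2 => ?_⟩
  obtain ⟨t0, tR⟩ := tm ρ h1 h2
  have pp := Real.pi_pos
  refine ⟨?_, ?_, ?_⟩
  · have h3 : HasDerivAt (fun ρ => (2 * Real.pi)⁻¹ * I0 v (Real.tanh (ρ / 2)))
        ((2 * Real.pi)⁻¹ * (I1 v (Real.tanh (ρ / 2)) * ((1 - Real.tanh (ρ / 2) ^ 2) / 2))) ρ :=
      ((dI0 sv _).comp ρ (dtanh ρ)).const_mul _
    refine h3.congr_of_eventuallyEq ?_
    filter_upwards [isOpen_Ioo.mem_nhds (show ρ ∈ Ioo (0 : ℝ) 4 from ⟨h1, h2⟩)] with x hx
    obtain ⟨a1, a2⟩ := tm x hx.1 hx.2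
    unfold sf Pool.Agent.X127.HY.ph
    rw [e0 _ a1.le a2.le]
  · have h3 := ((((dI1 sv _).comp ρ (dtanh ρ)).mul
      (((dtanh ρ).pow 2).const_sub 1 |>.div_const 2)).const_mul ((2 * Real.pi)⁻¹))
    refine h3.congr_deriv ?_
    simp only [Function.comp_apply, Pi.pow_apply]
    push_cast
    ring
  · have p := pol sv (Real.tanh (ρ / 2))
    have e5 : ∫ θ in (-Real.pi)..Real.pi, lp v (X (Real.tanh (ρ / 2)) θ) =
        -((1 / 4 + s ^ 2) * (4 / (1 - Real.tanh (ρ / 2) ^ 2) ^ 2) * I0 v (Real.tanh (ρ / 2))) := by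
      unfold Pool.Agent.X127.HY.I0
      rw [← intervalIntegral.integral_const_mul, ← intervalIntegral.integral_neg]
      refine intervalIntegral.integral_congr fun θ _ => ?_
      show lp v (X _ θ) = _
      rw [hlp _ (by rw [norm_X, abs_of_pos t0]; exact tR.le), norm_X, abs_of_pos t0]
    rw [e5] at p
    have e6 : sf s ρ = (2 * Real.pi)⁻¹ * I0 v (Real.tanh (ρ / 2)) := by
      unfold sf Pool.Agent.X127.HY.ph
      rw [e0 _ t0.le tR.le]
    rw [e6, ← half_cosh, ← half_sinh]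
    beta_reduce
    obtain ⟨r, hr⟩ : ∃ r, r = Real.tanh (ρ / 2) := ⟨_, rfl⟩
    rw [← hr] at p t0 tR ⊢
    have r2 : 0 < 1 - r ^ 2 := by nlinarith
    have p' : I2 v r = -(I1 v r / r) - (1 / 4 + s ^ 2) * (4 / (1 - r ^ 2) ^ 2) * I0 v r := by
      field_simp at p ⊢
      linear_combination p
    rw [p']
    field_simp
    ring

lemma log_im {ρ : ℝ} (h : 0 < ρ) (θ : ℝ) : |Real.log (cay (X (Real.tanh (ρ / 2)) θ)).im| ≤ ρ := by
  have hI : Complex.I ∈ HH := by show (0 : ℝ) < Complex.I.im; simp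
  have h1 := ch_gp_self hI ρ θ
  have h2 := gp_mem hI ρ θ
  have e : gp Complex.I ρ θ = cay (X (Real.tanh (ρ / 2)) θ) := by unfold gp; rw [pt_I]
  rw [e] at h1 h2
  obtain ⟨z, hz⟩ : ∃ z, z = cay (X (Real.tanh (ρ / 2)) θ) := ⟨_, rfl⟩
  rw [← hz] at h1 h2 ⊢
  have y0 : 0 < z.im := h2
  have h3 : Real.cosh (Real.log z.im) ≤ Real.cosh ρ := by
    rw [Real.cosh_log y0, ← h1]
    unfold ch
    rw [Complex.sq_norm, Complex.normSq_apply]
    simp only [Complex.sub_re, Complex.sub_im, Complex.I_re, Complex.I_im, sub_zero, mul_one]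
    rw [div_le_iff₀ (by norm_num)]
    field_simp
    nlinarith [sq_nonneg z.re]
  have h4 := Real.cosh_le_cosh.1 h3
  rwa [abs_of_pos h] at h4

/-- a lower bound for the spherical function -/
lemma sf_low {s ρ : ℝ} (hs : 0 ≤ s) (h0 : 0 < ρ) (h1 : ρ ≤ 1) (h2 : s * ρ ≤ 1) :
    3 / 10 ≤ sf s ρ := by
  have pp := Real.pi_pos
  have hlow : ∀ θ, 3 / 10 ≤ ef s (cay (X (Real.tanh (ρ / 2)) θ)) := by
    intro θ
    have h3 := log_im h0 θ
    unfold ef
    obtain ⟨L, hL⟩ : ∃ L, L = Real.log (cay (X (Real.tanh (ρ / 2)) θ)).im := ⟨_, rfl⟩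
    rw [← hL] at h3 ⊢
    have h4 : 3 / 5 ≤ Real.exp (L / 2) := by
      have h5 : Real.exp (-(1 / 2)) ≤ Real.exp (L / 2) := by
        rw [Real.exp_le_exp]
        have := neg_abs_le L
        linarith
      have h6 : (3 : ℝ) / 5 ≤ Real.exp (-(1 / 2)) := by
        have h7 : Real.exp (-(1 / 2)) ^ 2 = (Real.exp 1)⁻¹ := by
          rw [← Real.exp_nat_mul, ← Real.exp_neg]
          norm_num
        have h8 := Real.exp_one_lt_d9
        have h9 : (9 : ℝ) / 25 ≤ (Real.exp 1)⁻¹ := by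
          rw [le_inv_comm₀ (by norm_num) (Real.exp_pos 1)]
          norm_num
          linarith
        nlinarith [Real.exp_pos (-(1 / 2))]
      linarith
    have h5 : 1 / 2 ≤ Real.cos (s * L) := by
      rw [← Real.cos_abs, ← Real.cos_pi_div_three]
      refine Real.cos_le_cos_of_nonneg_of_le_pi (abs_nonneg _) (by linarith) ?_
      rw [abs_mul, abs_of_nonneg hs]
      have h6 : s * |L| ≤ s * ρ := mul_le_mul_of_nonneg_left h3 hs
      have := Real.pi_gt_three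
      linarith
    nlinarith
  unfold sf Pool.Agent.X127.HY.ph Pool.Agent.X127.HY.I0
  have hc : Continuous fun θ => ef s (cay (X (Real.tanh (ρ / 2)) θ)) := by
    have hx : Continuous fun θ => X (Real.tanh (ρ / 2)) θ :=
      X_cont.comp (continuous_const.prodMk continuous_id)
    have h1 : Continuous fun θ => cay (X (Real.tanh (ρ / 2)) θ) :=
      cay_smooth.continuousOn.comp_continuous hx fun θ => X_mem ρ θ
    exact (ef_smooth s).continuousOn.comp_continuous h1 fun θ => cay_im_pos (X_mem ρ θ)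
  have h3 : ∫ _ in (-Real.pi)..Real.pi, (3 / 10 : ℝ) ≤
      ∫ θ in (-Real.pi)..Real.pi, ef s (cay (X (Real.tanh (ρ / 2)) θ)) :=
    intervalIntegral.integral_mono_on (by linarith) intervalIntegrable_const
      (hc.intervalIntegrable _ _) fun θ _ => hlow θ
  rw [intervalIntegral.integral_const, smul_eq_mul] at h3
  rw [inv_mul_eq_div, le_div_iff₀ (by positivity)]
  linarith

end

end Pool.Agent.H22.NS
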