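import Pool.Agent.H22.NS.Rep
import Pool.Agent.H22.NS.Osc

/-! # The uniform bound for the integral of the kernels (MP_a28cf0_nt) -/

set_option autoImplicit false
open MeasureTheory Filter Topology Metric Set
open scoped ContDiff ENNReal

namespace Pool.Agent.H22.NS

open Pool.Agent.X127.HY (HH HH_open)

noncomputable section

/-- the derivatives of a function of several variables in the last one -/
lemma par_deriv {P : Type} [NormedAddCommGroup P] [NormedSpace ℝ P] {Φ : P × ℝ → ℂ}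
    (hΦ : ContDiff ℝ ∞ Φ) (k : ℕ) : ∃ Φk : P × ℝ → ℂ, Continuous Φk ∧
      ∀ (p : P) (ρ : ℝ), iteratedDeriv k (fun ρ => Φ (p, ρ)) ρ = Φk (p, ρ) := by
  induction k generalizing Φ with
  | zero => exact ⟨Φ, hΦ.continuous, fun p ρ => by simp⟩
  | succ k ih =>
    obtain ⟨Φ1, h1⟩ : ∃ Φ1 : P × ℝ → ℂ, Φ1 = fun x => fderiv ℝ Φ x (0, 1) := ⟨_, rfl⟩
    have h2 : ContDiff ℝ ∞ Φ1 := by
      rw [h1]
      exact (hΦ.fderiv_right (m := ∞) (by simp)).clm_apply contDiff_const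
    obtain ⟨Φk, hc, hk⟩ := ih h2
    refine ⟨Φk, hc, fun p ρ => ?_⟩
    rw [iteratedDeriv_succ', ← hk p ρ]
    congr 1
    funext x
    have h3 : HasFDerivAt Φ (fderiv ℝ Φ (p, x)) (p, x) :=
      (hΦ.differentiable (by simp) _).hasFDerivAt
    have h4 : HasDerivAt (fun x : ℝ => (p, x)) ((0 : P), (1 : ℝ)) x :=
      (hasDerivAt_const x p).prodMk (hasDerivAt_id x)
    rw [h1]
    exact (h3.comp_hasDerivAt x h4).deriv

/-- the products of the smooth functions with bounded functions -/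
lemma prod_deriv {F V : ℝ → ℂ} (hF : ContDiff ℝ ∞ F) (hV : ContDiff ℝ ∞ V) {B M : ℕ → ℝ}
    {ρ : ℝ} (hB : ∀ k, ‖iteratedDeriv k F ρ‖ ≤ B k) (hM : ∀ k, ‖iteratedDeriv k V ρ‖ ≤ M k)
    (k : ℕ) : ‖iteratedDeriv k (F * V) ρ‖ ≤
      ∑ i ∈ Finset.range (k + 1), (k.choose i : ℝ) * B i * M (k - i) := by
  have h := norm_iteratedFDeriv_mul_le (N := (k : ℕ)) (hF.of_le (by exact_mod_cast le_top))
    (hV.of_le (by exact_mod_cast le_top)) ρ (n := k) le_rfl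
  rw [← norm_iteratedFDeriv_eq_norm_iteratedDeriv]
  refine h.trans (Finset.sum_le_sum fun i _ => ?_)
  rw [norm_iteratedFDeriv_eq_norm_iteratedDeriv, norm_iteratedFDeriv_eq_norm_iteratedDeriv]
  exact mul_le_mul (mul_le_mul_of_nonneg_left (hB i) (by positivity)) (hM _) (norm_nonneg _)
    (mul_nonneg (by positivity) ((norm_nonneg _).trans (hB i)))

/-- the amplitude in the first variable -/
def amp (ψ : ℂ → ℂ) (x : (ℂ × ℝ) × ℝ) : ℂ := (Real.sinh x.2 : ℂ) * ψ (gp x.1.1 x.2 x.1.2)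

lemma amp_smooth {ψ : ℂ → ℂ} (hψ : ContDiff ℝ ∞ ψ) : ContDiff ℝ ∞ (amp ψ) := by
  unfold amp
  have h1 : ContDiff ℝ ∞ fun x : (ℂ × ℝ) × ℝ => ((Real.sinh x.2 : ℝ) : ℂ) :=
    Complex.ofRealCLM.contDiff.comp (Real.contDiff_sinh.comp contDiff_snd)
  exact h1.mul (hψ.comp gp_smooth3)

/-- the amplitudes have bounded derivatives -/
lemma amp_bd {ψ : ℂ → ℂ} (hψ : ContDiff ℝ ∞ ψ) {K : Set ℂ} (hK : IsCompact K) :
    ∃ M : ℕ → ℝ, ∀ (k : ℕ) (t : ℝ), 0 ≤ t → ∀ w ∈ K, ∀ θ ∈ Icc (-Real.pi) Real.pi, ∀ ρ,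
      ‖iteratedDeriv k ((fun ρ => amp ψ ((w, θ), ρ)) * (((1 + t)⁻¹ : ℝ) : ℂ) • WW t) ρ‖ ≤ M k := by
  obtain ⟨M0, hM0⟩ := WW_bd
  choose Φk hc hk using fun k => par_deriv (amp_smooth hψ) k
  have hb : ∀ k, ∃ C : ℝ, ∀ x ∈ (K ×ˢ Icc (-Real.pi) Real.pi) ×ˢ Icc (1 / 4 : ℝ) 2,
      ‖Φk k x‖ ≤ C := fun k =>
    ((hK.prod isCompact_Icc).prod isCompact_Icc).exists_bound_of_continuousOn (hc k).continuousOn
  choose B hB using hb
  refine ⟨fun k => max 0 (∑ i ∈ Finset.range (k + 1), (k.choose i : ℝ) * B i * M0 (k - i)),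
    fun k t ht w hw θ hθ ρ => ?_⟩
  have h1t : 0 < 1 + t := by linarith
  have hF : ContDiff ℝ ∞ fun ρ => amp ψ ((w, θ), ρ) :=
    (amp_smooth hψ).comp (contDiff_const.prodMk contDiff_id)
  have hV : ContDiff ℝ ∞ ((((1 + t)⁻¹ : ℝ) : ℂ) • WW t) :=
    (WW_sm t).const_smul (((1 + t)⁻¹ : ℝ) : ℂ)
  by_cases h : ρ ∈ Icc (1 / 4 : ℝ) 2
  · refine (prod_deriv hF hV (B := B) (M := M0) (fun i => ?_) (fun i => ?_) k).trans
      (le_max_right _ _)
    · rw [hk]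
      exact hB i _ ⟨⟨hw, hθ⟩, h⟩
    · rw [iteratedDeriv_const_smul_field, norm_smul, Complex.norm_real, Real.norm_eq_abs,
        abs_of_pos (by positivity), inv_mul_le_iff₀ h1t]
      exact hM0 i t ρ ht
  · refine le_trans (le_of_eq ?_) (le_max_left _ _)
    have e : ((fun ρ => amp ψ ((w, θ), ρ)) * (((1 + t)⁻¹ : ℝ) : ℂ) • WW t) =ᶠ[𝓝 ρ]
        fun _ => 0 := by
      filter_upwards [isClosed_Icc.isOpen_compl.mem_nhds h] with x hx
      have hx2 : x ∉ Icc (1 / 4 : ℝ) 2 := hx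
      rw [mem_Icc, not_and_or, not_le, not_le] at hx2
      simp only [Pi.mul_apply, Pi.smul_apply]
      rw [WW_zero t (hx2.imp le_of_lt le_of_lt)]
      simp
    rw [e.iteratedDeriv_eq k, norm_eq_zero]
    cases k with
    | zero => simp
    | succ k => simp

/-- **the uniform bound** -/
theorem sup_bound (m : ℕ) {ψ : ℂ → ℂ} (hψ : ContDiff ℝ ∞ ψ) {K : Set ℂ} (hK : IsCompact K)
    (hKH : K ⊆ HH) (h0 : ∀ z, z ∉ K → ψ z = 0) {K' : Set ℂ} (hK' : IsCompact K')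
    (hKH' : K' ⊆ HH) (N : ℕ) : ∃ C : ℝ, 0 ≤ C ∧ ∀ (t : ℝ) (s : Fin m → ℝ), 1 ≤ t →
      (∀ j, 0 ≤ s j) → 0 < t - ∑ j, sg (s j) → ∀ w0 ∈ K', ∀ w : Fin m → ℂ, (∀ j, w j ∈ HH) →
      ‖∫ z in HH, ψ z * (kk t (dd z w0) * ∏ j, kk (s j) (dd z (w j))) / (z.im : ℂ) ^ 2‖ ≤
        C * ((1 + t) * ∏ j, (1 + s j)) / (t - ∑ j, sg (s j)) ^ N := by
  obtain ⟨M0, hM0⟩ := WW_bd
  obtain ⟨M1, hM1⟩ := amp_bd hψ hK'
  obtain ⟨M, hM⟩ : ∃ M : ℕ → ℝ, M = fun k => max (M0 k) (M1 k) := ⟨_, rfl⟩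
  obtain ⟨C, hC, hosc⟩ := osc (m := m) (M := M) (R := 1 / 4) (a := 1 / 4) (b := 2) (by norm_num) N
  refine ⟨C * (2 * Real.pi), by positivity, ?_⟩
  intro t s ht hs hD w0 hw0 w hw
  have sgt : sg t = t := by unfold sg; simp [ht]
  have hw0' := hKH' hw0
  have h1t : 0 < 1 + t := by linarith
  have h1s : ∀ j, 0 < 1 + s j := fun j => by have := hs j; linarith
  have sg0 : ∀ j, 0 ≤ sg (s j) := fun j => by
    unfold sg
    split_ifs
    · exact hs j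
    · exact le_rfl
  obtain ⟨F, hFd⟩ : ∃ F : ℂ → ℂ, F = HH.indicator fun z =>
      ψ z * (kk t (dd z w0) * ∏ j, kk (s j) (dd z (w j))) := ⟨_, rfl⟩
  have hF1 : ∀ z ∈ HH, F z = ψ z * (kk t (dd z w0) * ∏ j, kk (s j) (dd z (w j))) := fun z hz => by
    rw [hFd, indicator_of_mem hz]
  have hF : ContinuousOn F HH := by
    refine ContinuousOn.congr ?_ hF1
    exact hψ.continuous.continuousOn.mul (((kk_cont t).comp_continuousOn (dd_cont hw0')).mul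
      (continuousOn_finsetProd _ fun j _ => (kk_cont (s j)).comp_continuousOn (dd_cont (hw j))))
  have hF0 : ∀ z, z ∉ K → F z = 0 := by
    intro z hz
    rw [hFd]
    by_cases h : z ∈ HH
    · rw [indicator_of_mem h, h0 z hz, zero_mul]
    · rw [indicator_of_notMem h]
  have e1 : ∫ z in HH, ψ z * (kk t (dd z w0) * ∏ j, kk (s j) (dd z (w j))) / (z.im : ℂ) ^ 2 =
      ∫ z in HH, F z / (z.im : ℂ) ^ 2 :=
    setIntegral_congr_fun HH_open.measurableSet fun z hz => by rw [hF1 z hz]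
  rw [e1, polar_int hw0' hF hK hKH hF0]
  -- one ray
  have hray : ∀ θ ∈ Ioo (-Real.pi) Real.pi,
      ‖∫ ρ in Ioi (0 : ℝ), (Real.sinh ρ : ℂ) * F (gp w0 ρ θ)‖ ≤
        C * ((1 + t) * ∏ j, (1 + s j)) / (t - ∑ j, sg (s j)) ^ N := by
    intro θ hθ
    choose A B hA hAB hd using fun j => dist_formula hw0' (hw j) θ
    have hF2 : ContDiff ℝ ∞ fun ρ => amp ψ ((w0, θ), ρ) :=
      (amp_smooth hψ).comp (contDiff_const.prodMk contDiff_id)
    obtain ⟨p, hp⟩ : ∃ p : Par m M (1 / 4) (1 / 4) 2, p.t = t ∧ p.σ = (fun j => sg (s j)) ∧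
        p.A = A ∧ p.B = B ∧ p.W = (fun j => (((1 + s j)⁻¹ : ℝ) : ℂ) • WW (s j)) ∧
        p.Ψ = (fun ρ => amp ψ ((w0, θ), ρ)) * (((1 + t)⁻¹ : ℝ) : ℂ) • WW t := by
      refine ⟨Par.mk t (fun j => sg (s j)) A B (fun j => (((1 + s j)⁻¹ : ℝ) : ℂ) • WW (s j))
        ((fun ρ => amp ψ ((w0, θ), ρ)) * (((1 + t)⁻¹ : ℝ) : ℂ) • WW t) sg0 hA hAB hD
        (fun j => (WW_sm (s j)).const_smul (((1 + s j)⁻¹ : ℝ) : ℂ)) ?_ ?_
        (hF2.mul ((WW_sm t).const_smul (((1 + t)⁻¹ : ℝ) : ℂ))) ?_ ?_,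
        rfl, rfl, rfl, rfl, rfl, rfl⟩
      · intro j k q
        rw [iteratedDeriv_const_smul_field, norm_smul, Complex.norm_real, Real.norm_eq_abs,
          abs_of_pos (by have := h1s j; positivity), inv_mul_le_iff₀ (h1s j)]
        refine (hM0 k (s j) q (hs j)).trans (mul_le_mul_of_nonneg_left ?_ (h1s j).le)
        rw [hM]
        exact le_max_left _ _
      · intro j q hq
        simp only [Pi.smul_apply]
        rw [WW_zero _ (Or.inl hq.le), smul_zero]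
      · intro k ρ
        refine (hM1 k t (by linarith) w0 hw0 θ (Ioo_subset_Icc_self hθ) ρ).trans ?_
        rw [hM]
        exact le_max_right _ _
      · intro ρ hρ
        rw [mem_Icc, not_and_or, not_le, not_le] at hρ
        simp only [Pi.mul_apply, Pi.smul_apply]
        rw [WW_zero t (hρ.imp le_of_lt le_of_lt)]
        simp
    obtain ⟨pt', pσ, pA, pB, pW, pΨ⟩ := hp
    have hq : ∀ j ρ, dd (gp w0 ρ θ) (w j) = p.q j ρ := by
      intro j ρ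
      unfold dd Par.q Par.y
      rw [hd, pA, pB]
    have e2 : ∫ ρ in Ioi (0 : ℝ), (Real.sinh ρ : ℂ) * F (gp w0 ρ θ) =
        (((1 + t) * ∏ j, (1 + s j) : ℝ) : ℂ) * ∫ ρ, p.E ρ * (p.Ψ ρ * ∏ j, p.W j (p.q j ρ)) := by
      have e3 : ∫ ρ, p.E ρ * (p.Ψ ρ * ∏ j, p.W j (p.q j ρ)) =
          ∫ ρ in Ioi (0 : ℝ), p.E ρ * (p.Ψ ρ * ∏ j, p.W j (p.q j ρ)) := by
        refine (setIntegral_eq_integral_of_forall_compl_eq_zero fun ρ hρ => ?_).symm
        have h1 : ρ ≤ 0 := not_lt.1 hρ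
        rw [p.hΨ0 ρ fun h => by linarith [h.1]]
        ring
      rw [e3, ← integral_const_mul]
      refine setIntegral_congr_fun measurableSet_Ioi fun ρ hρ => ?_
      have hρ : 0 < ρ := hρ
      rw [hF1 _ (gp_mem hw0' ρ θ), dd_gp hw0' hρ.le]
      simp only [hq]
      have e4 : p.E ρ = Complex.exp (-(Complex.I * (t * ρ : ℝ))) *
          ∏ j, Complex.exp (-(Complex.I * (sg (s j) * p.q j ρ : ℝ))) := by
        unfold Par.E Par.Θ
        rw [← Complex.exp_sum, ← Complex.exp_add, pt', pσ]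
        congr 1
        push_cast
        rw [Finset.sum_neg_distrib, ← Finset.mul_sum]
        ring
      have e5 : ∏ j, p.W j (p.q j ρ) = (∏ j, (((1 + s j)⁻¹ : ℝ) : ℂ)) *
          ∏ j, WW (s j) (p.q j ρ) := by
        rw [pW, ← Finset.prod_mul_distrib]
        refine Finset.prod_congr rfl fun j _ => ?_
        simp only [Pi.smul_apply, smul_eq_mul]
      have e6 : (((∏ j, (1 + s j) : ℝ)) : ℂ) * ∏ j, (((1 + s j)⁻¹ : ℝ) : ℂ) = 1 := by
        rw [← Complex.ofReal_prod, ← Complex.ofReal_mul, ← Finset.prod_mul_distrib]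
        rw [Finset.prod_eq_one fun j _ => mul_inv_cancel₀ (h1s j).ne']
        simp
      have e7 : ((1 + t : ℝ) : ℂ) * (((1 + t)⁻¹ : ℝ) : ℂ) = 1 := by
        rw [← Complex.ofReal_mul, mul_inv_cancel₀ h1t.ne', Complex.ofReal_one]
      have e8 : ∏ j, kk (s j) (p.q j ρ) =
          (∏ j, Complex.exp (-(Complex.I * (sg (s j) * p.q j ρ : ℝ)))) *
            ∏ j, WW (s j) (p.q j ρ) := by
        unfold kk
        rw [Finset.prod_mul_distrib]
      have e9 : kk t ρ = Complex.exp (-(Complex.I * (t * ρ : ℝ))) * WW t ρ := by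
        unfold kk
        rw [sgt]
      have e10 : p.Ψ ρ = (Real.sinh ρ : ℂ) * ψ (gp w0 ρ θ) * ((((1 + t)⁻¹ : ℝ) : ℂ) * WW t ρ) := by
        rw [pΨ]
        rfl
      rw [e8, e9, e10, e5, e4, show (((1 + t) * ∏ j, (1 + s j) : ℝ) : ℂ) =
        ((1 + t : ℝ) : ℂ) * ((∏ j, (1 + s j) : ℝ) : ℂ) from Complex.ofReal_mul _ _]
      generalize (∏ j, Complex.exp (-(Complex.I * (sg (s j) * p.q j ρ : ℝ)))) = P1
      generalize (∏ j, WW (s j) (p.q j ρ)) = P2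
      generalize (∏ j, (((1 + s j)⁻¹ : ℝ) : ℂ)) = P3 at e6 ⊢
      linear_combination (-((Real.sinh ρ : ℂ) * ψ (gp w0 ρ θ) *
        Complex.exp (-(Complex.I * (t * ρ : ℝ))) * WW t ρ * P1 * P2)) * e7 +
        (-((Real.sinh ρ : ℂ) * ψ (gp w0 ρ θ) *
        Complex.exp (-(Complex.I * (t * ρ : ℝ))) * WW t ρ * P1 * P2) * ((1 + t : ℝ) : ℂ) *
          (((1 + t)⁻¹ : ℝ) : ℂ)) * e6
    rw [e2, norm_mul, Complex.norm_real, Real.norm_eq_abs, abs_of_nonneg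
      (mul_nonneg h1t.le (Finset.prod_nonneg fun j _ => (h1s j).le))]
    have h5 := hosc p
    rw [pt', pσ] at h5
    calc ((1 + t) * ∏ j, (1 + s j)) * ‖∫ ρ, p.E ρ * (p.Ψ ρ * ∏ j, p.W j (p.q j ρ))‖
        ≤ ((1 + t) * ∏ j, (1 + s j)) * (C / (t - ∑ j, sg (s j)) ^ N) :=
          mul_le_mul_of_nonneg_left h5
            (mul_nonneg h1t.le (Finset.prod_nonneg fun j _ => (h1s j).le))
      _ = C * ((1 + t) * ∏ j, (1 + s j)) / (t - ∑ j, sg (s j)) ^ N := by ring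
  have h6 := norm_setIntegral_le_of_norm_le_const (μ := volume) (s := Ioo (-Real.pi) Real.pi)
    (by rw [Real.volume_Ioo]; exact ENNReal.ofReal_lt_top) hray
  refine h6.trans (le_of_eq ?_)
  rw [Measure.real, Real.volume_Ioo, ENNReal.toReal_ofReal (by linarith [Real.pi_pos])]
  ring

end

end Pool.Agent.H22.NS
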